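import Pool.Agent.P.MP_4c0b8d_co.Iface

namespace Pool.Agent.P.MP_4c0b8d_co

namespace Arith

lemma choose_mono (M d : ℕ) : ∀ a : ℕ, a + (a + d) ≤ M → M.choose a ≤ M.choose (a + d) := by
  induction d using Nat.strong_induction_on with
  | _ d ih =>
    intro a h
    rcases Nat.eq_zero_or_pos d with rfl | hd
    · simp
    rcases eq_or_lt_of_le h with e | hlt
    · exact (Nat.choose_symm_of_eq_add e.symm).le
    · have h1 := ih (d - 1) (by omega) (a + 1) (by omega)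
      have h2 : a + 1 + (d - 1) = a + d := by omega
      rw [h2] at h1
      have h3 := Nat.choose_succ_right_eq M a
      have h4 : M.choose a * (a + 1) ≤ M.choose (a + 1) * (a + 1) := by
        rw [h3]; exact Nat.mul_le_mul_left _ (by omega)
      exact (Nat.le_of_mul_le_mul_right h4 (by omega)).trans h1

lemma choose_le_of {M a b : ℕ} (h : a ≤ b) (h2 : a + b ≤ M) : M.choose a ≤ M.choose b := by
  obtain ⟨d, rfl⟩ := Nat.exists_eq_add_of_le h
  exact choose_mono M d a h2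

lemma t_sub_d (r q : ℕ) : ∀ m : ℕ, q ≤ r → q + r + 1 ≤ m →
    m.choose q + (m - q).choose (r + 1) ≤ m.choose (r + 1) + 1 := by
  induction q with
  | zero => intro m _ _; simp; omega
  | succ q ih =>
    intro m h1 h2
    obtain ⟨m, rfl⟩ : ∃ m', m = m' + 1 := ⟨m - 1, by omega⟩
    have h3 := ih m (by omega) (by omega)
    have h4 : m.choose (q + 1) ≤ m.choose r := choose_le_of h1 (by omega)
    have e : m + 1 - (q + 1) = m - q := by omega
    rw [e, Nat.choose_succ_succ' m q, Nat.choose_succ_succ' m r]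
    omega

lemma add_le (x p i : ℕ) : x.choose (p + 1) + i * x.choose p ≤ (x + i).choose (p + 1) := by
  induction i with
  | zero => simp
  | succ i ih =>
    have h : x.choose p ≤ (x + i).choose p := Nat.choose_le_choose p (by omega)
    rw [← add_assoc, Nat.choose_succ_succ' (x + i) p, add_mul]
    omega

lemma c_ge (p j : ℕ) : j + 1 ≤ (p + 1 + j).choose (p + 1) := by
  have h := add_le (p + 1) p j
  have h2 : 1 ≤ (p + 1).choose p := Nat.choose_pos (by omega)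
  rw [Nat.choose_self] at h
  nlinarith

/-- The facts on one part, `m = 2 (p+1) + 1 + j`. -/
lemma facts (p j : ℕ) : ∃ s t c d y : ℤ,
    s = ((2 * (p + 1) + 1 + j).choose (p + 1) : ℕ) ∧
    t = ((2 * (p + 1) + 1 + j).choose (p + 1 + 1) : ℕ) ∧
    c = ((2 * (p + 1) + 1 + j - (p + 1) - 1).choose (p + 1) : ℕ) ∧
    d = ((2 * (p + 1) + 1 + j - (p + 1)).choose (p + 1 + 1) : ℕ) ∧
    (p + 2) * t = (p + 2 + j) * s ∧ (p + 2) * d = (p + 2 + j) * c ∧ s + d ≤ t + 1 ∧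
    j + 1 ≤ c ∧ c + (p + 2) * y ≤ s ∧ (p + 1) * c = (j + 1) * y ∧ 1 ≤ y := by
  have e1 : 2 * (p + 1) + 1 + j - (p + 1) - 1 = p + 1 + j := by omega
  have e2 : 2 * (p + 1) + 1 + j - (p + 1) = p + 1 + j + 1 := by omega
  refine ⟨_, _, _, _, ((p + 1 + j).choose p : ℕ), rfl, rfl, rfl, rfl, ?_, ?_, ?_, ?_, ?_, ?_, ?_⟩
  · have h := Nat.choose_succ_right_eq (2 * (p + 1) + 1 + j) (p + 1)
    rw [e2] at h
    zify at h
    linarith
  · have h := Nat.add_one_mul_choose_eq (p + 1 + j) (p + 1)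
    rw [e1, e2]
    zify at h
    linarith
  · have h := t_sub_d (p + 1) (p + 1) (2 * (p + 1) + 1 + j) le_rfl (by omega)
    zify at h
    linarith
  · rw [e1]
    exact_mod_cast c_ge p j
  · have h := add_le (p + 1 + j) p (p + 2)
    have e3 : p + 1 + j + (p + 2) = 2 * (p + 1) + 1 + j := by omega
    rw [e3] at h
    rw [e1]
    exact_mod_cast h
  · have h := Nat.choose_succ_right_eq (p + 1 + j) p
    have e3 : p + 1 + j - p = j + 1 := by omega
    rw [e3] at h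
    rw [e1]
    zify at h
    linarith
  · exact_mod_cast Nat.choose_pos (by omega)

lemma core1 (p q j1 j2 s1 t1 d1 s2 t2 c2 d2 : ℤ) (hp : 0 ≤ p) (hq : 0 ≤ q)
    (hj2 : 0 ≤ j2) (a1 : (p + 2) * t1 = (p + 2 + j1) * s1) (a3 : s1 + d1 ≤ t1 + 1)
    (a4 : 2 ≤ s1) (b1 : (q + 2) * t2 = (q + 2 + j2) * s2) (b2 : (q + 2) * d2 = (q + 2 + j2) * c2)
    (b3 : j2 + 1 ≤ c2) (b4 : c2 + 1 ≤ s2) (h : j2 * (p + 2) ≤ j1 * (q + 2)) :
    t1 + s1 * (t2 - d2) ≤ t1 * s2 - d1 * c2 + 1 := by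
  have g : (q + 2 + j2) * s1 ≤ (q + 2) * t1 := by
    have : (p + 2) * ((q + 2 + j2) * s1) ≤ (p + 2) * ((q + 2) * t1) := by
      have e : (p + 2) * ((q + 2) * t1) = (q + 2) * ((p + 2 + j1) * s1) := by rw [← a1]; ring
      rw [e]
      nlinarith
    exact le_of_mul_le_mul_left this (by linarith)
  have g1 : ((q + 2) * t1 - (q + 2 + j2) * s1) * 1 ≤
      ((q + 2) * t1 - (q + 2 + j2) * s1) * (s2 - c2) :=
    mul_le_mul_of_nonneg_left (by linarith) (by linarith)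
  have g2 : (s1 - 1) * j2 ≤ (t1 - d1) * (c2 - 1) :=
    mul_le_mul (by linarith) (by linarith) hj2 (by linarith)
  have g3 : s1 * j2 ≤ (q + 2) * ((s1 - 1) * j2) := by
    have : 0 ≤ (s1 - 2) * j2 := mul_nonneg (by linarith) hj2
    have : 0 ≤ q * ((s1 - 1) * j2) := mul_nonneg hq (mul_nonneg (by linarith) hj2)
    nlinarith
  have g4 : (q + 2) * ((s1 - 1) * j2) ≤ (q + 2) * ((t1 - d1) * (c2 - 1)) :=
    mul_le_mul_of_nonneg_left g2 (by linarith)
  have g5 : (q + 2) * (d1 - 1) ≤ (q + 2) * (t1 - s1) :=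
    mul_le_mul_of_nonneg_left (by linarith) (by linarith)
  have e : (q + 2) * (s1 * (t2 - d2)) = (q + 2 + j2) * s1 * (s2 - c2) := by
    have : (q + 2) * (s1 * (t2 - d2)) = s1 * ((q + 2) * t2 - (q + 2) * d2) := by ring
    rw [this, b1, b2]; ring
  have : (q + 2) * (t1 + s1 * (t2 - d2)) ≤ (q + 2) * (t1 * s2 - d1 * c2 + 1) := by
    nlinarith
  exact le_of_mul_le_mul_left this (by linarith)

lemma core2 (p q j1 j2 s1 t1 c1 y1 c2 d2 : ℤ) (hp : 0 ≤ p) (hq : 0 ≤ q) (hj1 : 0 ≤ j1)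
    (hj2 : 0 ≤ j2) (a1 : (p + 2) * t1 = (p + 2 + j1) * s1) (a2 : j1 + 1 ≤ c1)
    (a3 : c1 + (p + 2) * y1 ≤ s1) (a4 : (p + 1) * c1 = (j1 + 1) * y1) (a5 : 1 ≤ y1)
    (b2 : (q + 2) * d2 = (q + 2 + j2) * c2)
    (b3 : j2 + 1 ≤ c2) (h : j1 * (q + 2) < j2 * (p + 2)) :
    t1 ≤ (s1 - c1) * d2 := by
  have hy : 0 ≤ (p + 2) * y1 := by positivity
  have g : (q + 2) * t1 ≤ (q + 2 + j2) * s1 := by
    have : (p + 2) * ((q + 2) * t1) ≤ (p + 2) * ((q + 2 + j2) * s1) := by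
      have e : (p + 2) * ((q + 2) * t1) = (q + 2) * ((p + 2 + j1) * s1) := by rw [← a1]; ring
      rw [e]
      have : 0 ≤ s1 := by linarith
      nlinarith
    exact le_of_mul_le_mul_left this (by linarith)
  have g1 : j1 + 1 ≤ j2 * (p + 2) := by nlinarith
  have g2 : (j1 + 1) * y1 ≤ j2 * (p + 2) * y1 := mul_le_mul_of_nonneg_right g1 (by linarith)
  have g3 : c1 ≤ (p + 1) * c1 := by nlinarith
  have g4 : (p + 2) * y1 * j2 ≤ (s1 - c1) * (c2 - 1) :=
    mul_le_mul (by linarith) (by linarith) hj2 (by linarith)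
  have g5 : s1 ≤ (s1 - c1) * c2 := by nlinarith
  have g6 : (q + 2 + j2) * s1 ≤ (q + 2 + j2) * ((s1 - c1) * c2) :=
    mul_le_mul_of_nonneg_left g5 (by linarith)
  have e : (q + 2) * ((s1 - c1) * d2) = (q + 2 + j2) * ((s1 - c1) * c2) := by
    have : (q + 2) * ((s1 - c1) * d2) = (s1 - c1) * ((q + 2) * d2) := by ring
    rw [this, b2]; ring
  have : (q + 2) * t1 ≤ (q + 2) * ((s1 - c1) * d2) := by linarith
  exact le_of_mul_le_mul_left this (by linarith)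

/-- The inequality for a block which is a whole row. -/
lemma row {m1 p m2 q : ℕ} (hp : 1 ≤ p) (hq : 1 ≤ q) (h1 : 2 * p + 1 ≤ m1) (h2 : 2 * q + 1 ≤ m2) :
    (m1.choose (p + 1) : ℤ) + (m1.choose p : ℤ) *
      ((m2.choose (q + 1) : ℤ) - ((m2 - q).choose (q + 1) : ℤ))
      ≤ max (bigW m1 p m2 q) (bigW m2 q m1 p) := by
  obtain ⟨p, rfl⟩ : ∃ p', p = p' + 1 := ⟨p - 1, by omega⟩
  obtain ⟨q, rfl⟩ : ∃ q', q = q' + 1 := ⟨q - 1, by omega⟩
  obtain ⟨j1, rfl⟩ := Nat.exists_eq_add_of_le h1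
  obtain ⟨j2, rfl⟩ := Nat.exists_eq_add_of_le h2
  obtain ⟨s1, t1, c1, d1, y1, es1, et1, ec1, ed1, a1, a2, a3, a4, a5, a6, a7⟩ := facts p j1
  obtain ⟨s2, t2, c2, d2, y2, es2, et2, ec2, ed2, b1, b2, b3, b4, b5, b6, b7⟩ := facts q j2
  simp only [bigW, Nat.add_one_ne_zero, if_false]
  rw [← es1, ← et1, ← ec1, ← ed1, ← es2, ← et2, ← ec2, ← ed2]
  have hp0 : (0 : ℤ) ≤ p := by positivity
  have hq0 : (0 : ℤ) ≤ q := by positivity
  have hj1 : (0 : ℤ) ≤ j1 := by positivity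
  have hj2 : (0 : ℤ) ≤ j2 := by positivity
  rcases le_or_gt ((j2 : ℤ) * (p + 2)) (j1 * (q + 2)) with h | h
  · refine le_max_of_le_right ?_
    have := core1 p q j1 j2 s1 t1 d1 s2 t2 c2 d2 hp0 hq0 hj2 a1 a3 (by nlinarith) b1 b2 b4
      (by nlinarith) h
    linarith
  · refine le_max_of_le_left ?_
    have := core2 p q j1 j2 s1 t1 c1 y1 c2 d2 hp0 hq0 hj1 hj2 a1 a4 a5 a6 a7 b2 b4 h
    linarith

end Arith

end Pool.Agent.P.MP_4c0b8d_co
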