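import Pool.Agent.P.MP_4c0b8d_co.Defs

namespace Pool.Agent.P.MP_4c0b8d_co

open Finset

section Atoms

variable {X Y : Type} [DecidableEq X] [DecidableEq Y]

/-- A pair of nonempty sets with no edge between them. -/
def Good (SX : Finset X) (SY : Finset Y) (adj : X → Y → Prop) (A : Finset X) (B : Finset Y) :
    Prop :=
  A ⊆ SX ∧ B ⊆ SY ∧ A.Nonempty ∧ B.Nonempty ∧ ∀ a ∈ A, ∀ b ∈ B, ¬ adj a b

/-- An automorphism of the bipartite graph. -/
def Aut (SX : Finset X) (SY : Finset Y) (adj : X → Y → Prop) (f : X → X) (g : Y → Y) : Prop :=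
  Function.Injective f ∧ Function.Injective g ∧ (∀ a ∈ SX, f a ∈ SX) ∧ (∀ b ∈ SY, g b ∈ SY) ∧
    ∀ a b, adj (f a) (g b) → adj a b

/-- A block of imprimitivity. -/
def Blk (SX : Finset X) (SY : Finset Y) (adj : X → Y → Prop) (A : Finset X) : Prop :=
  ∀ f g, Aut SX SY adj f g → ∀ a0 ∈ A, f a0 ∈ A → ∀ a ∈ A, f a ∈ A

omit [DecidableEq X] [DecidableEq Y] in
lemma Good.swap {SX : Finset X} {SY : Finset Y} {adj : X → Y → Prop} {A : Finset X}
    {B : Finset Y} (h : Good SX SY adj A B) : Good SY SX (fun b a => adj a b) B A :=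
  ⟨h.2.1, h.1, h.2.2.2.1, h.2.2.1, fun b hb a ha => h.2.2.2.2 a ha b hb⟩

lemma blk_of_min {SX : Finset X} {SY : Finset Y} {adj : X → Y → Prop} {A : Finset X}
    {B : Finset Y} (h : Good SX SY adj A B)
    (hmax : ∀ A' B', Good SX SY adj A' B' → A'.card + B'.card ≤ A.card + B.card)
    (hAB : A.card ≤ B.card)
    (hmin : ∀ A' B', Good SX SY adj A' B' → A'.card + B'.card = A.card + B.card →
      A.card ≤ A'.card) : Blk SX SY adj A := by
  intro f g ⟨hf, hg, hfS, hgS, hadj⟩ a0 ha0 hfa0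
  obtain ⟨hA, hB, hAn, hBn, hno⟩ := h
  have hA' : A.image f ⊆ SX := by
    intro x hx
    obtain ⟨a, ha, rfl⟩ := mem_image.1 hx
    exact hfS a (hA ha)
  have hB' : B.image g ⊆ SY := by
    intro x hx
    obtain ⟨a, ha, rfl⟩ := mem_image.1 hx
    exact hgS a (hB ha)
  have hno' : ∀ a ∈ A.image f, ∀ b ∈ B.image g, ¬ adj a b := by
    intro x hx y hy
    obtain ⟨a, ha, rfl⟩ := mem_image.1 hx
    obtain ⟨b, hb, rfl⟩ := mem_image.1 hy
    exact fun hh => hno a ha b hb (hadj a b hh)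
  have cA : (A.image f).card = A.card := card_image_of_injective _ hf
  have cB : (B.image g).card = B.card := card_image_of_injective _ hg
  have hne : (A ∩ A.image f).Nonempty := ⟨f a0, mem_inter.2 ⟨hfa0, mem_image_of_mem f ha0⟩⟩
  have g1 : Good SX SY adj (A ∩ A.image f) (B ∪ B.image g) := by
    refine ⟨inter_subset_left.trans hA, union_subset hB hB', hne, hBn.mono subset_union_left, ?_⟩
    intro a ha b hb
    rcases mem_union.1 hb with hb | hb
    · exact hno a (mem_inter.1 ha).1 b hb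
    · exact hno' a (mem_inter.1 ha).2 b hb
  have e1 := card_union_add_card_inter A (A.image f)
  have e2 := card_union_add_card_inter B (B.image g)
  have m1 := hmax _ _ g1
  have hpos := hne.card_pos
  by_cases hb : (B ∩ B.image g).Nonempty
  · have g2 : Good SX SY adj (A ∪ A.image f) (B ∩ B.image g) := by
      refine ⟨union_subset hA hA', inter_subset_left.trans hB, hAn.mono subset_union_left, hb, ?_⟩
      intro a ha b hb
      rcases mem_union.1 ha with ha | ha
      · exact hno a ha b (mem_inter.1 hb).1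
      · exact hno' a ha b (mem_inter.1 hb).2
    have m2 := hmax _ _ g2
    have m3 := hmin _ _ g1 (by omega)
    have e3 : A ∩ A.image f = A := eq_of_subset_of_card_le inter_subset_left m3
    have e4 : A ⊆ A.image f := by rw [← e3]; rw [e3]; exact fun x hx => (mem_inter.1 (e3 ▸ hx)).2
    have e5 : A = A.image f := eq_of_subset_of_card_le e4 (by omega)
    intro a ha
    rw [e5]
    exact mem_image_of_mem f ha
  · have : (B ∩ B.image g).card = 0 := by
      rw [not_nonempty_iff_eq_empty.1 hb]; rfl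
    omega

theorem atom_bound {SX : Finset X} {SY : Finset Y} {adj : X → Y → Prop} (V : ℤ)
    (hA : ∀ A B, Good SX SY adj A B → Blk SX SY adj A → (A.card + B.card : ℤ) ≤ V)
    (hB : ∀ A B, Good SX SY adj A B → Blk SY SX (fun b a => adj a b) B →
      (A.card + B.card : ℤ) ≤ V) :
    ∀ A B, Good SX SY adj A B → (A.card + B.card : ℤ) ≤ V := by
  classical
  intro A0 B0 h0
  let T := (SX.powerset ×ˢ SY.powerset).filter (fun z => Good SX SY adj z.1 z.2)
  have memT : ∀ A B, Good SX SY adj A B → (A, B) ∈ T := fun A B h =>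
    mem_filter.2 ⟨mem_product.2 ⟨mem_powerset.2 h.1, mem_powerset.2 h.2.1⟩, h⟩
  obtain ⟨z1, hz1, hmax1⟩ := exists_max_image T (fun z => z.1.card + z.2.card) ⟨_, memT _ _ h0⟩
  let T' := T.filter (fun z => z.1.card + z.2.card = z1.1.card + z1.2.card)
  obtain ⟨z, hz, hmin⟩ := exists_min_image T' (fun z => min z.1.card z.2.card)
    ⟨z1, mem_filter.2 ⟨hz1, rfl⟩⟩
  obtain ⟨hzT, hze⟩ := mem_filter.1 hz
  have hg : Good SX SY adj z.1 z.2 := (mem_filter.1 hzT).2
  have hmax : ∀ A' B', Good SX SY adj A' B' → A'.card + B'.card ≤ z.1.card + z.2.card := by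
    intro A' B' h
    have := hmax1 _ (memT _ _ h)
    simp only at this
    omega
  have hm : ∀ A' B', Good SX SY adj A' B' → A'.card + B'.card = z.1.card + z.2.card →
      min z.1.card z.2.card ≤ min A'.card B'.card := by
    intro A' B' h e
    exact hmin (A', B') (mem_filter.2 ⟨memT _ _ h, by simp only; omega⟩)
  have h1 := hmax _ _ h0
  have key : (z.1.card + z.2.card : ℤ) ≤ V := by
    rcases le_total z.1.card z.2.card with hle | hle
    · refine hA _ _ hg (blk_of_min hg hmax hle ?_)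
      intro A' B' h e
      have := hm A' B' h e
      omega
    · refine hB _ _ hg (blk_of_min hg.swap ?_ hle ?_)
      · intro B' A' h
        have := hmax A' B' h.swap
        omega
      · intro B' A' h e
        have := hm A' B' h.swap (by omega)
        omega
  omega

end Atoms

section Blocks

lemma image_swap_fix {E : Finset ℕ} {a b : ℕ} (h : a ∈ E ↔ b ∈ E) :
    E.image (Equiv.swap a b) = E := by
  ext x
  simp only [mem_image]
  constructor
  · rintro ⟨y, hy, rfl⟩
    rw [Equiv.swap_apply_def]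
    split_ifs with h1 h2
    · exact h.1 (h1 ▸ hy)
    · exact h.2 (h2 ▸ hy)
    · exact hy
  · intro hx
    refine ⟨Equiv.swap a b x, ?_, by simp⟩
    rw [Equiv.swap_apply_def]
    split_ifs with h1 h2
    · exact h.1 (h1 ▸ hx)
    · exact h.2 (h2 ▸ hx)
    · exact hx

lemma mem_image_swap {E : Finset ℕ} {a b x : ℕ} :
    x ∈ E.image (Equiv.swap a b) ↔ Equiv.swap a b x ∈ E := by
  simp only [mem_image]
  constructor
  · rintro ⟨y, hy, rfl⟩
    simpa using hy
  · intro h
    exact ⟨_, h, by simp⟩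

variable {T : Type}

/-- A family of pairs is invariant under a permutation of the first part. -/
def Inv (A : Finset (Finset ℕ × T)) (s : Equiv.Perm ℕ) : Prop :=
  ∀ x ∈ A, (x.1.image s, x.2) ∈ A

lemma Inv.mul {A : Finset (Finset ℕ × T)} {s t : Equiv.Perm ℕ} (hs : Inv A s) (ht : Inv A t) :
    Inv A (s * t) := by
  intro x hx
  have := hs _ (ht x hx)
  simpa [image_image] using this

/-- The block property for transpositions of the ground set. -/
def SwBlk (S : Finset ℕ) (A : Finset (Finset ℕ × T)) : Prop :=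
  ∀ a ∈ S, ∀ b ∈ S, ∀ x ∈ A, (x.1.image (Equiv.swap a b), x.2) ∈ A → Inv A (Equiv.swap a b)

lemma SwBlk.fix {S : Finset ℕ} {A : Finset (Finset ℕ × T)} (h : SwBlk S A) {x : Finset ℕ × T}
    (hx : x ∈ A) {a b : ℕ} (ha : a ∈ S) (hb : b ∈ S) (hab : a ∈ x.1 ↔ b ∈ x.1) :
    Inv A (Equiv.swap a b) :=
  h a ha b hb x hx (by rw [image_swap_fix hab]; exact hx)

lemma SwBlk.all_of_one {S : Finset ℕ} {A : Finset (Finset ℕ × T)} (h : SwBlk S A)
    {x : Finset ℕ × T} (hx : x ∈ A) {a b : ℕ} (ha : a ∈ S) (hb : b ∈ S) (hax : a ∈ x.1)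
    (hbx : b ∉ x.1) (hi : Inv A (Equiv.swap a b)) :
    ∀ c ∈ S, ∀ d ∈ S, Inv A (Equiv.swap c d) := by
  have s1 : ∀ c ∈ S, c ∈ x.1 → Inv A (Equiv.swap c b) := by
    intro c hc hcx
    by_cases hca : c = a
    · rw [hca]; exact hi
    · have h1 : Inv A (Equiv.swap a c) := h.fix hx ha hc (by simp [hax, hcx])
      have h2 := (h1.mul hi).mul h1
      have hba : b ≠ a := fun e => hbx (e ▸ hax)
      have hbc : b ≠ c := fun e => hbx (e ▸ hcx)
      rw [Equiv.swap_comm a b, Equiv.swap_mul_swap_mul_swap hba hbc] at h2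
      exact h2
  have s2 : ∀ c ∈ S, c ∈ x.1 → ∀ d ∈ S, d ∉ x.1 → Inv A (Equiv.swap c d) := by
    intro c hc hcx d hd hdx
    by_cases hdb : d = b
    · rw [hdb]; exact s1 c hc hcx
    · have h1 : Inv A (Equiv.swap b d) := h.fix hx hb hd (by simp [hbx, hdx])
      have h2 := (h1.mul (s1 c hc hcx)).mul h1
      have hcb : c ≠ b := fun e => hbx (e ▸ hcx)
      have hcd : c ≠ d := fun e => hdx (e ▸ hcx)
      rw [Equiv.swap_mul_swap_mul_swap hcb hcd, Equiv.swap_comm] at h2
      exact h2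
  intro c hc d hd
  by_cases hcx : c ∈ x.1 <;> by_cases hdx : d ∈ x.1
  · exact h.fix hx hc hd (by simp [hcx, hdx])
  · exact s2 c hc hcx d hd hdx
  · rw [Equiv.swap_comm]; exact s2 d hd hdx c hc hcx
  · exact h.fix hx hc hd (by simp [hcx, hdx])

lemma full_of_inv {S : Finset ℕ} {r : ℕ} {A : Finset (Finset ℕ × T)}
    (hA : ∀ x ∈ A, x.1 ∈ S.powersetCard r) (h : ∀ c ∈ S, ∀ d ∈ S, Inv A (Equiv.swap c d)) :
    ∀ x ∈ A, ∀ E ∈ S.powersetCard r, (E, x.2) ∈ A := by
  intro x hx E hE
  induction' hn : (E \ x.1).card with n ih generalizing x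
  · have h1 : E ⊆ x.1 := sdiff_eq_empty_iff_subset.1 (card_eq_zero.1 hn)
    have h2 : E = x.1 := eq_of_subset_of_card_le h1 (by
      rw [(mem_powersetCard.1 (hA x hx)).2, (mem_powersetCard.1 hE).2])
    rw [h2]; exact hx
  · obtain ⟨b, hb⟩ : (E \ x.1).Nonempty := card_pos.1 (by omega)
    have hc : (x.1 \ E).card = (E \ x.1).card := card_sdiff_comm (by
      rw [(mem_powersetCard.1 (hA x hx)).2, (mem_powersetCard.1 hE).2])
    obtain ⟨a, ha⟩ : (x.1 \ E).Nonempty := card_pos.1 (by omega)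
    obtain ⟨hbE, hbx⟩ := mem_sdiff.1 hb
    obtain ⟨hax, haE⟩ := mem_sdiff.1 ha
    have haS : a ∈ S := (mem_powersetCard.1 (hA x hx)).1 hax
    have hbS : b ∈ S := (mem_powersetCard.1 hE).1 hbE
    have h1 := h a haS b hbS x hx
    refine ih (x.1.image (Equiv.swap a b), x.2) h1 ?_
    have : E \ x.1.image (Equiv.swap a b) = (E \ x.1).erase b := by
      ext y
      simp only [mem_sdiff, mem_image_swap, mem_erase]
      rw [Equiv.swap_apply_def]
      split_ifs with h2 h3
      · subst h2; simp [haE]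
      · subst h3; simp [hax]
      · simp [h3]
    simp only
    rw [this, card_erase_of_mem hb, hn]
    rfl

/-- A block with two members which are not complementary contains whole rows. -/
theorem SwBlk.full {S : Finset ℕ} {r : ℕ} {A : Finset (Finset ℕ × T)} (h : SwBlk S A)
    (hA : ∀ x ∈ A, x.1 ∈ S.powersetCard r) {x y : Finset ℕ × T} (hx : x ∈ A) (hy : y ∈ A)
    (hne : x.1 ≠ y.1) (hc : y.1 ≠ S \ x.1) :
    ∀ u ∈ A, ∀ E ∈ S.powersetCard r, (E, u.2) ∈ A := by
  apply full_of_inv hA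
  obtain ⟨hxS, hxc⟩ := mem_powersetCard.1 (hA x hx)
  obtain ⟨hyS, hyc⟩ := mem_powersetCard.1 (hA y hy)
  by_cases hd : Disjoint x.1 y.1
  · have h1 : y.1 ⊆ S \ x.1 := fun z hz =>
      mem_sdiff.2 ⟨hyS hz, fun hh => disjoint_left.1 hd hh hz⟩
    obtain ⟨z, hz, hzy⟩ := exists_of_ssubset (Finset.ssubset_iff_subset_ne.2 ⟨h1, hc⟩)
    obtain ⟨hzS, hzx⟩ := mem_sdiff.1 hz
    have h2 : ¬ y.1 ⊆ x.1 := fun hh => hne (eq_of_subset_of_card_le hh (by omega)).symm
    obtain ⟨j, hjy, hjx⟩ := not_subset.1 h2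
    exact h.all_of_one hy (hyS hjy) hzS hjy hzy
      (h.fix hx (hyS hjy) hzS (by simp [hjx, hzx]))
  · obtain ⟨z, hzx, hzy⟩ := not_disjoint_iff.1 hd
    have h2 : ¬ x.1 ⊆ y.1 := fun hh => hne (eq_of_subset_of_card_le hh (by omega))
    obtain ⟨i, hix, hiy⟩ := not_subset.1 h2
    exact h.all_of_one hy (hxS hzx) (hxS hix) hzy hiy
      (h.fix hx (hxS hzx) (hxS hix) (by simp [hzx, hix]))

lemma swap_mem_pc {S : Finset ℕ} {r a b : ℕ} (ha : a ∈ S) (hb : b ∈ S) {E : Finset ℕ}
    (hE : E ∈ S.powersetCard r) : E.image (Equiv.swap a b) ∈ S.powersetCard r := by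
  obtain ⟨h1, h2⟩ := mem_powersetCard.1 hE
  refine mem_powersetCard.2 ⟨?_, ?_⟩
  · rw [← image_swap_fix (E := S) (a := a) (b := b) (by simp [ha, hb])]
    exact image_subset_image h1
  · rw [card_image_of_injective _ (Equiv.swap a b).injective, h2]

lemma disj_of_swap {a b : ℕ} {E E' : Finset ℕ}
    (h : Disjoint (E.image (Equiv.swap a b)) (E'.image (Equiv.swap a b))) : Disjoint E E' :=
  (disjoint_image (Equiv.swap a b).injective).1 h

end Blocks

end Pool.Agent.P.MP_4c0b8d_co
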