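import Pool.Agent.P.MP_4c0b8d_co.Prod

namespace Pool.Agent.P.MP_4c0b8d_co

open Finset

namespace CaseA

open Prd

lemma card_fib (F : Finset (Finset ℕ × Finset ℕ)) (L : Finset ℕ) :
    ((F.filter (fun x => x.2 = L)).image Prod.fst).card = (F.filter (fun x => x.2 = L)).card := by
  refine card_image_of_injOn fun x hx y hy e => ?_
  exact Prod.ext e (((mem_filter.1 hx).2).trans ((mem_filter.1 hy).2).symm)

lemma fib_sub {S1 S2 : Finset ℕ} {k l : ℕ} {F : Finset (Finset ℕ × Finset ℕ)}
    (hF : F ⊆ Om S1 k S2 l) (L : Finset ℕ) :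
    (F.filter (fun x => x.2 = L)).image Prod.fst ⊆ S1.powersetCard k := by
  intro K hK
  obtain ⟨x, hx, rfl⟩ := mem_image.1 hK
  exact (mem_om.1 (hF (mem_filter.1 hx).1)).1

end CaseA

open Prd CaseA in
theorem caseA (h : CORE) : CASEA := by
  intro S1 S2 k l hk hl h1 h2 F hF hI ⟨x, hx, y, hy, hxy⟩ hP
  set N := S1.card.choose k with hN
  set d := (S1.card - k).choose k with hd
  let I := (F.image Prod.snd).filter (fun L => N < (F.filter (fun x => x.2 = L)).card + d)
  have key : ∀ L ∈ I, ∀ z ∈ F, ¬ Disjoint L z.2 := by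
    intro L hL z hz hdis
    have h3 := (mem_filter.1 hL).2
    have h4 : ¬ Disjoint ((F.filter (fun x => x.2 = L)).image Prod.fst)
        ((S1 \ z.1).powersetCard k) := by
      intro hh
      have := card_le_card (union_subset (fib_sub hF L) (nb_sub S1 z.1 k))
      rw [card_union_of_disjoint hh, card_fib, card_nb k (mem_om.1 (hF hz)).1,
        card_powersetCard] at this
      omega
    obtain ⟨K, hK, hK'⟩ := not_disjoint_iff.1 h4
    obtain ⟨w, hw, rfl⟩ := mem_image.1 hK
    obtain ⟨hw1, hw2⟩ := mem_filter.1 hw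
    exact hI w hw1 z hz ⟨nb_disj hK', hw2 ▸ hdis⟩
  have hIs : I ⊆ S2.powersetCard l := by
    intro L hL
    obtain ⟨w, hw, rfl⟩ := mem_image.1 (mem_filter.1 hL).1
    exact (mem_om.1 (hF hw)).2
  have hc := h S2 l hl h2 I x.2 y.2 hIs (mem_om.1 (hF hx)).2 (mem_om.1 (hF hy)).2 hxy
    (by
      intro a ha b hb
      obtain ⟨w, hw, rfl⟩ := mem_image.1 (mem_filter.1 hb).1
      exact key a ha w hw)
    (by
      intro a ha b hb
      rcases mem_insert.1 hb with rfl | hb
      · exact key a ha x hx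
      · rw [mem_singleton.1 hb]; exact key a ha y hy)
  have hsum : (F.card : ℤ) ≤ ((N : ℤ) - d) * (F.image Prod.snd).card + d * I.card := by
    rw [card_eq_sum_card_image Prod.snd F]
    push_cast
    have : ∀ L ∈ F.image Prod.snd, ((F.filter (fun x => x.2 = L)).card : ℤ) ≤ ((N : ℤ) - d) +
        (if N < (F.filter (fun x => x.2 = L)).card + d then (d : ℤ) else 0) := by
      intro L _
      have := card_le_card (fib_sub hF L)
      rw [card_fib, card_powersetCard] at this
      split_ifs <;> omega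
    refine (sum_le_sum this).trans (le_of_eq ?_)
    rw [sum_add_distrib, sum_const, ← sum_filter, sum_const]
    simp only [nsmul_eq_mul]
    ring
  have hdN : d ≤ N := Nat.choose_le_choose k (by omega)
  have he : (0 : ℤ) ≤ (if l = 1 then (S2.card : ℤ) - 1 else 1) := by
    split_ifs <;> omega
  unfold bigM
  rw [← hN, ← hd]
  zify at hc hP hdN
  have a1 := mul_le_mul_of_nonneg_left hP (sub_nonneg.2 hdN)
  have a2 := mul_le_mul_of_nonneg_left hc (by positivity : (0 : ℤ) ≤ d)
  linarith

end Pool.Agent.P.MP_4c0b8d_co
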