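import Pool.Agent.P.MP_4c0b8d_co.Iface

namespace Pool.Agent.P.MP_4c0b8d_co

open Finset

namespace CaseB

/-- The fibre of a family of pairs over a first coordinate. -/
def fib (F : Finset (Finset ℕ × Finset ℕ)) (K : Finset ℕ) : Finset (Finset ℕ) :=
  (F.filter (fun x => x.1 = K)).image Prod.snd

lemma mem_fib {F : Finset (Finset ℕ × Finset ℕ)} {K M : Finset ℕ} :
    M ∈ fib F K ↔ (K, M) ∈ F := by
  unfold fib
  simp only [mem_image, mem_filter]
  constructor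
  · rintro ⟨⟨a, b⟩, ⟨h1, h2⟩, h3⟩
    simp only at h2 h3
    subst h2; subst h3; exact h1
  · intro h
    exact ⟨(K, M), ⟨h, rfl⟩, rfl⟩

lemma card_fib (F : Finset (Finset ℕ × Finset ℕ)) (K : Finset ℕ) :
    (fib F K).card = (F.filter (fun x => x.1 = K)).card := by
  unfold fib
  apply card_image_of_injOn
  rintro ⟨a, b⟩ hx ⟨c, d⟩ hy h
  simp only [coe_filter, Set.mem_ofPred_eq] at hx hy h
  rw [hx.2, hy.2, h]

lemma mem_Om {S1 S2 : Finset ℕ} {k l : ℕ} {x : Finset ℕ × Finset ℕ} :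
    x ∈ Om S1 k S2 l ↔ x.1 ∈ S1.powersetCard k ∧ x.2 ∈ S2.powersetCard l := by
  unfold Om
  exact mem_product

lemma fib_sub {S1 S2 : Finset ℕ} {k l : ℕ} {F : Finset (Finset ℕ × Finset ℕ)}
    (hF : F ⊆ Om S1 k S2 l) (K : Finset ℕ) : fib F K ⊆ S2.powersetCard l :=
  fun _ hM => (mem_Om.1 (hF (mem_fib.1 hM))).2

lemma fib_le {S1 S2 : Finset ℕ} {k l : ℕ} {F : Finset (Finset ℕ × Finset ℕ)}
    (hF : F ⊆ Om S1 k S2 l) (K : Finset ℕ) : (fib F K).card ≤ S2.card.choose l := by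
  have := card_le_card (fib_sub hF K)
  rwa [card_powersetCard] at this

lemma card_eq_sum {S1 S2 : Finset ℕ} {k l : ℕ} {F : Finset (Finset ℕ × Finset ℕ)}
    (hF : F ⊆ Om S1 k S2 l) : F.card = ∑ K ∈ S1.powersetCard k, (fib F K).card := by
  rw [card_eq_sum_card_fiberwise (f := Prod.fst) (t := S1.powersetCard k)
    (fun x hx => (mem_Om.1 (hF hx)).1)]
  exact sum_congr rfl (fun K _ => (card_fib F K).symm)

/-- The data given by the compression lemma. -/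
structure Chain (S : Finset ℕ) (r : ℕ) (x : ℕ) (L : ℕ → Finset (Finset ℕ)) : Prop where
  sub : ∀ a, L a ⊆ S.powersetCard r
  card : ∀ a, a ≤ S.card.choose r → (L a).card = a
  mono : Monotone L
  star : L ((S.card - 1).choose (r - 1)) = (S.powersetCard r).filter (fun E => x ∈ E)
  cross : ∀ A B : Finset (Finset ℕ), A ⊆ S.powersetCard r → B ⊆ S.powersetCard r → Cross A B →
    Cross (L A.card) (L B.card)

/-- Compression of every fibre. -/
def comp (S1 : Finset ℕ) (k : ℕ) (S2 : Finset ℕ) (l : ℕ) (L : ℕ → Finset (Finset ℕ))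
    (F : Finset (Finset ℕ × Finset ℕ)) : Finset (Finset ℕ × Finset ℕ) :=
  (Om S1 k S2 l).filter (fun y => y.2 ∈ L (fib F y.1).card)

section Comp

variable {S1 S2 : Finset ℕ} {k l x : ℕ} {L : ℕ → Finset (Finset ℕ)}
  {F : Finset (Finset ℕ × Finset ℕ)}

lemma comp_sub : comp S1 k S2 l L F ⊆ Om S1 k S2 l := filter_subset _ _

lemma mem_comp (hL : Chain S2 l x L) {K M : Finset ℕ} :
    (K, M) ∈ comp S1 k S2 l L F ↔ K ∈ S1.powersetCard k ∧ M ∈ L (fib F K).card := by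
  unfold comp
  rw [mem_filter, mem_Om]
  exact ⟨fun h => ⟨h.1.1, h.2⟩, fun h => ⟨⟨h.1, hL.sub _ h.2⟩, h.2⟩⟩

lemma card_comp (hL : Chain S2 l x L) (hF : F ⊆ Om S1 k S2 l) :
    (comp S1 k S2 l L F).card = F.card := by
  rw [card_eq_sum hF, card_eq_sum (comp_sub (L := L) (F := F))]
  refine sum_congr rfl (fun K hK => ?_)
  have : fib (comp S1 k S2 l L F) K = L (fib F K).card := by
    ext M
    rw [mem_fib, mem_comp hL]
    exact ⟨fun h => h.2, fun h => ⟨hK, h⟩⟩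
  rw [this, hL.card _ (fib_le hF K)]

lemma int_comp (hL : Chain S2 l x L) (hF : F ⊆ Om S1 k S2 l) (hI : Int2 F) :
    Int2 (comp S1 k S2 l L F) := by
  rintro ⟨K, M⟩ hx ⟨K', M'⟩ hy ⟨h1, h2⟩
  have hc : Cross (fib F K) (fib F K') := fun a ha b hb hd =>
    hI _ (mem_fib.1 ha) _ (mem_fib.1 hb) ⟨h1, hd⟩
  exact hL.cross _ _ (fib_sub hF K) (fib_sub hF K') hc M ((mem_comp hL).1 hx).2 M'
    ((mem_comp hL).1 hy).2 h2

lemma proj_comp (hL : Chain S2 l x L) (hF : F ⊆ Om S1 k S2 l) {K M : Finset ℕ}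
    (h : (K, M) ∈ F) : ∃ M', (K, M') ∈ comp S1 k S2 l L F := by
  have h1 : 0 < (fib F K).card := card_pos.2 ⟨M, mem_fib.2 h⟩
  have h2 : 0 < (L (fib F K).card).card := by rw [hL.card _ (fib_le hF K)]; exact h1
  obtain ⟨M', hM'⟩ := card_pos.1 h2
  exact ⟨M', (mem_comp hL).2 ⟨(mem_Om.1 (hF h)).1, hM'⟩⟩

lemma big_comp (hL : Chain S2 l x L) (hF : F ⊆ Om S1 k S2 l) {K : Finset ℕ}
    (h : (S2.card - 1).choose (l - 1) < (fib F K).card) :
    ∃ M, (K, M) ∈ comp S1 k S2 l L F ∧ x ∉ M := by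
  obtain ⟨M0, hM0⟩ : (fib F K).Nonempty := card_pos.1 (by omega)
  have hK : K ∈ S1.powersetCard k := (mem_Om.1 (hF (mem_fib.1 hM0))).1
  have hle := fib_le hF K
  have h1 : (L ((S2.card - 1).choose (l - 1))).card < (L (fib F K).card).card := by
    rw [hL.card _ hle, hL.card _ (by omega)]; exact h
  obtain ⟨M, hM, hM'⟩ := exists_mem_notMem_of_card_lt_card h1
  refine ⟨M, (mem_comp hL).2 ⟨hK, hM⟩, fun hx => hM' ?_⟩
  rw [hL.star]
  exact mem_filter.2 ⟨hL.sub _ hM, hx⟩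

lemma lt_of_notMem (hL : Chain S2 l x L) {a : ℕ} {M : Finset ℕ} (hM : M ∈ L a) (hx : x ∉ M) :
    (S2.card - 1).choose (l - 1) < a := by
  by_contra hle
  have h1 := hL.mono (not_lt.1 hle) hM
  rw [hL.star] at h1
  exact hx (mem_filter.1 h1).2

end Comp

lemma mem_swap {F : Finset (Finset ℕ × Finset ℕ)} {K M : Finset ℕ} :
    (M, K) ∈ F.image Prod.swap ↔ (K, M) ∈ F := by
  simp only [mem_image]
  constructor
  · rintro ⟨⟨a, b⟩, h1, h2⟩
    simp only [Prod.swap_prod_mk, Prod.mk.injEq] at h2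
    rw [← h2.1, ← h2.2]; exact h1
  · intro h
    exact ⟨(K, M), h, rfl⟩

lemma arith (m1 p m2 q : ℕ) :
    ((m1.choose p * m2.choose q : ℕ) : ℤ) + bigW m1 p m2 q
      = bigM (m2 + 1) (q + 1) (m1 + 1) (p + 1) := by
  unfold bigW bigM
  have e1 : m2 + 1 - (q + 1) = m2 - q := by omega
  have e2 : m1 + 1 - (p + 1) - 1 = m1 - p - 1 := by omega
  rw [e1, e2, Nat.choose_succ_succ]
  simp only [Nat.add_sub_cancel, Nat.succ_eq_add_one]
  by_cases hp : p = 0
  · subst hp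
    simp only [if_true]
    push_cast
    ring
  · have hp' : ¬ (p + 1 = 1) := by omega
    rw [if_neg hp, if_neg hp']
    push_cast
    ring

lemma final (h3 : PROD) {S1 S2 : Finset ℕ} {p q x1 x2 : ℕ} (hx1 : x1 ∈ S1) (hx2 : x2 ∈ S2)
    (hk : 2 * (p + 1) ≤ S1.card) (hl : 2 * (q + 1) ≤ S2.card)
    {H : Finset (Finset ℕ × Finset ℕ)} (hH : H ⊆ Om S2 (q + 1) S1 (p + 1)) (hI : Int2 H)
    (ha : ∃ y ∈ H, x2 ∉ y.1) (hb : ∃ y ∈ H, x1 ∉ y.2)
    (hc : ∀ y ∈ H, x2 ∉ y.1 → x1 ∉ y.2 → False)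
    (hs1 : ((S1.powersetCard (p + 1)).filter (fun E => x1 ∈ E)).card = (S1.card - 1).choose p)
    (hs2 : ((S2.powersetCard (q + 1)).filter (fun E => x2 ∈ E)).card = (S2.card - 1).choose q) :
    (H.card : ℤ) ≤
      max (bigM S2.card (q + 1) S1.card (p + 1)) (bigM S1.card (p + 1) S2.card (q + 1)) := by
  set HU := H.filter (fun y => x2 ∉ y.1) with hHU
  set HR := H.filter (fun y => x1 ∉ y.2) with hHR
  set H0 := ((S2.powersetCard (q + 1)).filter (fun E => x2 ∈ E)) ×ˢ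
    ((S1.powersetCard (p + 1)).filter (fun E => x1 ∈ E)) with hH0
  have hcov : H ⊆ H0 ∪ (HU ∪ HR) := by
    intro y hy
    by_cases h1 : x2 ∈ y.1
    · by_cases h2 : x1 ∈ y.2
      · exact mem_union_left _ (mem_product.2 ⟨mem_filter.2 ⟨(mem_Om.1 (hH hy)).1, h1⟩,
          mem_filter.2 ⟨(mem_Om.1 (hH hy)).2, h2⟩⟩)
      · exact mem_union_right _ (mem_union_right _ (mem_filter.2 ⟨hy, h2⟩))
    · exact mem_union_right _ (mem_union_left _ (mem_filter.2 ⟨hy, h1⟩))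
  have hcard : H.card ≤ (S1.card - 1).choose p * (S2.card - 1).choose q + HU.card + HR.card := by
    have a1 := card_le_card hcov
    have a2 := card_union_le H0 (HU ∪ HR)
    have a3 := card_union_le HU HR
    have a4 : H0.card = (S1.card - 1).choose p * (S2.card - 1).choose q := by
      rw [hH0, card_product, hs1, hs2, mul_comm]
    omega
  have hU1 : ∀ y ∈ HU, x1 ∈ y.2 := fun y hy => by
    by_contra h
    exact hc y (mem_filter.1 hy).1 (mem_filter.1 hy).2 h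
  have hR1 : ∀ y ∈ HR, x2 ∈ y.1 := fun y hy => by
    by_contra h
    exact hc y (mem_filter.1 hy).1 h (mem_filter.1 hy).2
  set U := HU.image (fun y => (y.2.erase x1, y.1)) with hU
  set R := HR.image (fun y => (y.2, y.1.erase x2)) with hR
  have cU : U.card = HU.card := by
    apply card_image_of_injOn
    intro y hy z hz h
    simp only [Prod.mk.injEq] at h
    have h2 : y.2 = z.2 := by
      rw [← insert_erase (hU1 y hy), ← insert_erase (hU1 z hz), h.1]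
    exact Prod.ext h.2 h2
  have cR : R.card = HR.card := by
    apply card_image_of_injOn
    intro y hy z hz h
    simp only [Prod.mk.injEq] at h
    have h2 : y.1 = z.1 := by
      rw [← insert_erase (hR1 y hy), ← insert_erase (hR1 z hz), h.2]
    exact Prod.ext h2 h.1
  have c1 : (S1.erase x1).card = S1.card - 1 := card_erase_of_mem hx1
  have c2 : (S2.erase x2).card = S2.card - 1 := card_erase_of_mem hx2
  have sU : U ⊆ Om (S1.erase x1) p (S2.erase x2) (q + 1) := by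
    intro u hu
    obtain ⟨y, hy, rfl⟩ := mem_image.1 hu
    obtain ⟨hyH, hy2⟩ := mem_filter.1 hy
    obtain ⟨b1, b2⟩ := mem_Om.1 (hH hyH)
    obtain ⟨b11, b12⟩ := mem_powersetCard.1 b1
    obtain ⟨b21, b22⟩ := mem_powersetCard.1 b2
    refine mem_Om.2 ⟨mem_powersetCard.2 ⟨erase_subset_erase _ b21, ?_⟩,
      mem_powersetCard.2 ⟨subset_erase.2 ⟨b11, hy2⟩, b12⟩⟩
    simp only
    rw [card_erase_of_mem (hU1 y hy), b22]
    rfl
  have sR : R ⊆ Om (S1.erase x1) (p + 1) (S2.erase x2) q := by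
    intro u hu
    obtain ⟨y, hy, rfl⟩ := mem_image.1 hu
    obtain ⟨hyH, hy2⟩ := mem_filter.1 hy
    obtain ⟨b1, b2⟩ := mem_Om.1 (hH hyH)
    obtain ⟨b11, b12⟩ := mem_powersetCard.1 b1
    obtain ⟨b21, b22⟩ := mem_powersetCard.1 b2
    refine mem_Om.2 ⟨mem_powersetCard.2 ⟨subset_erase.2 ⟨b21, hy2⟩, b22⟩,
      mem_powersetCard.2 ⟨erase_subset_erase _ b11, ?_⟩⟩
    simp only
    rw [card_erase_of_mem (hR1 y hy), b12]
    rfl
  have nU : U.Nonempty := by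
    obtain ⟨y, hy, hy'⟩ := ha
    exact ⟨_, mem_image_of_mem _ (mem_filter.2 ⟨hy, hy'⟩)⟩
  have nR : R.Nonempty := by
    obtain ⟨y, hy, hy'⟩ := hb
    exact ⟨_, mem_image_of_mem _ (mem_filter.2 ⟨hy, hy'⟩)⟩
  have hcr : ∀ u ∈ U, ∀ v ∈ R, ¬ (Disjoint u.1 v.1 ∧ Disjoint u.2 v.2) := by
    intro u hu v hv ⟨d1, d2⟩
    obtain ⟨y, hy, rfl⟩ := mem_image.1 hu
    obtain ⟨z, hz, rfl⟩ := mem_image.1 hv
    obtain ⟨hyH, hy2⟩ := mem_filter.1 hy
    obtain ⟨hzH, hz2⟩ := mem_filter.1 hz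
    simp only at d1 d2
    refine hI y hyH z hzH ⟨disjoint_left.2 (fun a ha1 ha2 => ?_),
      disjoint_left.2 (fun a ha1 ha2 => ?_)⟩
    · exact disjoint_left.1 d2 ha1 (mem_erase.2 ⟨fun e => hy2 (e ▸ ha1), ha2⟩)
    · exact disjoint_left.1 d1 (mem_erase.2 ⟨fun e => hz2 (e ▸ ha2), ha1⟩) ha2
  have key := h3 (S1.erase x1) (S2.erase x2) p q (by omega) (by omega) U R sU sR nU nR hcr
  rw [c1, c2, cU, cR] at key
  have e1 := arith (S1.card - 1) p (S2.card - 1) q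
  have e2 := arith (S2.card - 1) q (S1.card - 1) p
  have n1 : S1.card - 1 + 1 = S1.card := by omega
  have n2 : S2.card - 1 + 1 = S2.card := by omega
  rw [n1, n2] at e1 e2
  rw [mul_comm] at e2
  have hcard' : (H.card : ℤ) ≤
      (((S1.card - 1).choose p * (S2.card - 1).choose q : ℕ) : ℤ) + (HU.card + HR.card) := by
    exact_mod_cast (by omega : H.card ≤ _ + (HU.card + HR.card))
  rcases le_max_iff.1 key with h | h
  · exact le_max_of_le_left (by linarith)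
  · exact le_max_of_le_right (by linarith)

lemma star_card {S : Finset ℕ} {r x : ℕ} {L : ℕ → Finset (Finset ℕ)} (hL : Chain S (r + 1) x L)
    (h : 2 * (r + 1) ≤ S.card) :
    ((S.powersetCard (r + 1)).filter (fun E => x ∈ E)).card = (S.card - 1).choose r := by
  have h1 := hL.star
  simp only [Nat.add_sub_cancel] at h1
  rw [← h1]
  apply hL.card
  obtain ⟨m, hm⟩ : ∃ m, S.card = m + 1 := ⟨S.card - 1, by omega⟩
  rw [hm, Nat.add_sub_cancel, Nat.choose_succ_succ]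
  omega

end CaseB

open CaseB in
theorem caseB (h1 : EKR) (h2 : HILTON) (h3 : PROD) : CASEB := by
  intro S1 S2 k l hk hl hk2 hl2 F hF hI hproj ⟨K0, hK0⟩
  obtain ⟨x1, hx1, L1, a1, a2, a3, a4, a5⟩ := h2 S1 k hk hk2
  obtain ⟨x2, hx2, L2, b1, b2, b3, b4, b5⟩ := h2 S2 l hl hl2
  have hL1 : Chain S1 k x1 L1 := ⟨a1, a2, a3, a4, a5⟩
  have hL2 : Chain S2 l x2 L2 := ⟨b1, b2, b3, b4, b5⟩
  set F' := comp S1 k S2 l L2 F with hF'
  have iF' : Int2 F' := int_comp hL2 hF hI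
  set G := F'.image Prod.swap with hG
  have sG : G ⊆ Om S2 l S1 k := by
    rintro ⟨M, K⟩ h
    have := mem_Om.1 (comp_sub (mem_swap.1 h))
    exact mem_Om.2 ⟨this.2, this.1⟩
  have iG : Int2 G := by
    rintro ⟨M, K⟩ h ⟨M', K'⟩ h' ⟨d1, d2⟩
    exact iF' _ (mem_swap.1 h) _ (mem_swap.1 h') ⟨d2, d1⟩
  have cG : G.card = F.card := by
    rw [hG, card_image_of_injective _ Prod.swap_injective, hF', card_comp hL2 hF]
  set H := comp S2 l S1 k L1 G with hH
  have cH : H.card = F.card := by rw [hH, card_comp hL1 sG, cG]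
  have iH : Int2 H := int_comp hL1 sG iG
  have ha : ∃ y ∈ H, x2 ∉ y.1 := by
    rw [← card_fib] at hK0
    obtain ⟨M, hM, hxM⟩ := big_comp hL2 hF hK0
    obtain ⟨K, hK⟩ := proj_comp hL1 sG (mem_swap.2 hM)
    exact ⟨(M, K), hK, hxM⟩
  have hb : ∃ y ∈ H, x1 ∉ y.2 := by
    have hone : (L2 1).card = 1 := b2 1 (Nat.choose_pos (by omega))
    obtain ⟨M, hM⟩ : (L2 1).Nonempty := card_pos.1 (by omega)
    have hsub : F.image Prod.fst ⊆ fib G M := by
      intro K hK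
      obtain ⟨⟨K', M'⟩, hy, rfl⟩ := mem_image.1 hK
      have hpos : 1 ≤ (fib F K').card := card_pos.2 ⟨M', mem_fib.2 hy⟩
      exact mem_fib.2 (mem_swap.2 ((mem_comp hL2).2 ⟨(mem_Om.1 (hF hy)).1, b3 hpos hM⟩))
    have hlt := lt_of_lt_of_le hproj (card_le_card hsub)
    obtain ⟨K, hK, hxK⟩ := big_comp hL1 sG hlt
    exact ⟨(M, K), hK, hxK⟩
  have hc : ∀ y ∈ H, x2 ∉ y.1 → x1 ∉ y.2 → False := by
    rintro ⟨M, K⟩ hy hM hK
    simp only at hM hK
    obtain ⟨hMS, hKL⟩ := (mem_comp hL1).1 hy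
    have hlt := lt_of_notMem hL1 hKL hK
    have hnc : ¬ Cross (fib G M) (fib G M) := fun hcr =>
      absurd (h1 S1 k hk hk2 _ (fib_sub sG M) hcr) (not_le.2 hlt)
    unfold Cross at hnc
    push Not at hnc
    obtain ⟨K1, hK1, K2, hK2, hd⟩ := hnc
    have m1 : (K1, M) ∈ F' := mem_swap.1 (mem_fib.1 hK1)
    have m2 : (K2, M) ∈ F' := mem_swap.1 (mem_fib.1 hK2)
    obtain ⟨hK2S, hML⟩ := (mem_comp hL2).1 m2
    have hlt2 := lt_of_notMem hL2 hML hM
    obtain ⟨hMsub, hMc⟩ := mem_powersetCard.1 hMS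
    obtain ⟨M', s1, s2, s3⟩ := exists_subsuperset_card_eq (s := {x2}) (t := S2 \ M) (n := l)
      (singleton_subset_iff.2 (mem_sdiff.2 ⟨hx2, hM⟩)) (by simpa using hl)
      (by rw [card_sdiff_of_subset hMsub]; omega)
    have hM'star : M' ∈ L2 ((S2.card - 1).choose (l - 1)) := by
      rw [b4]
      exact mem_filter.2 ⟨mem_powersetCard.2 ⟨s2.trans sdiff_subset, s3⟩,
        s1 (mem_singleton_self _)⟩
    have m3 : (K2, M') ∈ F' := (mem_comp hL2).2 ⟨hK2S, b3 hlt2.le hM'star⟩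
    exact iF' _ m1 _ m3 ⟨hd, disjoint_left.2 (fun a ha1 ha2 => (mem_sdiff.1 (s2 ha2)).2 ha1)⟩
  obtain ⟨p, rfl⟩ : ∃ p, k = p + 1 := ⟨k - 1, by omega⟩
  obtain ⟨q, rfl⟩ : ∃ q, l = q + 1 := ⟨l - 1, by omega⟩
  rw [← cH]
  exact final h3 hx1 hx2 hk2 hl2 comp_sub iH ha hb hc (star_card hL1 hk2) (star_card hL2 hl2)

end Pool.Agent.P.MP_4c0b8d_co
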