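import Pool.Agent.P.MP_4c0b8d_co.Arith

namespace Pool.Agent.P.MP_4c0b8d_co

/-- The number `A` of the problem; `B` is `katA n2 l n1 k`. -/
def katA (n1 k n2 l : ℕ) : ℤ :=
  (((n2 - 1).choose (l - 1) : ℤ) - ((n2 - l - 1).choose (l - 1) : ℤ)) * (n1.choose k : ℤ) + 1
    + (n1.choose k : ℤ) - ((n1 - k).choose k : ℤ)

namespace Cor

lemma split {n k : ℕ} (hk : 1 ≤ k) (h : 2 * k ≤ n) :
    n.choose k = (n - 1).choose (k - 1) + (n - 1).choose k := by
  obtain ⟨k, rfl⟩ : ∃ k', k = k' + 1 := ⟨k - 1, by omega⟩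
  obtain ⟨n, rfl⟩ : ∃ n', n = n' + 1 := ⟨n - 1, by omega⟩
  simp [Nat.choose_succ_succ']

lemma d_lt {n k : ℕ} (hk : 1 ≤ k) (h : 2 * k ≤ n) : (n - k).choose k < n.choose k := by
  have h1 := split hk h
  have h2 : (n - k).choose k ≤ (n - 1).choose k := Nat.choose_le_choose k (by omega)
  have h3 : 0 < (n - 1).choose (k - 1) := Nat.choose_pos (by omega)
  omega

lemma two_star {n k : ℕ} (hk : 1 ≤ k) (h : 2 * k ≤ n) :
    2 * (n - 1).choose (k - 1) + (n - k).choose k ≤ n.choose k + 1 := by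
  have h1 := split hk h
  have h2 := Arith.t_sub_d (k - 1) (k - 1) (n - 1) le_rfl (by omega)
  rw [show n - 1 - (k - 1) = n - k by omega, show k - 1 + 1 = k by omega] at h2
  omega

lemma lt_of {n1 k n2 l : ℕ} (hk : 1 ≤ k) (hl : 1 ≤ l) (h1 : 2 * k ≤ n1) (h2 : 2 * l < n2) :
    katA n1 k n2 l < bigM n1 k n2 l := by
  have hd : ((n1 - k).choose k : ℤ) < n1.choose k := by exact_mod_cast d_lt hk h1
  unfold katA bigM
  split_ifs with h
  · subst h
    simp only [Nat.sub_self, Nat.choose_zero_right, Nat.cast_one]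
    have : (2 : ℤ) < n2 := by exact_mod_cast h2
    linarith
  · have hc : 2 ≤ (n2 - l - 1).choose (l - 1) := by
      have e1 : l.choose (l - 1) = l := by
        obtain ⟨l, rfl⟩ : ∃ l', l = l' + 1 := ⟨l - 1, by omega⟩
        simp
      have e2 : l.choose (l - 1) ≤ (n2 - l - 1).choose (l - 1) :=
        Nat.choose_le_choose _ (by omega)
      omega
    have hc' : (2 : ℤ) ≤ (n2 - l - 1).choose (l - 1) := by exact_mod_cast hc
    nlinarith

lemma half {k l n1 : ℕ} (hk : 1 ≤ k) (hl : 1 ≤ l) (hkl : 3 ≤ k + l) (h1 : 2 * k ≤ n1) :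
    bigM n1 k (2 * l) l = katA n1 k (2 * l) l ∧ bigM (2 * l) l n1 k ≤ katA n1 k (2 * l) l := by
  have e1 : (2 * l - l - 1).choose (l - 1) = 1 := by
    rw [show 2 * l - l - 1 = l - 1 by omega, Nat.choose_self]
  have e2 : (2 * l - l).choose l = 1 := by rw [show 2 * l - l = l by omega, Nat.choose_self]
  have e3 : (2 * l).choose l = 2 * (2 * l - 1).choose (l - 1) := by
    have := split hl (le_refl (2 * l))
    have e : (2 * l - 1).choose l = (2 * l - 1).choose (l - 1) :=
      Nat.choose_symm_of_eq_add (by omega)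
    omega
  have hs : 1 ≤ (2 * l - 1).choose (l - 1) := Nat.choose_pos (by omega)
  have hs' : (1 : ℤ) ≤ (2 * l - 1).choose (l - 1) := by exact_mod_cast hs
  unfold katA bigM
  rw [e1, e2, e3]
  constructor
  · split_ifs with h
    · subst h; push_cast; ring
    · push_cast; ring
  · split_ifs with h
    · subst h
      have hs2 : 2 ≤ (2 * l - 1).choose (l - 1) := by
        have f1 : l.choose (l - 1) = l := by
          obtain ⟨l, rfl⟩ : ∃ l', l = l' + 1 := ⟨l - 1, by omega⟩
          simp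
        have f2 : l.choose (l - 1) ≤ (2 * l - 1).choose (l - 1) :=
          Nat.choose_le_choose _ (by omega)
        omega
      have hs2' : (2 : ℤ) ≤ (2 * l - 1).choose (l - 1) := by exact_mod_cast hs2
      have hn : (2 : ℤ) ≤ n1 := by exact_mod_cast h1
      simp only [Nat.sub_self, Nat.choose_zero_right, Nat.choose_one_right, Nat.cast_one]
      rw [Nat.cast_sub (by omega)]
      push_cast
      nlinarith
    · have t := two_star hk h1
      have hc : 1 ≤ (n1 - k - 1).choose (k - 1) := Nat.choose_pos (by omega)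
      have hd : 1 ≤ (n1 - k).choose k := Nat.choose_pos (by omega)
      zify at t hc hd
      push_cast
      nlinarith

end Cor

/-- The bound of the problem holds for the maximum exactly when one part is as small as possible. -/
theorem cor {n1 k n2 l : ℕ} (hk : 1 ≤ k) (hl : 1 ≤ l) (hkl : 3 ≤ k + l) (h1 : 2 * k ≤ n1)
    (h2 : 2 * l ≤ n2) :
    max (bigM n2 l n1 k) (bigM n1 k n2 l) ≤ max (katA n1 k n2 l) (katA n2 l n1 k) ↔
      (n1 = 2 * k ∨ n2 = 2 * l) := by
  constructor
  · intro h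
    by_contra hc
    push Not at hc
    have a := Cor.lt_of hk hl h1 (lt_of_le_of_ne h2 hc.2.symm)
    have b := Cor.lt_of hl hk h2 (lt_of_le_of_ne h1 hc.1.symm)
    have := max_lt_max b a
    rw [max_comm (katA n2 l n1 k)] at this
    exact absurd h (not_le.2 this)
  · rintro (rfl | rfl)
    · obtain ⟨a, b⟩ := Cor.half hl hk (by omega) h2
      exact max_le (le_max_of_le_right a.le) (le_max_of_le_right b)
    · obtain ⟨a, b⟩ := Cor.half hk hl hkl h1
      exact max_le (le_max_of_le_left b) (le_max_of_le_left a.le)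

end Pool.Agent.P.MP_4c0b8d_co
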