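import Pool.Agent.P.MP_4c0b8d_co.Iface

/-! The Hilton-Milner theorem from its shifted and its cross version. -/

namespace Pool.Agent.P.MP_4c0b8d_co

open Finset

namespace Core

lemma compress_eq {i j : ℕ} (hij : i ≠ j) (F : Finset ℕ) :
    UV.compress ({i} : Finset ℕ) {j} F = if i ∉ F ∧ j ∈ F then insert i (F.erase j) else F := by
  unfold UV.compress
  have h : (Disjoint ({i} : Finset ℕ) F ∧ ({j} : Finset ℕ) ≤ F) ↔ (i ∉ F ∧ j ∈ F) := by
    simp
  by_cases hc : i ∉ F ∧ j ∈ F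
  · rw [if_pos (h.2 hc), if_pos hc]
    ext x
    simp only [sup_eq_union, mem_sdiff, mem_union, mem_singleton, mem_insert, mem_erase]
    constructor
    · rintro ⟨h1 | h1, h2⟩
      · exact Or.inr ⟨h2, h1⟩
      · exact Or.inl h1
    · rintro (h1 | ⟨h1, h2⟩)
      · exact ⟨Or.inr h1, by rw [h1]; exact hij⟩
      · exact ⟨Or.inl h2, h1⟩
  · rw [if_neg (fun h' => hc (h.1 h')), if_neg hc]

lemma mem_comp {i j : ℕ} (hij : i ≠ j) {𝓕 : Finset (Finset ℕ)} {A : Finset ℕ}
    (hA : A ∈ UV.compression ({i} : Finset ℕ) {j} 𝓕) :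
    (A ∈ 𝓕 ∧ (i ∉ A → j ∈ A → insert i (A.erase j) ∈ 𝓕)) ∨
      ∃ B ∈ 𝓕, i ∉ B ∧ j ∈ B ∧ A = insert i (B.erase j) := by
  rw [UV.mem_compression] at hA
  rcases hA with ⟨h1, h2⟩ | ⟨h1, B, hB, h2⟩
  · left
    refine ⟨h1, fun hi hj => ?_⟩
    rwa [compress_eq hij, if_pos ⟨hi, hj⟩] at h2
  · right
    rw [compress_eq hij] at h2
    split_ifs at h2 with hc
    · exact ⟨B, hB, hc.1, hc.2, h2.symm⟩
    · exact absurd (h2 ▸ hB) h1

lemma card_shift {i j : ℕ} {B : Finset ℕ} (hi : i ∉ B) (hj : j ∈ B) :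
    (insert i (B.erase j)).card = B.card := by
  rw [card_insert_of_notMem (by simp [hi]), card_erase_of_mem hj]
  have := card_pos.2 ⟨j, hj⟩
  omega

lemma cross_aux {i j : ℕ} {𝓕 : Finset (Finset ℕ)} (h : Cross 𝓕 𝓕) {A B : Finset ℕ} (hA : A ∈ 𝓕)
    (hA' : i ∉ A → j ∈ A → insert i (A.erase j) ∈ 𝓕) (hB : B ∈ 𝓕) (hi : i ∉ B) :
    ¬ Disjoint A (insert i (B.erase j)) := by
  rw [not_disjoint_iff]
  by_cases hiA : i ∈ A
  · exact ⟨i, hiA, mem_insert_self _ _⟩
  by_cases hjA : j ∈ A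
  · obtain ⟨x, h1, h2⟩ := not_disjoint_iff.1 (h _ (hA' hiA hjA) B hB)
    rcases mem_insert.1 h1 with rfl | h1
    · exact absurd h2 hi
    · exact ⟨x, (mem_erase.1 h1).2, mem_insert_of_mem (mem_erase.2 ⟨(mem_erase.1 h1).1, h2⟩)⟩
  · obtain ⟨x, h1, h2⟩ := not_disjoint_iff.1 (h A hA B hB)
    exact ⟨x, h1, mem_insert_of_mem (mem_erase.2 ⟨fun e => hjA (e ▸ h1), h2⟩)⟩

lemma comp_cross {i j : ℕ} (hij : i ≠ j) {𝓕 : Finset (Finset ℕ)} (h : Cross 𝓕 𝓕) :
    Cross (UV.compression ({i} : Finset ℕ) {j} 𝓕) (UV.compression ({i} : Finset ℕ) {j} 𝓕) := by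
  intro F hF G hG
  rcases mem_comp hij hF with ⟨h1, h2⟩ | ⟨A, hA, hiA, hjA, rfl⟩
  · rcases mem_comp hij hG with ⟨h3, -⟩ | ⟨B, hB, hiB, hjB, rfl⟩
    · exact h F h1 G h3
    · exact cross_aux h h1 h2 hB hiB
  · rcases mem_comp hij hG with ⟨h3, h4⟩ | ⟨B, hB, hiB, hjB, rfl⟩
    · rw [disjoint_comm]
      exact cross_aux h h3 h4 hA hiA
    · exact not_disjoint_iff.2 ⟨i, mem_insert_self _ _, mem_insert_self _ _⟩

lemma comp_subset {i j k : ℕ} (hij : i ≠ j) {S : Finset ℕ} (hi : i ∈ S) {𝓕 : Finset (Finset ℕ)}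
    (h : 𝓕 ⊆ S.powersetCard k) : UV.compression ({i} : Finset ℕ) {j} 𝓕 ⊆ S.powersetCard k := by
  intro F hF
  rcases mem_comp hij hF with ⟨h1, -⟩ | ⟨A, hA, hiA, hjA, rfl⟩
  · exact h h1
  · have h2 := mem_powersetCard.1 (h hA)
    rw [mem_powersetCard, card_shift hiA hjA]
    exact ⟨insert_subset hi ((erase_subset _ _).trans h2.1), h2.2⟩

lemma sum_shift {i j : ℕ} {B : Finset ℕ} (hi : i ∉ B) (hj : j ∈ B) :
    ∑ x ∈ insert i (B.erase j), x + j = ∑ x ∈ B, x + i := by
  rw [sum_insert (by simp [hi]), ← add_sum_erase B (fun x => x) hj]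
  ring

lemma comp_measure {i j : ℕ} (hij : i < j) {𝓕 : Finset (Finset ℕ)} {F : Finset ℕ} (hF : F ∈ 𝓕)
    (hi : i ∉ F) (hj : j ∈ F) (hn : insert i (F.erase j) ∉ 𝓕) :
    ∑ A ∈ UV.compression ({i} : Finset ℕ) {j} 𝓕, ∑ x ∈ A, x < ∑ A ∈ 𝓕, ∑ x ∈ A, x := by
  classical
  let φ : Finset ℕ → Finset ℕ := fun A =>
    if UV.compress ({i} : Finset ℕ) {j} A ∈ 𝓕 then A else UV.compress ({i} : Finset ℕ) {j} A
  have himg : UV.compression ({i} : Finset ℕ) {j} 𝓕 = 𝓕.image φ := by
    ext A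
    rw [UV.mem_compression, mem_image]
    constructor
    · rintro (⟨h1, h2⟩ | ⟨h1, B, hB, h2⟩)
      · exact ⟨A, h1, by simp only [φ]; rw [if_pos h2]⟩
      · exact ⟨B, hB, by simp only [φ]; rw [if_neg (h2 ▸ h1), h2]⟩
    · rintro ⟨B, hB, rfl⟩
      simp only [φ]
      split_ifs with hc
      · exact Or.inl ⟨hB, hc⟩
      · exact Or.inr ⟨hc, B, hB, rfl⟩
  have hinj : Set.InjOn φ 𝓕 := by
    rw [← card_image_iff, ← himg, UV.card_compression]
  rw [himg, sum_image hinj]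
  apply sum_lt_sum
  · intro A _
    simp only [φ]
    split_ifs with hc
    · exact le_rfl
    · rw [compress_eq hij.ne]
      split_ifs with hd
      · have := sum_shift hd.1 hd.2
        omega
      · exact le_rfl
  · refine ⟨F, hF, ?_⟩
    simp only [φ]
    rw [compress_eq hij.ne, if_pos (show i ∉ F ∧ j ∈ F from ⟨hi, hj⟩), if_neg hn]
    have := sum_shift hi hj
    omega

lemma card_erase_image (A : Finset (Finset ℕ)) (z : ℕ) (h : ∀ E ∈ A, z ∈ E) :
    (A.image (fun E => E.erase z)).card = A.card := by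
  refine card_image_of_injOn fun E hE F hF e => ?_
  have e' : E.erase z = F.erase z := e
  rw [← insert_erase (h E hE), ← insert_erase (h F hF), e']

/-- The members through `i` missing `j`, with `i` removed. -/
lemma part {S : Finset ℕ} {r i j : ℕ} {A : Finset (Finset ℕ)} (hA : A ⊆ S.powersetCard r) :
    (A.filter (fun E => i ∈ E ∧ j ∉ E)).image (fun E => E.erase i) ⊆
      ((S.erase i).erase j).powersetCard (r - 1) := by
  intro F hF
  obtain ⟨E, hE, rfl⟩ := mem_image.1 hF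
  obtain ⟨hE, hi, hj⟩ := mem_filter.1 hE
  have h2 := mem_powersetCard.1 (hA hE)
  rw [mem_powersetCard, card_erase_of_mem hi, h2.2]
  refine ⟨fun x hx => ?_, rfl⟩
  have hx' := mem_erase.1 hx
  exact mem_erase.2 ⟨fun e => hj (e ▸ hx'.2), mem_erase.2 ⟨hx'.1, h2.1 hx'.2⟩⟩

/-- The case where two points cover the family. -/
lemma two (h2 : HMC) {S : Finset ℕ} {r i j : ℕ} (hr : 2 * r ≤ S.card) (hij : i ≠ j) (hi : i ∈ S)
    (hj : j ∈ S) {A : Finset (Finset ℕ)} (hA : A ⊆ S.powersetCard r) (hc : Cross A A)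
    (hz : ∀ z, ∃ E ∈ A, z ∉ E) (hcov : ∀ E ∈ A, i ∈ E ∨ j ∈ E) :
    A.card + (S.card - r - 1).choose (r - 1) ≤ (S.card - 1).choose (r - 1) + 1 := by
  set S' := (S.erase i).erase j with hS'
  have hcard : S'.card + 2 = S.card := by
    have h1 := card_erase_add_one hi
    have h3 := card_erase_add_one (mem_erase.2 ⟨hij.symm, hj⟩ : j ∈ S.erase i)
    rw [hS']
    omega
  set A1 := (A.filter (fun E => i ∈ E ∧ j ∉ E)).image (fun E => E.erase i) with hA1
  set A2 := (A.filter (fun E => j ∈ E ∧ i ∉ E)).image (fun E => E.erase j) with hA2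
  have s1 : A1 ⊆ S'.powersetCard (r - 1) := part hA
  have s2 : A2 ⊆ S'.powersetCard (r - 1) := by
    rw [hS', erase_right_comm]
    exact part hA
  have n1 : A1.Nonempty := by
    obtain ⟨E, hE, h⟩ := hz j
    exact (image_nonempty).2 ⟨E, mem_filter.2 ⟨hE, (hcov E hE).resolve_right h, h⟩⟩
  have n2 : A2.Nonempty := by
    obtain ⟨E, hE, h⟩ := hz i
    exact (image_nonempty).2 ⟨E, mem_filter.2 ⟨hE, (hcov E hE).resolve_left h, h⟩⟩
  have c12 : Cross A1 A2 := by
    intro a ha b hb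
    obtain ⟨E, hE, rfl⟩ := mem_image.1 ha
    obtain ⟨F, hF, rfl⟩ := mem_image.1 hb
    obtain ⟨hE, -, hjE⟩ := mem_filter.1 hE
    obtain ⟨hF, -, hiF⟩ := mem_filter.1 hF
    obtain ⟨x, h1, h3⟩ := not_disjoint_iff.1 (hc E hE F hF)
    exact not_disjoint_iff.2 ⟨x, mem_erase.2 ⟨fun e => hiF (e ▸ h3), h1⟩,
      mem_erase.2 ⟨fun e => hjE (e ▸ h1), h3⟩⟩
  have hr2 : 2 ≤ r := by
    obtain ⟨a, ha⟩ := n1
    obtain ⟨b, hb⟩ := n2
    obtain ⟨x, h1, -⟩ := not_disjoint_iff.1 (c12 a ha b hb)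
    have h3 := (mem_powersetCard.1 (s1 ha)).2
    have := card_pos.2 ⟨x, h1⟩
    omega
  have key := h2 S' (r - 1) (by omega) A1 A2 s1 s2 n1 n2 c12
  have k1 : A1.card = (A.filter (fun E => i ∈ E ∧ j ∉ E)).card :=
    card_erase_image _ i fun E hE => (mem_filter.1 hE).2.1
  have k2 : A2.card = (A.filter (fun E => j ∈ E ∧ i ∉ E)).card :=
    card_erase_image _ j fun E hE => (mem_filter.1 hE).2.1
  have k3 : (A.filter (fun E => i ∈ E ∧ j ∈ E)).card ≤ S'.card.choose (r - 2) := by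
    rw [← card_erase_image _ i fun E hE => (mem_filter.1 hE).2.1, ← card_erase_image _ j,
      ← card_powersetCard]
    · refine card_le_card fun F hF => ?_
      obtain ⟨G, hG, rfl⟩ := mem_image.1 hF
      obtain ⟨E, hE, rfl⟩ := mem_image.1 hG
      obtain ⟨hE, hiE, hjE⟩ := mem_filter.1 hE
      have h3 := mem_powersetCard.1 (hA hE)
      rw [mem_powersetCard, card_erase_of_mem (mem_erase.2 ⟨hij.symm, hjE⟩),
        card_erase_of_mem hiE, h3.2]
      exact ⟨erase_subset_erase _ (erase_subset_erase _ h3.1), by omega⟩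
    · intro G hG
      obtain ⟨E, hE, rfl⟩ := mem_image.1 hG
      exact mem_erase.2 ⟨hij.symm, (mem_filter.1 hE).2.2⟩
  have k4 : A.card ≤ (A.filter (fun E => i ∈ E ∧ j ∉ E)).card +
      (A.filter (fun E => j ∈ E ∧ i ∉ E)).card + (A.filter (fun E => i ∈ E ∧ j ∈ E)).card := by
    refine le_trans (card_le_card fun E hE => ?_)
      ((card_union_le _ _).trans (Nat.add_le_add_right (card_union_le _ _) _))
    simp only [mem_union, mem_filter]
    have := hcov E hE
    tauto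
  obtain ⟨s, rfl⟩ : ∃ s, r = s + 2 := ⟨r - 2, by omega⟩
  have e1 : S.card - 1 = S'.card + 1 := by omega
  have e2 : S.card - (s + 2) - 1 = S'.card - (s + 2 - 1) := by omega
  have e3 : s + 2 - 1 = s + 1 := rfl
  have e4 : s + 2 - 2 = s := rfl
  rw [e1, e2]
  rw [e4] at k3
  rw [e3] at key ⊢
  rw [Nat.choose_succ_succ']
  omega

/-- The Hilton-Milner theorem. -/
lemma hm (h1 : HMS) (h2 : HMC) {S : Finset ℕ} {r : ℕ} (hr1 : 1 ≤ r) (hr : 2 * r ≤ S.card) :
    ∀ (N : ℕ) (A : Finset (Finset ℕ)), ∑ E ∈ A, ∑ x ∈ E, x = N → A ⊆ S.powersetCard r →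
      Cross A A → (∀ z, ∃ E ∈ A, z ∉ E) →
      A.card + (S.card - r - 1).choose (r - 1) ≤ (S.card - 1).choose (r - 1) + 1 := by
  intro N
  induction N using Nat.strong_induction_on with
  | _ N ih =>
    intro A hN hA hc hz
    by_cases hs : Shifted S A
    · have hne : S.Nonempty := card_pos.1 (by omega)
      exact h1 S r hr1 hr (S.min' hne) (S.min'_mem hne) (fun y hy => S.min'_le y hy) A hA hc hs
        (hz _)
    · unfold Shifted at hs
      push Not at hs
      obtain ⟨F, hF, j, hj, i, hi, hij, hiF, hn⟩ := hs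
      by_cases hz' : ∀ z, ∃ E ∈ UV.compression ({i} : Finset ℕ) {j} A, z ∉ E
      · have := ih _ (hN ▸ comp_measure hij hF hiF hj hn) _ rfl (comp_subset hij.ne hi hA)
          (comp_cross hij.ne hc) hz'
        rwa [UV.card_compression] at this
      · push Not at hz'
        obtain ⟨z, hz'⟩ := hz'
        have hall : ∀ E ∈ A, z ∈ (if i ∉ E ∧ j ∈ E then insert i (E.erase j) else E) := by
          intro E hE
          rw [← compress_eq hij.ne]
          exact hz' _ (UV.compress_mem_compression hE)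
        have hzi : z = i := by
          obtain ⟨E, hE, h⟩ := hz z
          have h3 := hall E hE
          split_ifs at h3
          · exact (mem_insert.1 h3).resolve_right fun h4 => h (mem_erase.1 h4).2
          · exact absurd h3 h
        subst hzi
        refine two h2 hr hij.ne hi ((mem_powersetCard.1 (hA hF)).1 hj) hA hc hz fun E hE => ?_
        have h3 := hall E hE
        split_ifs at h3 with h4
        · exact Or.inr h4.2
        · exact Or.inl h3

end Core

theorem core (h1 : HMS) (h2 : HMC) : CORE := by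
  intro S r hr1 hr I L L' hI hL hL' hd hII hIL
  have hLc := mem_powersetCard.1 hL
  have hLc' := mem_powersetCard.1 hL'
  have m1 : ∀ E ∈ I, ¬ Disjoint E L := fun E hE => hIL E hE L (by simp)
  have m2 : ∀ E ∈ I, ¬ Disjoint E L' := fun E hE => hIL E hE L' (by simp)
  have hn : L ∉ I := fun h => m2 L h hd
  by_cases hz : ∀ z, ∃ E ∈ insert L I, z ∉ E
  · have := Core.hm h1 h2 hr1 hr _ (insert L I) rfl (insert_subset hL hI) (by
      intro a ha b hb
      rcases mem_insert.1 ha with ea | ha'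
      · rcases mem_insert.1 hb with eb | hb'
        · obtain ⟨x, hx⟩ := card_pos.1 (show 0 < L.card by omega)
          exact not_disjoint_iff.2 ⟨x, ea ▸ hx, eb ▸ hx⟩
        · rw [disjoint_comm, ea]
          exact m1 b hb'
      · rcases mem_insert.1 hb with eb | hb'
        · rw [eb]
          exact m1 a ha'
        · exact hII a ha' b hb') hz
    rw [card_insert_of_notMem hn] at this
    omega
  · push Not at hz
    obtain ⟨z, hz⟩ := hz
    have hzL : z ∈ L := hz L (mem_insert_self _ _)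
    have hzL' : z ∉ L' := disjoint_left.1 hd hzL
    have hzS : z ∈ S := hLc.1 hzL
    have hzI : ∀ E ∈ I, z ∈ E := fun E hE => hz E (mem_insert_of_mem hE)
    have hsub : L' ⊆ S.erase z := fun x hx => mem_erase.2 ⟨fun e => hzL' (e ▸ hx), hLc'.1 hx⟩
    have e1 : (S.erase z \ L').card = S.card - r - 1 := by
      rw [card_sdiff_of_subset hsub, card_erase_of_mem hzS, hLc'.2]
      omega
    rw [← e1, ← card_erase_of_mem hzS, ← card_powersetCard, ← card_powersetCard,
      ← Core.card_erase_image I z hzI, ← card_union_of_disjoint]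
    · refine card_le_card (union_subset (fun F hF => ?_) (powersetCard_mono sdiff_subset))
      obtain ⟨E, hE, rfl⟩ := mem_image.1 hF
      have h3 := mem_powersetCard.1 (hI hE)
      rw [mem_powersetCard, card_erase_of_mem (hzI E hE), h3.2]
      exact ⟨erase_subset_erase _ h3.1, rfl⟩
    · refine disjoint_left.2 fun F hF hF' => ?_
      obtain ⟨E, hE, rfl⟩ := mem_image.1 hF
      obtain ⟨x, h3, h4⟩ := not_disjoint_iff.1 (m2 E hE)
      exact (mem_sdiff.1 ((mem_powersetCard.1 hF').1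
        (mem_erase.2 ⟨fun e => hzL' (e ▸ h4), h3⟩))).2 h4

end Pool.Agent.P.MP_4c0b8d_co
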