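import Mathlib

namespace Pool.Agent.P.MP_4c0b8d_co

open Finset

/-- Every member of `A` meets every member of `B`. -/
def Cross (A B : Finset (Finset ℕ)) : Prop := ∀ a ∈ A, ∀ b ∈ B, ¬ Disjoint a b

/-- Erdos-Ko-Rado on an arbitrary ground set. -/
def EKR : Prop := ∀ (S : Finset ℕ) (r : ℕ), 1 ≤ r → 2 * r ≤ S.card →
  ∀ A : Finset (Finset ℕ), A ⊆ S.powersetCard r → Cross A A →
    A.card ≤ (S.card - 1).choose (r - 1)

/-- The compression lemma of Hilton: a chain of families through a star which keeps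
cross-intersection. -/
def HILTON : Prop := ∀ (S : Finset ℕ) (r : ℕ), 1 ≤ r → 2 * r ≤ S.card →
  ∃ x ∈ S, ∃ L : ℕ → Finset (Finset ℕ), (∀ a, L a ⊆ S.powersetCard r) ∧
    (∀ a, a ≤ S.card.choose r → (L a).card = a) ∧ Monotone L ∧
    L ((S.card - 1).choose (r - 1)) = (S.powersetCard r).filter (fun E => x ∈ E) ∧
    ∀ A B : Finset (Finset ℕ), A ⊆ S.powersetCard r → B ⊆ S.powersetCard r → Cross A B →
      Cross (L A.card) (L B.card)

/-- An intersecting family whose members meet two disjoint sets (from Hilton-Milner). -/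
def CORE : Prop := ∀ (S : Finset ℕ) (r : ℕ), 1 ≤ r → 2 * r ≤ S.card →
  ∀ (I : Finset (Finset ℕ)) (L L' : Finset ℕ), I ⊆ S.powersetCard r →
    L ∈ S.powersetCard r → L' ∈ S.powersetCard r → Disjoint L L' → Cross I I →
    Cross I {L, L'} →
    I.card + (S.card - r - 1).choose (r - 1) ≤ (S.card - 1).choose (r - 1)

/-- A family of pairs is intersecting. -/
def Int2 (F : Finset (Finset ℕ × Finset ℕ)) : Prop :=
  ∀ x ∈ F, ∀ y ∈ F, ¬ (Disjoint x.1 y.1 ∧ Disjoint x.2 y.2)

/-- Two members are disjoint in the first part. -/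
def Two1 (F : Finset (Finset ℕ × Finset ℕ)) : Prop := ∃ x ∈ F, ∃ y ∈ F, Disjoint x.1 y.1

/-- Two members are disjoint in the second part. -/
def Two2 (F : Finset (Finset ℕ × Finset ℕ)) : Prop := ∃ x ∈ F, ∃ y ∈ F, Disjoint x.2 y.2

/-- The size of the construction centred in the second part. -/
def bigM (n1 k n2 l : ℕ) : ℤ :=
  (n1.choose k : ℤ) * ((n2 - 1).choose (l - 1) : ℤ)
    - ((n1 - k).choose k : ℤ) * ((n2 - l - 1).choose (l - 1) : ℤ)
    + (if l = 1 then (n2 : ℤ) - 1 else 1)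

end Pool.Agent.P.MP_4c0b8d_co
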