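import Pool.Agent.P.MP_4c0b8d_co.Iface

namespace Pool.Agent.P.MP_4c0b8d_co

open Finset

namespace Lower

lemma star_card (T : Finset ℕ) {x : ℕ} (hx : x ∈ T) {l : ℕ} (hl : 1 ≤ l) :
    ((T.powersetCard l).filter (fun E => x ∈ E)).card = (T.card - 1).choose (l - 1) := by
  have h1 : (T.powersetCard l).filter (fun E => x ∈ E) =
      ((T.erase x).powersetCard (l - 1)).image (insert x) := by
    ext E
    simp only [mem_filter, mem_powersetCard, mem_image]
    constructor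
    · rintro ⟨⟨hE, hc⟩, hxE⟩
      exact ⟨E.erase x, ⟨erase_subset_erase _ hE, by rw [card_erase_of_mem hxE, hc]⟩,
        insert_erase hxE⟩
    · rintro ⟨D, ⟨hD, hc⟩, rfl⟩
      have hxD : x ∉ D := fun h => notMem_erase x T (hD h)
      refine ⟨⟨insert_subset hx (hD.trans (erase_subset _ _)), ?_⟩, mem_insert_self _ _⟩
      rw [card_insert_of_notMem hxD, hc]; omega
  rw [h1, card_image_of_injOn, card_powersetCard, card_erase_of_mem hx]
  intro D hD D' hD' h
  have hxD : x ∉ D := fun h => notMem_erase x T ((mem_powersetCard.1 hD).1 h)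
  have hxD' : x ∉ D' := fun h => notMem_erase x T ((mem_powersetCard.1 hD').1 h)
  rw [← erase_insert hxD, ← erase_insert hxD', h]

/-- A set of given size through a given point. -/
lemma through (T : Finset ℕ) {x : ℕ} (hx : x ∈ T) {l : ℕ} (hl : 1 ≤ l) (h : l ≤ T.card) :
    ∃ E, E ⊆ T ∧ E.card = l ∧ x ∈ E := by
  obtain ⟨E, h1, h2, h3⟩ := exists_subsuperset_card_eq (s := {x}) (t := T) (n := l)
    (singleton_subset_iff.2 hx) (by simpa using hl) h
  exact ⟨E, h2, h3, singleton_subset_iff.1 h1⟩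

/-- Two disjoint sets through two different points. -/
lemma two_through (T : Finset ℕ) {a b : ℕ} (ha : a ∈ T) (hb : b ∈ T) (hab : a ≠ b) {k : ℕ}
    (hk : 1 ≤ k) (h : 2 * k ≤ T.card) :
    ∃ E E', E ⊆ T ∧ E.card = k ∧ a ∈ E ∧ E' ⊆ T ∧ E'.card = k ∧ b ∈ E' ∧ Disjoint E' E := by
  obtain ⟨E, h1, h2, h3⟩ := through (T.erase b) (mem_erase.2 ⟨hab, ha⟩) hk
    (by rw [card_erase_of_mem hb]; omega)
  have hE : E ⊆ T := h1.trans (erase_subset _ _)
  obtain ⟨E', h4, h5, h6⟩ := through (T \ E)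
    (mem_sdiff.2 ⟨hb, fun hh => notMem_erase b T (h1 hh)⟩) hk
    (by rw [card_sdiff_of_subset hE]; omega)
  exact ⟨E, E', hE, h2, h3, (subset_sdiff.1 h4).1, h5, h6, (subset_sdiff.1 h4).2⟩

end Lower

open Lower in
theorem lower : LOWER := by
  intro S1 S2 k l hk hl hkl h1 h2
  obtain ⟨x, hx⟩ : S2.Nonempty := card_pos.1 (by omega)
  obtain ⟨L0, hL0, cL0⟩ := exists_subset_card_eq (s := S2.erase x) (n := l)
    (by rw [card_erase_of_mem hx]; omega)
  obtain ⟨K0, hK0, cK0⟩ := exists_subset_card_eq (s := S1) (n := k) (by omega)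
  have hxL0 : x ∉ L0 := fun h => notMem_erase x S2 (hL0 h)
  have hL0' : L0 ⊆ S2 := hL0.trans (erase_subset _ _)
  have hK0ne : ¬ Disjoint K0 K0 := fun h => by
    rw [disjoint_self, bot_eq_empty] at h
    rw [h, card_empty] at cK0; omega
  set A : Finset (Finset ℕ × Finset ℕ) :=
    S1.powersetCard k ×ˢ (S2.powersetCard l).filter (fun E => x ∈ E) with hA
  set B : Finset (Finset ℕ × Finset ℕ) :=
    (S1 \ K0).powersetCard k ×ˢ ((S2 \ L0).powersetCard l).filter (fun E => x ∈ E) with hB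
  set G : Finset (Finset ℕ) := if l = 1 then (S2.erase x).powersetCard l else {L0} with hG
  have mA : ∀ p : Finset ℕ × Finset ℕ, p ∈ A \ B ↔ (p.1 ⊆ S1 ∧ p.1.card = k) ∧
      (p.2 ⊆ S2 ∧ p.2.card = l) ∧ x ∈ p.2 ∧ ¬ (Disjoint p.1 K0 ∧ Disjoint p.2 L0) := by
    intro p
    simp only [hA, hB, mem_sdiff, mem_product, mem_filter, mem_powersetCard, subset_sdiff]
    tauto
  have mG : ∀ L ∈ G, L ⊆ S2.erase x ∧ L.card = l ∧ (L = L0 ∨ l = 1) := by
    intro L hL
    by_cases h : l = 1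
    · rw [hG, if_pos h, mem_powersetCard] at hL
      exact ⟨hL.1, hL.2, Or.inr h⟩
    · rw [hG, if_neg h, mem_singleton] at hL
      exact ⟨hL ▸ hL0, hL ▸ cL0, Or.inl hL⟩
  have L0G : L0 ∈ G := by
    by_cases h : l = 1
    · rw [hG, if_pos h, mem_powersetCard]; exact ⟨hL0, cL0⟩
    · rw [hG, if_neg h, mem_singleton]
  have cG : (G.card : ℤ) = if l = 1 then (S2.card : ℤ) - 1 else 1 := by
    by_cases h : l = 1
    · rw [hG, if_pos h, if_pos h, card_powersetCard, h, Nat.choose_one_right, card_erase_of_mem hx]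
      omega
    · rw [hG, if_neg h, if_neg h, card_singleton]; rfl
  have mF : ∀ p : Finset ℕ × Finset ℕ, p ∈ (A \ B) ∪ ({K0} ×ˢ G) ↔
      p ∈ A \ B ∨ (p.1 = K0 ∧ p.2 ∈ G) := by
    intro p
    rw [mem_union, mem_product, mem_singleton]
  have cross : ∀ p ∈ A \ B, ∀ L ∈ G, ¬ (Disjoint p.1 K0 ∧ Disjoint p.2 L) := by
    intro p hp L hL h
    obtain ⟨-, ⟨-, c2⟩, hx2, hn⟩ := (mA p).1 hp
    rcases (mG L hL).2.2 with e | e
    · exact hn (e ▸ h)
    · refine hn ⟨h.1, ?_⟩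
      obtain ⟨y, hy⟩ := card_eq_one.1 (c2.trans e)
      rw [hy, mem_singleton] at hx2
      rw [hy, disjoint_singleton_left, ← hx2]
      exact hxL0
  refine ⟨(A \ B) ∪ ({K0} ×ˢ G), ?_, ?_, ?_, ?_, ?_⟩
  · intro p hp
    rw [Om, mem_product, mem_powersetCard, mem_powersetCard]
    rcases (mF p).1 hp with h | h
    · exact ⟨((mA p).1 h).1, ((mA p).1 h).2.1⟩
    · exact ⟨⟨h.1 ▸ hK0, h.1 ▸ cK0⟩, (mG _ h.2).1.trans (erase_subset _ _), (mG _ h.2).2.1⟩
  · intro p hp q hq h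
    rcases (mF p).1 hp with hp | hp <;> rcases (mF q).1 hq with hq | hq
    · exact disjoint_left.1 h.2 ((mA p).1 hp).2.2.1 ((mA q).1 hq).2.2.1
    · exact cross p hp _ hq.2 ⟨hq.1 ▸ h.1, h.2⟩
    · exact cross q hq _ hp.2 ⟨hp.1 ▸ h.1.symm, h.2.symm⟩
    · exact hK0ne (by have := h.1; rwa [hp.1, hq.1] at this)
  · by_cases h : l = 1
    · obtain ⟨a, ha, b, hb, hab⟩ := one_lt_card.1 (show 1 < K0.card by omega)
      obtain ⟨E, E', e1, e2, e3, e4, e5, e6, e7⟩ := two_through S1 (hK0 ha) (hK0 hb) hab hk h1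
      refine ⟨(E', {x}), (mF _).2 (Or.inl ((mA _).2 ⟨⟨e4, e5⟩,
        ⟨singleton_subset_iff.2 hx, by rw [h]; exact card_singleton x⟩, mem_singleton_self x,
        fun hh => disjoint_left.1 hh.1 e6 hb⟩)), (E, {x}), (mF _).2 (Or.inl ((mA _).2 ⟨⟨e1, e2⟩,
        ⟨singleton_subset_iff.2 hx, by rw [h]; exact card_singleton x⟩, mem_singleton_self x,
        fun hh => disjoint_left.1 hh.1 e3 ha⟩)), e7⟩
    · obtain ⟨y, hy⟩ : L0.Nonempty := card_pos.1 (by omega)
      obtain ⟨L, l1, l2, l3⟩ := exists_subsuperset_card_eq (s := {x, y}) (t := S2) (n := l)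
        (insert_subset hx (singleton_subset_iff.2 (hL0' hy)))
        (card_le_two.trans (by omega)) (by omega)
      obtain ⟨K, k1, k2⟩ := exists_subset_card_eq (s := S1 \ K0) (n := k)
        (by rw [card_sdiff_of_subset hK0]; omega)
      have hn : ¬ Disjoint L L0 := fun hh => disjoint_left.1 hh (l1 (by simp)) hy
      exact ⟨(K, L), (mF _).2 (Or.inl ((mA _).2 ⟨⟨(subset_sdiff.1 k1).1, k2⟩, ⟨l2, l3⟩,
        l1 (by simp), fun hh => hn hh.2⟩)), (K0, L), (mF _).2 (Or.inl ((mA _).2 ⟨⟨hK0, cK0⟩,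
        ⟨l2, l3⟩, l1 (by simp), fun hh => hn hh.2⟩)), (subset_sdiff.1 k1).2⟩
  · obtain ⟨L, l1, l2, l3⟩ := through (S2 \ L0) (mem_sdiff.2 ⟨hx, hxL0⟩) hl
      (by rw [card_sdiff_of_subset hL0']; omega)
    exact ⟨(K0, L), (mF _).2 (Or.inl ((mA _).2 ⟨⟨hK0, cK0⟩, ⟨(subset_sdiff.1 l1).1, l2⟩, l3,
      fun hh => hK0ne hh.1⟩)), (K0, L0), (mF _).2 (Or.inr ⟨rfl, L0G⟩), (subset_sdiff.1 l1).2⟩
  · have hBA : B ⊆ A := product_subset_product (powersetCard_mono sdiff_subset)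
      (filter_subset_filter _ (powersetCard_mono sdiff_subset))
    have hd : Disjoint (A \ B) ({K0} ×ˢ G) := by
      rw [disjoint_left]
      intro p hp hq
      exact notMem_erase x S2 ((mG _ (mem_product.1 hq).2).1 ((mA p).1 hp).2.2.1)
    have cA : A.card = S1.card.choose k * (S2.card - 1).choose (l - 1) := by
      rw [hA, card_product, card_powersetCard, star_card S2 hx hl]
    have cB : B.card = (S1.card - k).choose k * (S2.card - l - 1).choose (l - 1) := by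
      rw [hB, card_product, card_powersetCard, star_card _ (mem_sdiff.2 ⟨hx, hxL0⟩) hl,
        card_sdiff_of_subset hK0, card_sdiff_of_subset hL0', cK0, cL0]
    rw [card_union_of_disjoint hd, card_product, card_singleton, one_mul, card_sdiff_of_subset hBA,
      Nat.cast_add, Nat.cast_sub (card_le_card hBA), cA, cB, cG, bigM]
    push_cast
    rfl

end Pool.Agent.P.MP_4c0b8d_co
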