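import Pool.Agent.P.MP_4c0b8d_co.Upper
import Pool.Agent.P.MP_4c0b8d_co.Lower

namespace Pool.Agent.P.MP_4c0b8d_co

open Finset

namespace Glue

open Prd

variable {X1 X2 : Finset ℕ}

lemma union_inter1 (hX : Disjoint X1 X2) {K L : Finset ℕ} (hK : K ⊆ X1) (hL : L ⊆ X2) :
    (K ∪ L) ∩ X1 = K := by
  ext z
  simp only [mem_inter, mem_union]
  exact ⟨fun ⟨h, h'⟩ => h.resolve_right fun e => disjoint_left.1 hX h' (hL e),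
    fun h => ⟨Or.inl h, hK h⟩⟩

lemma union_inter2 (hX : Disjoint X1 X2) {K L : Finset ℕ} (hK : K ⊆ X1) (hL : L ⊆ X2) :
    (K ∪ L) ∩ X2 = L := by
  rw [union_comm]; exact union_inter1 hX.symm hL hK

lemma empty_iff (A B X : Finset ℕ) : A ∩ B ∩ X = ∅ ↔ Disjoint (A ∩ X) (B ∩ X) := by
  rw [disjoint_iff_inter_eq_empty, inter_inter_distrib_right]

theorem of_pairs (hX : Disjoint X1 X2) {k l : ℕ} {G : Finset (Finset ℕ × Finset ℕ)}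
    (hG : G ⊆ Om X1 k X2 l) (hI : Int2 G) (t1 : Two1 G) (t2 : Two2 G) :
    ∃ F : Finset (Finset ℕ),
      (∀ A ∈ F, A ⊆ X1 ∪ X2 ∧ (A ∩ X1).card = k ∧ (A ∩ X2).card = l) ∧
      (∀ A ∈ F, ∀ B ∈ F, A ∩ B ≠ ∅) ∧ (∃ A ∈ F, ∃ B ∈ F, A ∩ B ∩ X1 = ∅) ∧
      (∃ A ∈ F, ∃ B ∈ F, A ∩ B ∩ X2 = ∅) ∧ F.card = G.card := by
  have s1 : ∀ x ∈ G, x.1 ⊆ X1 := fun x hx => (mem_powersetCard.1 (mem_om.1 (hG hx)).1).1
  have s2 : ∀ x ∈ G, x.2 ⊆ X2 := fun x hx => (mem_powersetCard.1 (mem_om.1 (hG hx)).2).1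
  have e1 : ∀ x ∈ G, (x.1 ∪ x.2) ∩ X1 = x.1 := fun x hx => union_inter1 hX (s1 x hx) (s2 x hx)
  have e2 : ∀ x ∈ G, (x.1 ∪ x.2) ∩ X2 = x.2 := fun x hx => union_inter2 hX (s1 x hx) (s2 x hx)
  refine ⟨G.image (fun x => x.1 ∪ x.2), ?_, ?_, ?_, ?_, ?_⟩
  · intro A hA
    obtain ⟨x, hx, rfl⟩ := mem_image.1 hA
    rw [e1 x hx, e2 x hx]
    exact ⟨union_subset_union (s1 x hx) (s2 x hx), (mem_powersetCard.1 (mem_om.1 (hG hx)).1).2,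
      (mem_powersetCard.1 (mem_om.1 (hG hx)).2).2⟩
  · intro A hA B hB e
    obtain ⟨x, hx, rfl⟩ := mem_image.1 hA
    obtain ⟨y, hy, rfl⟩ := mem_image.1 hB
    have hd := disjoint_iff_inter_eq_empty.2 e
    exact hI x hx y hy ⟨hd.mono subset_union_left subset_union_left,
      hd.mono subset_union_right subset_union_right⟩
  · obtain ⟨x, hx, y, hy, e⟩ := t1
    refine ⟨_, mem_image_of_mem _ hx, _, mem_image_of_mem _ hy, (empty_iff _ _ _).2 ?_⟩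
    rwa [e1 x hx, e1 y hy]
  · obtain ⟨x, hx, y, hy, e⟩ := t2
    refine ⟨_, mem_image_of_mem _ hx, _, mem_image_of_mem _ hy, (empty_iff _ _ _).2 ?_⟩
    rwa [e2 x hx, e2 y hy]
  · refine card_image_of_injOn fun x hx y hy e => Prod.ext ?_ ?_
    · rw [← e1 x hx, ← e1 y hy]; exact congrArg (· ∩ X1) e
    · rw [← e2 x hx, ← e2 y hy]; exact congrArg (· ∩ X2) e

theorem to_pairs {k l : ℕ} {F : Finset (Finset ℕ)}
    (hF : ∀ A ∈ F, A ⊆ X1 ∪ X2 ∧ (A ∩ X1).card = k ∧ (A ∩ X2).card = l)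
    (hI : ∀ A ∈ F, ∀ B ∈ F, A ∩ B ≠ ∅) (t1 : ∃ A ∈ F, ∃ B ∈ F, A ∩ B ∩ X1 = ∅)
    (t2 : ∃ A ∈ F, ∃ B ∈ F, A ∩ B ∩ X2 = ∅) :
    ∃ G : Finset (Finset ℕ × Finset ℕ), G ⊆ Om X1 k X2 l ∧ Int2 G ∧ Two1 G ∧ Two2 G ∧
      G.card = F.card := by
  refine ⟨F.image (fun A => (A ∩ X1, A ∩ X2)), ?_, ?_, ?_, ?_, ?_⟩
  · intro x hx
    obtain ⟨A, hA, rfl⟩ := mem_image.1 hx
    exact mem_om.2 ⟨mem_powersetCard.2 ⟨inter_subset_right, (hF A hA).2.1⟩,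
      mem_powersetCard.2 ⟨inter_subset_right, (hF A hA).2.2⟩⟩
  · intro x hx y hy ⟨d1, d2⟩
    obtain ⟨A, hA, rfl⟩ := mem_image.1 hx
    obtain ⟨B, hB, rfl⟩ := mem_image.1 hy
    obtain ⟨z, hz⟩ := nonempty_iff_ne_empty.2 (hI A hA B hB)
    obtain ⟨a, b⟩ := mem_inter.1 hz
    rcases mem_union.1 ((hF A hA).1 a) with h | h
    · exact disjoint_left.1 d1 (mem_inter.2 ⟨a, h⟩) (mem_inter.2 ⟨b, h⟩)
    · exact disjoint_left.1 d2 (mem_inter.2 ⟨a, h⟩) (mem_inter.2 ⟨b, h⟩)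
  · obtain ⟨A, hA, B, hB, e⟩ := t1
    exact ⟨_, mem_image_of_mem _ hA, _, mem_image_of_mem _ hB, (empty_iff _ _ _).1 e⟩
  · obtain ⟨A, hA, B, hB, e⟩ := t2
    exact ⟨_, mem_image_of_mem _ hA, _, mem_image_of_mem _ hB, (empty_iff _ _ _).1 e⟩
  · refine card_image_of_injOn fun A hA B hB e => ?_
    have back : ∀ C ∈ F, C = C ∩ X1 ∪ C ∩ X2 := fun C hC => by
      rw [← inter_union_distrib_left, inter_eq_left.2 (hF C hC).1]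
    simp only [Prod.mk.injEq] at e
    rw [back A hA, back B hB, e.1, e.2]

end Glue

open Prd Upp Glue in
theorem exact_max (hU : UPPER) (X1 X2 : Finset ℕ) (hX : Disjoint X1 X2) (k l : ℕ) (hk : 1 ≤ k)
    (hl : 1 ≤ l) (hkl : 3 ≤ k + l) (h1 : 2 * k ≤ X1.card) (h2 : 2 * l ≤ X2.card) :
    IsGreatest {m : ℤ | ∃ F : Finset (Finset ℕ),
      (∀ A ∈ F, A ⊆ X1 ∪ X2 ∧ (A ∩ X1).card = k ∧ (A ∩ X2).card = l) ∧
      (∀ A ∈ F, ∀ B ∈ F, A ∩ B ≠ ∅) ∧ (∃ A ∈ F, ∃ B ∈ F, A ∩ B ∩ X1 = ∅) ∧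
      (∃ A ∈ F, ∃ B ∈ F, A ∩ B ∩ X2 = ∅) ∧ m = F.card}
      (max (bigM X2.card l X1.card k) (bigM X1.card k X2.card l)) := by
  constructor
  · have : ∃ G : Finset (Finset ℕ × Finset ℕ), G ⊆ Om X1 k X2 l ∧ Int2 G ∧ Two1 G ∧ Two2 G ∧
        (G.card : ℤ) = max (bigM X2.card l X1.card k) (bigM X1.card k X2.card l) := by
      rcases max_choice (bigM X2.card l X1.card k) (bigM X1.card k X2.card l) with e | e
      · obtain ⟨G, a, b, c, d, f⟩ := lower X2 X1 l k hl hk (by omega) h2 h1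
        exact ⟨_, swap_sub a, swap_int b, swap_two1 d, swap_two2 c, by rw [card_swap, e, f]⟩
      · rw [e]; exact lower X1 X2 k l hk hl hkl h1 h2
    obtain ⟨G, a, b, c, d, f⟩ := this
    obtain ⟨F, a', b', c', d', f'⟩ := of_pairs hX a b c d
    exact ⟨F, a', b', c', d', by rw [f', f]⟩
  · rintro m ⟨F, a, b, c, d, rfl⟩
    obtain ⟨G, a', b', c', d', f'⟩ := to_pairs a b c d
    rw [← f']
    exact hU X1 X2 k l hk hl hkl h1 h2 G a' b' c' d'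

end Pool.Agent.P.MP_4c0b8d_co
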