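import Pool.Agent.P.MP_4c0b8d_co.Prod

namespace Pool.Agent.P.MP_4c0b8d_co

open Finset

namespace HMc

open Prd

lemma side {S : Finset ℕ} {q : ℕ} (h : 2 * q ≤ S.card) {A B : Finset (Finset ℕ)}
    (hA : A ⊆ S.powersetCard q) (hB : B ⊆ S.powersetCard q) (hAn : A.Nonempty)
    (hBn : B.Nonempty) (hc : ∀ a ∈ A, ∀ b ∈ B, ¬ Disjoint a b)
    {adj : Finset ℕ → Finset ℕ → Prop} (hadj : ∀ u v, adj u v ↔ Disjoint u v)
    (hb : Blk (S.powersetCard q) (S.powersetCard q) adj A) :
    (A.card + B.card : ℤ) ≤ S.card.choose q + 1 - (S.card - q).choose q := by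
  have mem : ∀ z : Finset ℕ × Unit, z ∈ A ×ˢ ({()} : Finset Unit) ↔ z.1 ∈ A := by
    intro z; simp
  have b1 : SwBlk S (A ×ˢ ({()} : Finset Unit)) := by
    intro c hc d hd x hx hx' y hy
    have inj := image_injective (Equiv.swap c d).injective
    exact (mem _).2 (hb _ _ ⟨inj, inj, fun u hu => swap_mem_pc hc hd hu,
      fun u hu => swap_mem_pc hc hd hu, fun u v e => by
        rw [hadj] at e ⊢
        exact disj_of_swap e⟩ x.1 ((mem _).1 hx) ((mem _).1 hx') y.1 ((mem _).1 hy))
  obtain ⟨K, hK⟩ := hAn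
  have cnt : ∀ N : Finset (Finset ℕ), N ⊆ S.powersetCard q → (∀ E ∈ N, ∃ v ∈ A, Disjoint E v) →
      B.card + N.card ≤ S.card.choose q := by
    intro N hN hh
    have hd : Disjoint B N := disjoint_left.2 fun u hu hn => by
      obtain ⟨v, hv, e⟩ := hh u hn
      exact hc v hv u hu e.symm
    have := card_le_card (union_subset hB hN)
    rwa [card_union_of_disjoint hd, card_powersetCard] at this
  by_cases hone : ∀ u ∈ A, u = K
  · have h1 : A.card ≤ 1 := card_le_one.2 fun a ha b hb => (hone a ha).trans (hone b hb).symm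
    have h2 := cnt _ (nb_sub S K q) (fun E hE => ⟨K, hK, nb_disj hE⟩)
    rw [card_nb q (hA hK)] at h2
    omega
  push Not at hone
  obtain ⟨y, hy, hne⟩ := hone
  by_cases hrow : ∀ u ∈ A, u = K ∨ u = S \ K
  · have hy1 : y = S \ K := (hrow y hy).resolve_left hne
    have h1 : A.card ≤ 2 := (card_le_card (t := {K, S \ K})
      (fun x hx => by simpa using hrow x hx)).trans card_le_two
    have h2 := cnt {K, y} (by
      intro E hE
      rcases mem_insert.1 hE with rfl | hE
      · exact hA hK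
      · rw [mem_singleton.1 hE]; exact hA hy) (by
      intro E hE
      rcases mem_insert.1 hE with rfl | hE
      · exact ⟨y, hy, hy1 ▸ disjoint_sdiff⟩
      · rw [mem_singleton.1 hE]; exact ⟨K, hK, hy1 ▸ sdiff_disjoint⟩)
    rw [card_pair (Ne.symm hne)] at h2
    have h3 := (mem_powersetCard.1 (hA hy)).2
    rw [hy1, card_sdiff_of_subset (mem_powersetCard.1 (hA hK)).1,
      (mem_powersetCard.1 (hA hK)).2] at h3
    rw [h3, Nat.choose_self]
    omega
  · exfalso
    push Not at hrow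
    obtain ⟨w, hw, h1, h2⟩ := hrow
    have row := b1.full (r := q) (fun x hx => hA ((mem _).1 hx)) (x := (K, ())) (y := (w, ()))
      ((mem _).2 hK) ((mem _).2 hw) (Ne.symm h1) h2
    obtain ⟨u, hu⟩ := hBn
    obtain ⟨K', hK', hd⟩ := ex_disj (b := q) (hB hu) (by omega)
    exact hc K' ((mem _).1 (row (K, ()) ((mem _).2 hK) K' hK')) u hu hd.symm

end HMc

theorem hmc : HMC := by
  intro S q h A B hA hB hAn hBn hc
  have := atom_bound (SX := S.powersetCard q) (SY := S.powersetCard q)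
    (adj := fun u v => Disjoint u v) ((S.card.choose q : ℤ) + 1 - (S.card - q).choose q)
    (fun A B ⟨hA, hB, hAn, hBn, hc⟩ hb =>
      HMc.side h hA hB hAn hBn hc (fun _ _ => Iff.rfl) hb)
    (fun A B ⟨hA, hB, hAn, hBn, hc⟩ hb => by
      have := HMc.side h hB hA hBn hAn (fun b hb a ha e => hc a ha b hb e.symm)
        (fun _ _ => disjoint_comm) hb
      linarith) A B ⟨hA, hB, hAn, hBn, hc⟩
  omega

end Pool.Agent.P.MP_4c0b8d_co
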