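import Pool.Agent.P.MP_4c0b8d_co.Iface

/-! Hilton-Milner for shifted families. -/

namespace Pool.Agent.P.MP_4c0b8d_co

open Finset

namespace HMs

lemma one_false {S : Finset ℕ} {z : ℕ} (hz : z ∈ S) (hmin : ∀ y ∈ S, z ≤ y)
    {A : Finset (Finset ℕ)} (hA : A ⊆ S.powersetCard 1) (hc : Cross A A) (hs : Shifted S A)
    {E : Finset ℕ} (hE : E ∈ A) (hzE : z ∉ E) : False := by
  obtain ⟨h1, h2⟩ := mem_powersetCard.1 (hA hE)
  obtain ⟨y, rfl⟩ := card_eq_one.1 h2
  have hy : y ∈ S := h1 (mem_singleton_self y)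
  have hne : z ≠ y := fun e => hzE (mem_singleton.2 e)
  have h3 := hs _ hE y (mem_singleton_self y) z hz (lt_of_le_of_ne (hmin y hy) hne) hzE
  refine hc _ h3 _ hE ?_
  simpa using hne

lemma exists_out {S T : Finset ℕ} (h : T.card < S.card) : ∃ i ∈ S, i ∉ T :=
  exists_mem_notMem_of_card_lt_card h

lemma avoid {S : Finset ℕ} {r z w : ℕ} (hr : r + 1 < S.card) (hmax : ∀ y ∈ S, y ≤ w)
    {A : Finset (Finset ℕ)} (hA : A ⊆ S.powersetCard r) (hs : Shifted S A)
    {E : Finset ℕ} (hE : E ∈ A) (hzE : z ∉ E) : ∃ T ∈ A, z ∉ T ∧ w ∉ T := by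
  by_cases hw : w ∈ E
  · have h2 := (mem_powersetCard.1 (hA hE)).2
    obtain ⟨i, hi, hi'⟩ := exists_out (S := S) (T := insert z E)
      (by have := card_insert_le z E; omega)
    rw [mem_insert, not_or] at hi'
    have hiw : i ≠ w := fun e => hi'.2 (e ▸ hw)
    refine ⟨_, hs E hE w hw i hi (lt_of_le_of_ne (hmax i hi) hiw) hi'.2, ?_, ?_⟩
    · simp only [mem_insert, mem_erase, not_or, not_and]
      exact ⟨fun e => hi'.1 e.symm, fun _ => hzE⟩
    · simp only [mem_insert, mem_erase, not_or, not_and]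
      exact ⟨fun e => hiw e.symm, fun e => absurd rfl e⟩
  · exact ⟨E, hE, hzE, hw⟩

/-- The link of the point `w`. -/
def lk (A : Finset (Finset ℕ)) (w : ℕ) : Finset (Finset ℕ) :=
  (A.filter fun E => w ∈ E).image fun E => E.erase w

lemma mem_lk {A : Finset (Finset ℕ)} {w : ℕ} {B : Finset ℕ} :
    B ∈ lk A w ↔ ∃ E ∈ A, w ∈ E ∧ E.erase w = B := by
  simp only [lk, mem_image, mem_filter, and_assoc]

lemma card_lk (A : Finset (Finset ℕ)) (w : ℕ) :
    (lk A w).card = (A.filter fun E => w ∈ E).card := by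
  refine card_image_of_injOn fun E hE F hF e => ?_
  have h1 := (mem_filter.1 (mem_coe.1 hE)).2
  have h2 := (mem_filter.1 (mem_coe.1 hF)).2
  have e' : E.erase w = F.erase w := e
  rw [← insert_erase h1, ← insert_erase h2, e']

lemma lk_sub {S : Finset ℕ} {r w : ℕ} {A : Finset (Finset ℕ)} (hA : A ⊆ S.powersetCard (r + 1)) :
    lk A w ⊆ (S.erase w).powersetCard r := by
  intro B hB
  obtain ⟨E, hE, hw, rfl⟩ := mem_lk.1 hB
  obtain ⟨h1, h2⟩ := mem_powersetCard.1 (hA hE)
  exact mem_powersetCard.2 ⟨erase_subset_erase _ h1, by rw [card_erase_of_mem hw, h2]; rfl⟩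

lemma lk_shifted {S : Finset ℕ} {w : ℕ} {A : Finset (Finset ℕ)} (hs : Shifted S A) :
    Shifted (S.erase w) (lk A w) := by
  intro B hB j hj i hi hij hiB
  obtain ⟨E, hE, hw, rfl⟩ := mem_lk.1 hB
  obtain ⟨hjw, hjE⟩ := mem_erase.1 hj
  obtain ⟨hiw, hiS⟩ := mem_erase.1 hi
  have hiE : i ∉ E := fun h => hiB (mem_erase.2 ⟨hiw, h⟩)
  refine mem_lk.2 ⟨_, hs E hE j hjE i hiS hij hiE,
    mem_insert_of_mem (mem_erase.2 ⟨hjw.symm, hw⟩), ?_⟩
  rw [erase_insert_of_ne hiw, erase_right_comm]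

lemma lk_cross {S : Finset ℕ} {r w : ℕ} (hr : 2 * r ≤ S.card) (hmax : ∀ y ∈ S, y ≤ w)
    {A : Finset (Finset ℕ)} (hA : A ⊆ S.powersetCard r) (hc : Cross A A) (hs : Shifted S A) :
    Cross (lk A w) (lk A w) := by
  intro B hB C hC hd
  obtain ⟨E, hE, hwE, rfl⟩ := mem_lk.1 hB
  obtain ⟨F, hF, hwF, rfl⟩ := mem_lk.1 hC
  have h1 := (mem_powersetCard.1 (hA hE)).2
  have h2 := (mem_powersetCard.1 (hA hF)).2
  have h3 := card_union_add_card_inter E F
  have h4 : 0 < (E ∩ F).card := card_pos.2 ⟨w, mem_inter.2 ⟨hwE, hwF⟩⟩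
  obtain ⟨i, hi, hi'⟩ := exists_out (S := S) (T := E ∪ F) (by omega)
  rw [mem_union, not_or] at hi'
  have hiw : i ≠ w := fun e => hi'.2 (e ▸ hwF)
  refine hc E hE _ (hs F hF w hwF i hi (lt_of_le_of_ne (hmax i hi) hiw) hi'.2) ?_
  rw [disjoint_left]
  intro a haE ha
  rcases mem_insert.1 ha with rfl | ha
  · exact hi'.1 haE
  · exact disjoint_left.1 hd (mem_erase.2 ⟨(mem_erase.1 ha).1, haE⟩) ha

/-- Sets through a point which meet a fixed set. -/
lemma star_meet {S T : Finset ℕ} {t z : ℕ} (hz : z ∈ S) (hT : T ⊆ S) (hzT : z ∉ T)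
    {A : Finset (Finset ℕ)} (hA : A ⊆ S.powersetCard (t + 1)) (h1 : ∀ B ∈ A, z ∈ B)
    (h2 : ∀ B ∈ A, ¬ Disjoint B T) :
    A.card + (S.card - 1 - T.card).choose t ≤ (S.card - 1).choose t := by
  have e1 : (lk A z).card = A.card := by rw [card_lk, filter_true_of_mem h1]
  have hT' : T ⊆ S.erase z := fun a ha => mem_erase.2 ⟨fun e => hzT (e ▸ ha), hT ha⟩
  have e2 : (((S.erase z) \ T).powersetCard t).card = (S.card - 1 - T.card).choose t := by
    rw [card_powersetCard, card_sdiff_of_subset hT', card_erase_of_mem hz]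
  have e3 : ((S.erase z).powersetCard t).card = (S.card - 1).choose t := by
    rw [card_powersetCard, card_erase_of_mem hz]
  have hd : Disjoint (lk A z) (((S.erase z) \ T).powersetCard t) := by
    rw [disjoint_left]
    intro B hB hB'
    obtain ⟨E, hE, -, rfl⟩ := mem_lk.1 hB
    refine h2 E hE (disjoint_left.2 fun a haE haT => ?_)
    have := (mem_powersetCard.1 hB').1 (mem_erase.2 ⟨fun e => hzT (e ▸ haT), haE⟩)
    exact (mem_sdiff.1 this).2 haT
  rw [← e1, ← e2, ← e3, ← card_union_of_disjoint hd]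
  exact card_le_card (union_subset (lk_sub hA) (powersetCard_mono sdiff_subset))

end HMs

open HMs in
theorem hms (h : EKR) : HMS := by
  intro S
  generalize hn : S.card = n
  induction n generalizing S with
  | zero => intro r h1 h2; omega
  | succ m ih =>
    intro r hr1 hr2 z hz hmin A hA hc hs ⟨E, hE, hzE⟩
    by_cases c1 : m + 1 = 2 * r
    · have h1 := h S r hr1 (by omega) A hA hc
      rw [hn] at h1
      rw [show m + 1 - r - 1 = r - 1 by omega, Nat.choose_self]
      omega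
    by_cases c2 : r = 1
    · subst c2
      exact (one_false hz hmin hA hc hs hE hzE).elim
    obtain ⟨t, rfl⟩ : ∃ t, r = t + 2 := ⟨r - 2, by omega⟩
    obtain ⟨d, rfl⟩ : ∃ d, m = 2 * t + 4 + d := ⟨m - (2 * t + 4), by omega⟩
    have hne : S.Nonempty := ⟨z, hz⟩
    obtain ⟨w, hw, hmax⟩ : ∃ w ∈ S, ∀ y ∈ S, y ≤ w := ⟨S.max' hne, max'_mem _ _, le_max' _⟩
    have hzw : z ≠ w := by
      rintro rfl
      have : S ⊆ {z} := fun y hy => mem_singleton.2 (le_antisymm (hmax y hy) (hmin y hy))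
      have := card_le_card this
      rw [card_singleton] at this
      omega
    have hc' : (S.erase w).card = 2 * t + 4 + d := by rw [card_erase_of_mem hw, hn]; rfl
    have hz' : z ∈ S.erase w := mem_erase.2 ⟨hzw, hz⟩
    have hmin' : ∀ y ∈ S.erase w, z ≤ y := fun y hy => hmin y (mem_of_mem_erase hy)
    obtain ⟨T, hT, hzT, hwT⟩ := avoid (w := w) (by omega) hmax hA hs hE hzE
    have sub0 : ∀ F ∈ A, w ∉ F → F ∈ (S.erase w).powersetCard (t + 2) := fun F hF hwF => by
      obtain ⟨h1, h2⟩ := mem_powersetCard.1 (hA hF)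
      exact mem_powersetCard.2 ⟨fun a ha => mem_erase.2 ⟨fun e => hwF (e ▸ ha), h1 ha⟩, h2⟩
    have i0 := ih (S.erase w) hc' (t + 2) (by omega) (by omega) z hz' hmin'
      (A.filter fun F => ¬ w ∈ F)
      (fun F hF => sub0 F (mem_filter.1 hF).1 (mem_filter.1 hF).2)
      (fun F hF F' hF' => hc F (mem_filter.1 hF).1 F' (mem_filter.1 hF').1)
      (fun F hF j hj i hi hij hiF => mem_filter.2
        ⟨hs F (mem_filter.1 hF).1 j hj i (mem_of_mem_erase hi) hij hiF, fun hh => by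
          rcases mem_insert.1 hh with e | e
          · exact (mem_erase.1 hi).1 e.symm
          · exact (mem_filter.1 hF).2 (mem_of_mem_erase e)⟩)
      ⟨T, mem_filter.2 ⟨hT, hwT⟩, hzT⟩
    have l1 : lk A w ⊆ (S.erase w).powersetCard (t + 1) := lk_sub hA
    have l2 := lk_cross (w := w) (by omega) hmax hA hc hs
    have l3 : Shifted (S.erase w) (lk A w) := lk_shifted hs
    have i1 : (lk A w).card + (t + 1 + d).choose t ≤ (2 * t + 3 + d).choose t := by
      by_cases c3 : ∀ B ∈ lk A w, z ∈ B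
      · obtain ⟨t1, t2⟩ := mem_powersetCard.1 (sub0 T hT hwT)
        have := star_meet hz' t1 hzT l1 c3 fun B hB hd => by
          obtain ⟨F, hF, -, rfl⟩ := mem_lk.1 hB
          exact hc F hF T hT (disjoint_left.2 fun a haF haT =>
            disjoint_left.1 hd (mem_erase.2 ⟨fun e => hwT (e ▸ haT), haF⟩) haT)
        rwa [hc', t2, show 2 * t + 4 + d - 1 = 2 * t + 3 + d by omega,
          show 2 * t + 3 + d - (t + 2) = t + 1 + d by omega] at this
      · push Not at c3
        obtain ⟨B, hB, hzB⟩ := c3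
        rcases t with _ | t
        · exact (one_false hz' hmin' l1 l2 l3 hB hzB).elim
        · have := ih (S.erase w) hc' (t + 1 + 1) (by omega) (by omega) z hz' hmin' _ l1 l2 l3
            ⟨B, hB, hzB⟩
          rw [show 2 * (t + 1) + 4 + d - (t + 1 + 1) - 1 = t + 1 + 1 + d + 1 by omega,
            show 2 * (t + 1) + 4 + d - 1 = 2 * (t + 1) + 3 + d by omega, Nat.add_sub_cancel,
            Nat.choose_succ_succ'] at this
          have hp : 0 < (t + 1 + 1 + d).choose t := Nat.choose_pos (by omega)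
          omega
    have e0 := card_filter_add_card_filter_not (s := A) (fun F => w ∈ F)
    rw [card_lk] at i1
    rw [show 2 * t + 4 + d - (t + 2) - 1 = t + 1 + d by omega,
      show 2 * t + 4 + d - 1 = 2 * t + 3 + d by omega, show t + 2 - 1 = t + 1 by omega] at i0
    rw [show 2 * t + 4 + d + 1 - (t + 2) - 1 = t + 1 + d + 1 by omega,
      show 2 * t + 4 + d + 1 - 1 = 2 * t + 3 + d + 1 by omega, show t + 2 - 1 = t + 1 by omega,
      Nat.choose_succ_succ', Nat.choose_succ_succ']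
    omega

end Pool.Agent.P.MP_4c0b8d_co
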