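import Pool.Agent.P.MP_4c0b8d_co.Iface

namespace Pool.Agent.P.MP_4c0b8d_co

open Finset

namespace Hil

variable {n : ℕ}

/-- The number of members of `P` above `E` in colex order. -/
def rk (P : Finset (Finset (Fin n))) (E : Finset (Fin n)) : ℕ :=
  (P.filter (fun E' => toColex E < toColex E')).card

/-- The `a` largest members of `P`. -/
def top (P : Finset (Finset (Fin n))) (a : ℕ) : Finset (Finset (Fin n)) :=
  P.filter (fun E => rk P E < a)

lemma rk_lt {P : Finset (Finset (Fin n))} {E E' : Finset (Fin n)} (hE : E' ∈ P)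
    (h : toColex E < toColex E') : rk P E' < rk P E := by
  refine card_lt_card ⟨fun x hx => ?_, fun hh => ?_⟩
  · exact mem_filter.2 ⟨(mem_filter.1 hx).1, h.trans (mem_filter.1 hx).2⟩
  · exact lt_irrefl _ (mem_filter.1 (hh (mem_filter.2 ⟨hE, h⟩))).2

lemma rk_inj (P : Finset (Finset (Fin n))) : Set.InjOn (rk P) P := by
  intro x hx y hy e
  rcases lt_trichotomy (toColex x) (toColex y) with h | h | h
  · have := rk_lt hy h; omega
  · exact toColex_inj.1 h
  · have := rk_lt hx h; omega

lemma rk_image (P : Finset (Finset (Fin n))) : P.image (rk P) = range P.card := by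
  refine eq_of_subset_of_card_le (fun x hx => ?_) (by rw [card_image_of_injOn (rk_inj P)]; simp)
  obtain ⟨E, hE, rfl⟩ := mem_image.1 hx
  refine mem_range.2 (card_lt_card ⟨filter_subset _ _, fun hh => ?_⟩)
  exact lt_irrefl _ (mem_filter.1 (hh hE)).2

lemma card_top (P : Finset (Finset (Fin n))) {a : ℕ} (h : a ≤ P.card) : (top P a).card = a := by
  have h1 : (top P a).image (rk P) = range a := by
    ext x
    constructor
    · intro hx
      obtain ⟨E, hE, rfl⟩ := mem_image.1 hx
      exact mem_range.2 (mem_filter.1 hE).2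
    · intro hx
      have : x ∈ P.image (rk P) := by
        rw [rk_image]; exact mem_range.2 ((mem_range.1 hx).trans_le h)
      obtain ⟨E, hE, rfl⟩ := mem_image.1 this
      exact mem_image_of_mem _ (mem_filter.2 ⟨hE, mem_range.1 hx⟩)
  have h2 : top P a ⊆ P := filter_subset _ _
  rw [← card_image_of_injOn ((rk_inj P).mono (coe_subset.2 h2)), h1, card_range]

lemma top_of_upper {P U : Finset (Finset (Fin n))} (hU : U ⊆ P)
    (h : ∀ E ∈ U, ∀ E' ∈ P, toColex E < toColex E' → E' ∈ U) : top P U.card = U := by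
  refine (eq_of_subset_of_card_le (fun E hE => ?_) (card_top P (card_le_card hU)).le).symm
  refine mem_filter.2 ⟨hU hE, card_lt_card ⟨fun x hx => ?_, fun hh => ?_⟩⟩
  · exact h E hE x (mem_filter.1 hx).1 (mem_filter.1 hx).2
  · exact lt_irrefl _ (mem_filter.1 (hh hE)).2

lemma init_iter {C : Finset (Finset (Fin n))} (k : ℕ) : ∀ {r : ℕ}, Colex.IsInitSeg C r →
    Colex.IsInitSeg (shadow^[k] C) (r - k) := by
  induction k generalizing C with
  | zero => intro r h; simpa using h
  | succ k ih =>
    intro r h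
    have h1 : Colex.IsInitSeg (shadow C) (r - 1) := by convert! h.shadow
    have := ih h1
    rw [Function.iterate_succ_apply, show r - (k + 1) = r - 1 - k by omega]
    exact this

lemma compl_lt {s t : Finset (Fin n)} (h : toColex t < toColex sᶜ) : toColex s < toColex tᶜ := by
  rw [Colex.toColex_lt_toColex_iff_exists_forall_lt] at h ⊢
  obtain ⟨a, h1, h2, h3⟩ := h
  exact ⟨a, mem_compl.2 h2, mem_compl.1 h1, fun b hb hb' =>
    h3 b (by simpa using hb') (by simpa using hb)⟩

lemma fin_cross {r : ℕ} (hr : 2 * r ≤ n) {A B : Finset (Finset (Fin n))}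
    (hA : A ⊆ univ.powersetCard r) (hB : B ⊆ univ.powersetCard r)
    (hc : ∀ a ∈ A, ∀ b ∈ B, ¬ Disjoint a b) :
    ∀ a ∈ top (n := n) (univ.powersetCard r) A.card,
      ∀ b ∈ top (n := n) (univ.powersetCard r) B.card, ¬ Disjoint a b := by
  intro a ha b hb hd
  set P : Finset (Finset (Fin n)) := univ.powersetCard r with hP
  have cc : ∀ E ∈ P, Eᶜ.card = n - r := fun E hE => by
    rw [card_compl, Fintype.card_fin, (mem_powersetCard.1 hE).2]
  have hC : Colex.IsInitSeg ((top P A.card).image compl) (n - r) := by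
    constructor
    · intro s hs
      obtain ⟨E, hE, rfl⟩ := mem_image.1 (mem_coe.1 hs)
      exact cc E (mem_filter.1 hE).1
    · intro s t hs ⟨h1, h2⟩
      obtain ⟨E, hE, rfl⟩ := mem_image.1 hs
      have h3 : tᶜ ∈ P := mem_powersetCard.2 ⟨subset_univ _, by
        rw [card_compl, Fintype.card_fin, h2]; omega⟩
      exact mem_image.2 ⟨tᶜ, mem_filter.2 ⟨h3, (rk_lt h3 (compl_lt h1)).trans
        (mem_filter.1 hE).2⟩, compl_compl t⟩
  have hA' : ((A.image compl : Finset (Finset (Fin n))) : Set (Finset (Fin n))).Sized (n - r) := by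
    intro s hs
    obtain ⟨E, hE, rfl⟩ := mem_image.1 (mem_coe.1 hs)
    exact cc E (hA hE)
  have kk := iterated_kk (k := n - 2 * r) hA' (by
    rw [card_image_of_injective _ compl_injective, card_image_of_injective _ compl_injective,
      card_top P (card_le_card hA)]) hC
  have hD := init_iter (n - 2 * r) hC
  rw [show n - r - (n - 2 * r) = r by omega] at hD
  have d1 : Disjoint B (shadow^[n - 2 * r] (A.image compl)) := by
    refine disjoint_left.2 fun E hE hE' => ?_
    obtain ⟨s, hs, h1, _⟩ := mem_shadow_iterate_iff_exists_mem_card_add.1 hE'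
    obtain ⟨G, hG, rfl⟩ := mem_image.1 hs
    exact hc G hG E hE (disjoint_left.2 fun x hx hx' => mem_compl.1 (h1 hx') hx)
  have d2 : B ∪ shadow^[n - 2 * r] (A.image compl) ⊆ P := by
    refine union_subset hB fun E hE => mem_powersetCard.2 ⟨subset_univ _, ?_⟩
    obtain ⟨s, hs, _, h2⟩ := mem_shadow_iterate_iff_exists_mem_card_add.1 hE
    have : s.card = n - r := hA' (mem_coe.2 hs)
    omega
  have d3 := card_le_card d2
  rw [card_union_of_disjoint d1] at d3
  have hbP := (mem_filter.1 hb).1
  have hbD : b ∈ shadow^[n - 2 * r] ((top P A.card).image compl) := by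
    refine mem_shadow_iterate_iff_exists_mem_card_add.2 ⟨aᶜ, mem_image_of_mem _ ha,
      fun x hx => mem_compl.2 fun hx' => disjoint_left.1 hd hx' hx, ?_⟩
    rw [cc a (mem_filter.1 ha).1, (mem_powersetCard.1 hbP).2]
    omega
  have d4 : P ⊆ P.filter (fun E' => toColex b < toColex E') ∪
      shadow^[n - 2 * r] ((top P A.card).image compl) := by
    intro E hE
    rcases lt_trichotomy (toColex b) (toColex E) with h | h | h
    · exact mem_union_left _ (mem_filter.2 ⟨hE, h⟩)
    · exact mem_union_right _ (toColex_inj.1 h ▸ hbD)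
    · exact mem_union_right _ (hD.2 hbD ⟨h, (mem_powersetCard.1 hE).2⟩)
  have d5 := (card_le_card d4).trans (card_union_le _ _)
  have d6 : rk P b < B.card := (mem_filter.1 hb).2
  unfold rk at d6
  omega

/-- The preimage of a set under the enumeration of the ground set. -/
def pull (S E : Finset ℕ) : Finset (Fin S.card) :=
  univ.filter (fun i => S.orderEmbOfFin rfl i ∈ E)

/-- The image of a set under the enumeration of the ground set. -/
def push (S : Finset ℕ) (E : Finset (Fin S.card)) : Finset ℕ := E.image (S.orderEmbOfFin rfl)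

lemma push_inj (S : Finset ℕ) : Function.Injective (push S) :=
  image_injective (S.orderEmbOfFin rfl).injective

lemma push_pull {S E : Finset ℕ} (h : E ⊆ S) : push S (pull S E) = E := by
  ext x
  simp only [push, pull, mem_image, mem_filter, mem_univ, true_and]
  constructor
  · rintro ⟨i, hi, rfl⟩; exact hi
  · intro hx
    have : x ∈ Set.range (S.orderEmbOfFin rfl) := by
      rw [range_orderEmbOfFin]; exact h hx
    obtain ⟨i, rfl⟩ := this
    exact ⟨i, hx, rfl⟩

lemma card_push (S : Finset ℕ) (E : Finset (Fin S.card)) : (push S E).card = E.card :=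
  card_image_of_injective _ (S.orderEmbOfFin rfl).injective

lemma push_mem {S : Finset ℕ} {r : ℕ} {E : Finset (Fin S.card)} (h : E ∈ univ.powersetCard r) :
    push S E ∈ S.powersetCard r := by
  refine mem_powersetCard.2 ⟨fun x hx => ?_, (card_push S E).trans (mem_powersetCard.1 h).2⟩
  obtain ⟨i, _, rfl⟩ := mem_image.1 hx
  exact orderEmbOfFin_mem _ _ _

lemma pull_mem {S E : Finset ℕ} {r : ℕ} (h : E ∈ S.powersetCard r) :
    pull S E ∈ univ.powersetCard r := by
  refine mem_powersetCard.2 ⟨subset_univ _, ?_⟩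
  rw [← card_push, push_pull (mem_powersetCard.1 h).1, (mem_powersetCard.1 h).2]

lemma push_disj {S : Finset ℕ} {E E' : Finset (Fin S.card)} :
    Disjoint (push S E) (push S E') ↔ Disjoint E E' :=
  disjoint_image (S.orderEmbOfFin rfl).injective

lemma pull_fam {S : Finset ℕ} {r : ℕ} {A : Finset (Finset ℕ)} (h : A ⊆ S.powersetCard r) :
    A.image (pull S) ⊆ univ.powersetCard r ∧ (A.image (pull S)).card = A.card := by
  refine ⟨fun x hx => ?_, card_image_of_injOn fun x hx y hy e => ?_⟩
  · obtain ⟨E, hE, rfl⟩ := mem_image.1 hx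
    exact pull_mem (h hE)
  · rw [← push_pull (mem_powersetCard.1 (h hx)).1, ← push_pull (mem_powersetCard.1 (h hy)).1, e]

lemma pull_cross {S : Finset ℕ} {r : ℕ} {A B : Finset (Finset ℕ)} (hA : A ⊆ S.powersetCard r)
    (hB : B ⊆ S.powersetCard r) (h : Cross A B) :
    ∀ a ∈ A.image (pull S), ∀ b ∈ B.image (pull S), ¬ Disjoint a b := by
  intro a ha b hb hd
  obtain ⟨E, hE, rfl⟩ := mem_image.1 ha
  obtain ⟨G, hG, rfl⟩ := mem_image.1 hb
  have := push_disj.2 hd
  rw [push_pull (mem_powersetCard.1 (hA hE)).1, push_pull (mem_powersetCard.1 (hB hG)).1] at this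
  exact h E hE G hG this

lemma card_star {m r : ℕ} (x : Fin m) (hr : 1 ≤ r) :
    ((univ.powersetCard r).filter (fun E : Finset (Fin m) => x ∈ E)).card =
      (m - 1).choose (r - 1) := by
  have e : m - 1 = (univ.erase x).card := by simp
  rw [e, ← card_powersetCard]
  refine card_bij' (fun E _ => E.erase x) (fun E _ => insert x E) ?_ ?_ ?_ ?_
  · intro E hE
    obtain ⟨a, b⟩ := mem_filter.1 hE
    exact mem_powersetCard.2 ⟨erase_subset_erase _ (subset_univ _), by
      rw [card_erase_of_mem b, (mem_powersetCard.1 a).2]⟩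
  · intro E hE
    obtain ⟨a, b⟩ := mem_powersetCard.1 hE
    refine mem_filter.2 ⟨mem_powersetCard.2 ⟨subset_univ _, ?_⟩, mem_insert_self _ _⟩
    rw [card_insert_of_notMem (fun hh => notMem_erase _ _ (a hh)), b]
    omega
  · intro E hE
    exact insert_erase (mem_filter.1 hE).2
  · intro E hE
    exact erase_insert fun hh => notMem_erase _ _ ((mem_powersetCard.1 hE).1 hh)

theorem ekr : EKR := by
  intro S r h1 h2 A hA hc
  obtain ⟨a, b⟩ := pull_fam hA
  rw [← b]
  refine erdos_ko_rado (fun x hx y hy => pull_cross hA hA hc x hx y hy)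
    (fun x hx => (mem_powersetCard.1 (a hx)).2) (by omega)

theorem hilton : HILTON := by
  intro S r h1 h2
  let x : Fin S.card := ⟨S.card - 1, by omega⟩
  have cP : ((univ : Finset (Fin S.card)).powersetCard r).card = S.card.choose r := by simp
  refine ⟨S.orderEmbOfFin rfl x, orderEmbOfFin_mem _ _ _,
    fun a => (top (univ.powersetCard r) a).image (push S), ?_, ?_, ?_, ?_, ?_⟩
  · intro a E hE
    obtain ⟨G, hG, rfl⟩ := mem_image.1 hE
    exact push_mem (mem_filter.1 hG).1
  · intro a ha
    rw [card_image_of_injective _ (push_inj S), card_top _ (cP ▸ ha)]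
  · intro a b hab
    exact image_subset_image fun E hE =>
      mem_filter.2 ⟨(mem_filter.1 hE).1, (mem_filter.1 hE).2.trans_le hab⟩
  · have := top_of_upper (P := univ.powersetCard r)
      (filter_subset (fun E : Finset (Fin S.card) => x ∈ E) _) (by
        intro E hE E' hE' h
        refine mem_filter.2 ⟨hE', ?_⟩
        by_contra hx
        obtain ⟨a, _, _, h3⟩ := Colex.toColex_lt_toColex_iff_exists_forall_lt.1 h
        have h4 : (x : ℕ) < a := h3 x (mem_filter.1 hE).2 hx
        have := a.2
        simp only [x] at h4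
        omega)
    rw [card_star x h1] at this
    simp only
    rw [this]
    ext E
    constructor
    · intro hE
      obtain ⟨G, hG, rfl⟩ := mem_image.1 hE
      exact mem_filter.2 ⟨push_mem (mem_filter.1 hG).1, mem_image_of_mem _ (mem_filter.1 hG).2⟩
    · intro hE
      obtain ⟨a, b⟩ := mem_filter.1 hE
      exact mem_image.2 ⟨pull S E, mem_filter.2 ⟨pull_mem a, mem_filter.2 ⟨mem_univ _, b⟩⟩,
        push_pull (mem_powersetCard.1 a).1⟩
  · intro A B hA hB hc a ha b hb hd
    obtain ⟨E, hE, rfl⟩ := mem_image.1 ha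
    obtain ⟨G, hG, rfl⟩ := mem_image.1 hb
    obtain ⟨a1, a2⟩ := pull_fam hA
    obtain ⟨b1, b2⟩ := pull_fam hB
    exact fin_cross h2 a1 b1 (pull_cross hA hB hc) E (a2 ▸ hE) G (b2 ▸ hG) (push_disj.1 hd)

end Hil

end Pool.Agent.P.MP_4c0b8d_co
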