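import Pool.Agent.P.MP_4c0b8d_co.Iface

namespace Pool.Agent.P.MP_4c0b8d_co

open Finset
open scoped FinsetFamily

namespace Hilton

section Top

variable {α β : Type} [LinearOrder β] (k : α → β) (T : Finset α)

/-- The number of larger members. -/
def rk (E : α) : ℕ := (T.filter fun E' => k E < k E').card

/-- The `a` largest members. -/
def top (a : ℕ) : Finset α := T.filter fun E => rk k T E < a

variable {k T}

lemma rk_lt {E E' : α} (h' : E' ∈ T) (h : k E < k E') : rk k T E' < rk k T E := by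
  refine card_lt_card ⟨fun x hx => ?_, fun hs => ?_⟩
  · rw [mem_filter] at hx ⊢
    exact ⟨hx.1, h.trans hx.2⟩
  · have := hs (mem_filter.2 ⟨h', h⟩)
    exact lt_irrefl _ (mem_filter.1 this).2

lemma rk_lt_card {E : α} (h : E ∈ T) : rk k T E < T.card := by
  refine card_lt_card ⟨filter_subset _ _, fun hs => ?_⟩
  exact lt_irrefl _ (mem_filter.1 (hs h)).2

lemma rk_injOn (hk : Function.Injective k) : Set.InjOn (rk k T) T := by
  intro E hE E' hE' h
  rcases lt_trichotomy (k E) (k E') with h1 | h1 | h1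
  · exact absurd h (rk_lt hE' h1).ne'
  · exact hk h1
  · exact absurd h (rk_lt hE h1).ne

lemma card_top (hk : Function.Injective k) {a : ℕ} (ha : a ≤ T.card) : (top k T a).card = a := by
  have h1 : T.image (rk k T) = range T.card := by
    refine eq_of_subset_of_card_le (fun x hx => ?_) ?_
    · obtain ⟨E, hE, rfl⟩ := mem_image.1 hx
      exact mem_range.2 (rk_lt_card hE)
    · rw [card_image_of_injOn (rk_injOn hk), card_range]
  have h2 : (top k T a).image (rk k T) = range a := by
    ext x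
    rw [mem_image, mem_range]
    constructor
    · rintro ⟨E, hE, rfl⟩
      exact (mem_filter.1 hE).2
    · intro hx
      have : x ∈ T.image (rk k T) := by rw [h1, mem_range]; omega
      obtain ⟨E, hE, rfl⟩ := mem_image.1 this
      exact ⟨E, mem_filter.2 ⟨hE, hx⟩, rfl⟩
  have h3 := card_image_of_injOn ((rk_injOn (T := T) hk).mono
    (show ((top k T a : Finset α) : Set α) ⊆ T from fun x hx => (mem_filter.1 hx).1))
  rw [← h3, h2, card_range]

lemma top_up {a : ℕ} {E E' : α} (h : E ∈ top k T a) (h' : E' ∈ T) (hl : k E < k E') :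
    E' ∈ top k T a :=
  mem_filter.2 ⟨h', (rk_lt h' hl).trans (mem_filter.1 h).2⟩

lemma top_eq (hk : Function.Injective k) {U : Finset α} (hU : U ⊆ T)
    (hup : ∀ E ∈ U, ∀ E' ∈ T, k E < k E' → E' ∈ U) : top k T U.card = U := by
  symm
  refine eq_of_subset_of_card_le (fun E hE => mem_filter.2 ⟨hU hE, ?_⟩)
    (card_top hk (card_le_card hU)).le
  refine card_lt_card ⟨fun x hx => hup E hE x (mem_filter.1 hx).1 (mem_filter.1 hx).2,
    fun hs => ?_⟩
  exact lt_irrefl _ (mem_filter.1 (hs hE)).2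

lemma not_mem_top (hk : Function.Injective k) {D : Finset α} {b : ℕ}
    (hd : ∀ E ∈ D, ∀ E' ∈ T, k E' < k E → E' ∈ D) (hb : D.card + b ≤ T.card) {E : α}
    (hE : E ∈ D) : E ∉ top k T b := by
  classical
  intro h
  have h1 : T ⊆ D ∪ T.filter fun E' => k E < k E' := by
    intro x hx
    rcases lt_trichotomy (k x) (k E) with h1 | h1 | h1
    · exact mem_union_left _ (hd E hE x hx h1)
    · exact mem_union_left _ (hk h1 ▸ hE)
    · exact mem_union_right _ (mem_filter.2 ⟨hx, h1⟩)
  have h2 := (card_le_card h1).trans (card_union_le _ _)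
  have h3 : rk k T E < b := (mem_filter.1 h).2
  unfold rk at h3
  omega

end Top

section FinN

variable {n : ℕ}

lemma compl_lt {s t : Finset (Fin n)} (h : toColex s < toColex t) : toColex tᶜ < toColex sᶜ := by
  rw [Colex.toColex_lt_toColex_iff_exists_forall_lt] at h ⊢
  obtain ⟨a, h1, h2, h3⟩ := h
  exact ⟨a, mem_compl.2 h2, fun h => mem_compl.1 h h1,
    fun b hb hb' => h3 b (by simpa using hb') (mem_compl.1 hb)⟩

lemma initSeg_iter {A : Finset (Finset (Fin n))} {r : ℕ} (h : Colex.IsInitSeg A r) (k : ℕ) :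
    Colex.IsInitSeg (∂^[k] A) (r - k) := by
  induction k with
  | zero => simpa using h
  | succ k ih =>
    rw [Function.iterate_succ_apply', ← Nat.sub_sub]
    convert! ih.shadow

/-- All `r`-subsets. -/
abbrev TT (n r : ℕ) : Finset (Finset (Fin n)) := powersetCard r univ

lemma mem_TT {r : ℕ} {E : Finset (Fin n)} : E ∈ TT n r ↔ E.card = r := by
  simp [TT, mem_powersetCard]

lemma kinj : Function.Injective (toColex : Finset (Fin n) → Colex (Finset (Fin n))) :=
  toColex.injective

lemma cross_top {r : ℕ} (hr : 2 * r ≤ n) {A B : Finset (Finset (Fin n))} (hA : A ⊆ TT n r)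
    (hB : B ⊆ TT n r) (hAB : ∀ a ∈ A, ∀ b ∈ B, ¬ Disjoint a b) :
    ∀ E ∈ top toColex (TT n r) A.card, ∀ F ∈ top toColex (TT n r) B.card, ¬ Disjoint E F := by
  intro E hE F hF hEF
  set L := top toColex (TT n r) A.card with hL
  have hLT : ∀ x ∈ L, x.card = r := fun x hx => mem_TT.1 (mem_filter.1 hx).1
  have hC : Colex.IsInitSeg Lᶜˢ (n - r) := by
    refine ⟨fun x hx => ?_, fun s t hs ht => ?_⟩
    · have := hLT _ (mem_compls.1 hx)
      rw [card_compl, Fintype.card_fin] at this
      have h2 := card_le_univ x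
      rw [Fintype.card_fin] at h2
      omega
    · refine mem_compls.2 (top_up (mem_compls.1 hs) (mem_TT.2 ?_) (compl_lt ht.1))
      rw [card_compl, Fintype.card_fin, ht.2]
      omega
  have hAs : ((Aᶜˢ : Finset (Finset (Fin n))) : Set (Finset (Fin n))).Sized (n - r) := by
    intro x hx
    have := mem_TT.1 (hA (mem_compls.1 hx))
    rw [card_compl, Fintype.card_fin] at this
    have h2 := card_le_univ x
    rw [Fintype.card_fin] at h2
    omega
  have hcard : (Lᶜˢ).card ≤ (Aᶜˢ).card := by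
    rw [card_compls, card_compls, hL, card_top kinj (card_le_card hA)]
  have hkk := iterated_kk (k := n - 2 * r) hAs hcard hC
  have hS := initSeg_iter hC (n - 2 * r)
  rw [show n - r - (n - 2 * r) = r by omega] at hS
  have hdis : Disjoint B (∂^[n - 2 * r] Aᶜˢ) := disjoint_right.2 fun x hx hxB => by
    simp only [mem_shadow_iterate_iff_exists_sdiff, mem_compls] at hx
    obtain ⟨C, hC, hxC, _⟩ := hx
    exact hAB _ hC _ hxB (disjoint_of_subset_right hxC disjoint_compl_left)
  have hsub : B ∪ ∂^[n - 2 * r] Aᶜˢ ⊆ TT n r := by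
    refine union_subset hB fun x hx => mem_TT.2 ?_
    have := hAs.shadow_iterate (k := n - 2 * r) hx
    omega
  have h1 := card_le_card hsub
  rw [card_union_of_disjoint hdis] at h1
  refine not_mem_top kinj (D := ∂^[n - 2 * r] Lᶜˢ)
    (fun x hx y hy hl => hS.2 hx ⟨hl, mem_TT.1 hy⟩) (by omega) ?_ hF
  rw [mem_shadow_iterate_iff_exists_sdiff]
  have hFE : F ⊆ Eᶜ := fun x hx => mem_compl.2 fun h => disjoint_left.1 hEF h hx
  refine ⟨Eᶜ, mem_compls.2 (by simpa using hE), hFE, ?_⟩
  rw [card_sdiff_of_subset hFE, card_compl, Fintype.card_fin, hLT E hE,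
    mem_TT.1 (mem_filter.1 hF).1]
  omega

lemma card_star {r : ℕ} (hr : 1 ≤ r) (x : Fin n) :
    ((TT n r).filter fun E => x ∈ E).card = (n - 1).choose (r - 1) := by
  have h : ((univ : Finset (Fin n)).erase x).card = n - 1 := by
    rw [card_erase_of_mem (mem_univ x), card_univ, Fintype.card_fin]
  rw [← h, ← card_powersetCard]
  refine card_bij' (fun E _ => E.erase x) (fun E _ => insert x E) ?_ ?_ ?_ ?_
  · intro E hE
    rw [mem_filter] at hE
    rw [mem_powersetCard]
    exact ⟨erase_subset_erase _ (subset_univ _), by rw [card_erase_of_mem hE.2, mem_TT.1 hE.1]⟩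
  · intro E hE
    rw [mem_powersetCard] at hE
    have hx : x ∉ E := fun h => by simpa using hE.1 h
    refine mem_filter.2 ⟨mem_TT.2 ?_, mem_insert_self _ _⟩
    rw [card_insert_of_notMem hx, hE.2]
    omega
  · intro E hE
    exact insert_erase (mem_filter.1 hE).2
  · intro E hE
    rw [mem_powersetCard] at hE
    exact erase_insert fun h => by simpa using hE.1 h

lemma top_star {r : ℕ} (hr : 1 ≤ r) (x : Fin n) (hx : ∀ y, y ≤ x) :
    top toColex (TT n r) ((n - 1).choose (r - 1)) = (TT n r).filter fun E => x ∈ E := by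
  rw [← card_star hr x]
  refine top_eq kinj (filter_subset _ _) fun E hE E' hE' hl => mem_filter.2 ⟨hE', ?_⟩
  by_contra h
  rw [Colex.toColex_lt_toColex_iff_exists_forall_lt] at hl
  obtain ⟨a, -, -, h3⟩ := hl
  exact absurd (h3 x (mem_filter.1 hE).2 h) (not_lt.2 (hx a))

end FinN

section Transfer

variable (S : Finset ℕ)

/-- The transfer map. -/
noncomputable def ph (E : Finset (Fin S.card)) : Finset ℕ :=
  E.map (S.orderEmbOfFin rfl).toEmbedding

variable {S}

lemma ph_inj : Function.Injective (ph S) := map_injective _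

lemma card_ph (E : Finset (Fin S.card)) : (ph S E).card = E.card := card_map _

lemma ph_subset (E : Finset (Fin S.card)) : ph S E ⊆ S := by
  intro x hx
  obtain ⟨a, -, rfl⟩ := mem_map.1 hx
  exact orderEmbOfFin_mem S rfl a

lemma disjoint_ph {E F : Finset (Fin S.card)} : Disjoint (ph S E) (ph S F) ↔ Disjoint E F :=
  disjoint_map _

lemma exists_ph {X : Finset ℕ} (h : X ⊆ S) : ∃ E, ph S E = X := by
  refine ⟨univ.filter fun a => S.orderEmbOfFin rfl a ∈ X, ?_⟩
  ext x
  rw [ph, mem_map]
  constructor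
  · rintro ⟨a, ha, rfl⟩
    exact (mem_filter.1 ha).2
  · intro hx
    have : x ∈ Set.range (S.orderEmbOfFin rfl) := by
      rw [range_orderEmbOfFin]; exact h hx
    obtain ⟨a, rfl⟩ := this
    exact ⟨a, mem_filter.2 ⟨mem_univ _, hx⟩, rfl⟩

lemma exists_fam {r : ℕ} {A : Finset (Finset ℕ)} (h : A ⊆ S.powersetCard r) :
    ∃ A' ⊆ TT S.card r, A'.image (ph S) = A := by
  refine ⟨(TT S.card r).filter fun E => ph S E ∈ A, filter_subset _ _, ?_⟩
  ext X
  rw [mem_image]
  constructor
  · rintro ⟨E, hE, rfl⟩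
    exact (mem_filter.1 hE).2
  · intro hX
    have h1 := mem_powersetCard.1 (h hX)
    obtain ⟨E, rfl⟩ := exists_ph h1.1
    exact ⟨E, mem_filter.2 ⟨mem_TT.2 (by rw [← card_ph, h1.2]), hX⟩, rfl⟩

end Transfer

end Hilton

open Hilton

theorem ekr : EKR := by
  intro S r _ hr A hA hAA
  obtain ⟨A', h1, rfl⟩ := exists_fam hA
  rw [card_image_of_injective _ ph_inj]
  refine erdos_ko_rado (fun a ha b hb hab => ?_) (fun a ha => mem_TT.1 (h1 ha)) (by omega)
  exact hAA _ (mem_image_of_mem _ ha) _ (mem_image_of_mem _ hb) (disjoint_ph.2 hab)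

theorem hilton : HILTON := by
  intro S r hr1 hr
  have hn : 0 < S.card := by omega
  set x : Fin S.card := ⟨S.card - 1, by omega⟩ with hx
  have hxm : ∀ y : Fin S.card, y ≤ x := fun y => by
    have := y.2
    rw [Fin.le_def]
    simp only [hx]
    omega
  refine ⟨S.orderEmbOfFin rfl x, orderEmbOfFin_mem S rfl x,
    fun a => (top toColex (TT S.card r) a).image (ph S), ?_, ?_, ?_, ?_, ?_⟩
  · intro a X hX
    obtain ⟨E, hE, rfl⟩ := mem_image.1 hX
    exact mem_powersetCard.2 ⟨ph_subset E, by rw [card_ph, mem_TT.1 (mem_filter.1 hE).1]⟩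
  · intro a ha
    rw [card_image_of_injective _ ph_inj, card_top kinj]
    rwa [card_powersetCard, card_univ, Fintype.card_fin]
  · intro a b hab
    refine image_subset_image fun E hE => ?_
    exact mem_filter.2 ⟨(mem_filter.1 hE).1, (mem_filter.1 hE).2.trans_le hab⟩
  · show (top toColex (TT S.card r) _).image (ph S) = _
    rw [top_star hr1 x hxm]
    ext X
    rw [mem_image, mem_filter]
    constructor
    · rintro ⟨E, hE, rfl⟩
      rw [mem_filter] at hE
      exact ⟨mem_powersetCard.2 ⟨ph_subset E, by rw [card_ph, mem_TT.1 hE.1]⟩,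
        mem_map_of_mem _ hE.2⟩
    · rintro ⟨h1, h2⟩
      rw [mem_powersetCard] at h1
      obtain ⟨E, rfl⟩ := exists_ph h1.1
      refine ⟨E, mem_filter.2 ⟨mem_TT.2 (by rw [← card_ph, h1.2]), ?_⟩, rfl⟩
      exact (mem_map' _).1 h2
  · intro A B hA hB hAB
    obtain ⟨A', h1, rfl⟩ := exists_fam hA
    obtain ⟨B', h2, rfl⟩ := exists_fam hB
    rw [card_image_of_injective _ ph_inj, card_image_of_injective _ ph_inj]
    intro X hX Y hY hXY
    obtain ⟨E, hE, rfl⟩ := mem_image.1 hX
    obtain ⟨F, hF, rfl⟩ := mem_image.1 hY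
    refine cross_top hr h1 h2 (fun a ha b hb hab => ?_) E hE F hF (disjoint_ph.1 hXY)
    exact hAB _ (mem_image_of_mem _ ha) _ (mem_image_of_mem _ hb) (disjoint_ph.2 hab)

end Pool.Agent.P.MP_4c0b8d_co
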