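import Pool.Agent.P.MP_4c0b8d_co.Atom

namespace Pool.Agent.P.MP_4c0b8d_co

open Finset

/-- A family is closed under replacing an element by a smaller one of the ground set. -/
def Shifted (S : Finset ℕ) (A : Finset (Finset ℕ)) : Prop :=
  ∀ E ∈ A, ∀ j ∈ E, ∀ i ∈ S, i < j → i ∉ E → insert i (E.erase j) ∈ A

/-- Hilton-Milner for shifted families. -/
def HMS : Prop := ∀ (S : Finset ℕ) (r : ℕ), 1 ≤ r → 2 * r ≤ S.card →
  ∀ z ∈ S, (∀ y ∈ S, z ≤ y) → ∀ A : Finset (Finset ℕ), A ⊆ S.powersetCard r → Cross A A →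
    Shifted S A → (∃ E ∈ A, z ∉ E) →
    A.card + (S.card - r - 1).choose (r - 1) ≤ (S.card - 1).choose (r - 1) + 1

/-- Hilton-Milner for two nonempty cross-intersecting families. -/
def HMC : Prop := ∀ (S : Finset ℕ) (q : ℕ), 2 * q ≤ S.card →
  ∀ A B : Finset (Finset ℕ), A ⊆ S.powersetCard q → B ⊆ S.powersetCard q → A.Nonempty →
    B.Nonempty → Cross A B →
    A.card + B.card + (S.card - q).choose q ≤ S.card.choose q + 1

/-- All pairs of a `k`-subset of `S1` and an `l`-subset of `S2`. -/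
def Om (S1 : Finset ℕ) (k : ℕ) (S2 : Finset ℕ) (l : ℕ) : Finset (Finset ℕ × Finset ℕ) :=
  S1.powersetCard k ×ˢ S2.powersetCard l

/-- The bound for two cross-intersecting families of pairs. -/
def bigW (m1 p m2 q : ℕ) : ℤ :=
  (m1.choose p : ℤ) * (m2.choose (q + 1) : ℤ)
    - ((m1 - p - 1).choose p : ℤ) * ((m2 - q).choose (q + 1) : ℤ)
    + (if p = 0 then (m1 : ℤ) else 1)

/-- Cross-intersecting families of pairs of types `(p, q+1)` and `(p+1, q)`. -/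
def PROD : Prop := ∀ (S1 S2 : Finset ℕ) (p q : ℕ), 2 * p + 1 ≤ S1.card → 2 * q + 1 ≤ S2.card →
  ∀ U R : Finset (Finset ℕ × Finset ℕ), U ⊆ Om S1 p S2 (q + 1) → R ⊆ Om S1 (p + 1) S2 q →
    U.Nonempty → R.Nonempty → (∀ u ∈ U, ∀ v ∈ R, ¬ (Disjoint u.1 v.1 ∧ Disjoint u.2 v.2)) →
    (U.card + R.card : ℤ) ≤ max (bigW S1.card p S2.card q) (bigW S2.card q S1.card p)

/-- The case of a small projection. -/
def CASEA : Prop := ∀ (S1 S2 : Finset ℕ) (k l : ℕ), 1 ≤ k → 1 ≤ l → 2 * k ≤ S1.card →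
  2 * l ≤ S2.card → ∀ F : Finset (Finset ℕ × Finset ℕ), F ⊆ Om S1 k S2 l → Int2 F → Two2 F →
    (F.image Prod.snd).card ≤ (S2.card - 1).choose (l - 1) →
    (F.card : ℤ) ≤ bigM S1.card k S2.card l

/-- The case of a large fibre and a large projection. -/
def CASEB : Prop := ∀ (S1 S2 : Finset ℕ) (k l : ℕ), 1 ≤ k → 1 ≤ l → 2 * k ≤ S1.card →
  2 * l ≤ S2.card → ∀ F : Finset (Finset ℕ × Finset ℕ), F ⊆ Om S1 k S2 l → Int2 F →
    (S1.card - 1).choose (k - 1) < (F.image Prod.fst).card →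
    (∃ K : Finset ℕ, (S2.card - 1).choose (l - 1) < (F.filter (fun x => x.1 = K)).card) →
    (F.card : ℤ) ≤ max (bigM S2.card l S1.card k) (bigM S1.card k S2.card l)

/-- The upper bound. -/
def UPPER : Prop := ∀ (S1 S2 : Finset ℕ) (k l : ℕ), 1 ≤ k → 1 ≤ l → 3 ≤ k + l →
  2 * k ≤ S1.card → 2 * l ≤ S2.card → ∀ F : Finset (Finset ℕ × Finset ℕ), F ⊆ Om S1 k S2 l →
    Int2 F → Two1 F → Two2 F →
    (F.card : ℤ) ≤ max (bigM S2.card l S1.card k) (bigM S1.card k S2.card l)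

/-- The construction. -/
def LOWER : Prop := ∀ (S1 S2 : Finset ℕ) (k l : ℕ), 1 ≤ k → 1 ≤ l → 3 ≤ k + l →
  2 * k ≤ S1.card → 2 * l ≤ S2.card →
    ∃ F : Finset (Finset ℕ × Finset ℕ), F ⊆ Om S1 k S2 l ∧ Int2 F ∧ Two1 F ∧ Two2 F ∧
      (F.card : ℤ) = bigM S1.card k S2.card l

end Pool.Agent.P.MP_4c0b8d_co
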