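import Pool.Agent.P.MP_4c0b8d_co.Arith

namespace Pool.Agent.P.MP_4c0b8d_co

open Finset

namespace Prd

lemma mem_om {S1 S2 : Finset ℕ} {k l : ℕ} {x : Finset ℕ × Finset ℕ} :
    x ∈ Om S1 k S2 l ↔ x.1 ∈ S1.powersetCard k ∧ x.2 ∈ S2.powersetCard l := mem_product

lemma card_nb {S K : Finset ℕ} {r : ℕ} (a : ℕ) (h : K ∈ S.powersetCard r) :
    ((S \ K).powersetCard a).card = (S.card - r).choose a := by
  obtain ⟨h1, h2⟩ := mem_powersetCard.1 h
  rw [card_powersetCard, card_sdiff_of_subset h1, h2]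

lemma nb_sub (S K : Finset ℕ) (a : ℕ) : (S \ K).powersetCard a ⊆ S.powersetCard a :=
  powersetCard_mono sdiff_subset

lemma nb_disj {S K E : Finset ℕ} {a : ℕ} (h : E ∈ (S \ K).powersetCard a) : Disjoint E K :=
  disjoint_left.2 fun _ hx => (mem_sdiff.1 ((mem_powersetCard.1 h).1 hx)).2

lemma ex_disj {S E : Finset ℕ} {a b : ℕ} (h : E ∈ S.powersetCard a) (hab : a + b ≤ S.card) :
    ∃ K ∈ S.powersetCard b, Disjoint E K := by
  have h1 : 0 < ((S \ E).powersetCard b).card := by
    rw [card_nb b h]; exact Nat.choose_pos (by omega)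
  obtain ⟨K, hK⟩ := card_pos.1 h1
  exact ⟨K, nb_sub _ _ _ hK, (nb_disj hK).symm⟩

lemma cnt {S1 S2 : Finset ℕ} {a b : ℕ} {A B : Finset (Finset ℕ × Finset ℕ)}
    (hB : B ⊆ Om S1 a S2 b)
    (hc : ∀ u ∈ B, ∀ v ∈ A, ¬ (Disjoint u.1 v.1 ∧ Disjoint u.2 v.2))
    {N1 N2 : Finset (Finset ℕ)} (h1 : N1 ⊆ S1.powersetCard a) (h2 : N2 ⊆ S2.powersetCard b)
    (h : ∀ E1 ∈ N1, ∀ E2 ∈ N2, ∃ v ∈ A, Disjoint E1 v.1 ∧ Disjoint E2 v.2) :
    B.card + N1.card * N2.card ≤ S1.card.choose a * S2.card.choose b := by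
  have hd : Disjoint B (N1 ×ˢ N2) := by
    refine disjoint_left.2 fun u hu hn => ?_
    obtain ⟨v, hv, hh⟩ := h u.1 (mem_product.1 hn).1 u.2 (mem_product.1 hn).2
    exact hc u hu v hv hh
  have hs : B ∪ N1 ×ˢ N2 ⊆ Om S1 a S2 b := union_subset hB (product_subset_product h1 h2)
  have := card_le_card hs
  rwa [card_union_of_disjoint hd, card_product, Om, card_product, card_powersetCard,
    card_powersetCard] at this

lemma card_le_prod {A : Finset (Finset ℕ × Finset ℕ)} {D E : Finset (Finset ℕ)}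
    (h : ∀ x ∈ A, x.1 ∈ D ∧ x.2 ∈ E) : A.card ≤ D.card * E.card := by
  rw [← card_product]
  exact card_le_card fun x hx => mem_product.2 (h x hx)

theorem side {S1 S2 : Finset ℕ} {p q : ℕ} (h1 : 2 * p + 1 ≤ S1.card) (h2 : 2 * q + 1 ≤ S2.card)
    {A B : Finset (Finset ℕ × Finset ℕ)} (hA : A ⊆ Om S1 (p + 1) S2 q)
    (hB : B ⊆ Om S1 p S2 (q + 1)) (hAn : A.Nonempty) (hBn : B.Nonempty)
    (hc : ∀ u ∈ B, ∀ v ∈ A, ¬ (Disjoint u.1 v.1 ∧ Disjoint u.2 v.2))
    (b1 : SwBlk S1 A) (b2 : SwBlk S2 (A.image Prod.swap)) :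
    (A.card + B.card : ℤ) ≤ max (bigW S1.card p S2.card q) (bigW S2.card q S1.card p) := by
  obtain ⟨⟨K, L⟩, hx⟩ := hAn
  have hK : K ∈ S1.powersetCard (p + 1) := (mem_om.1 (hA hx)).1
  have hL : L ∈ S2.powersetCard q := (mem_om.1 (hA hx)).2
  have hBp := hBn.card_pos
  have cK := card_nb p hK
  have cL := card_nb (q + 1) hL
  rw [← Nat.sub_sub] at cK
  have hc1 : 1 ≤ (S1.card - p - 1).choose p := Nat.choose_pos (by omega)
  have hd2 : 1 ≤ (S2.card - q).choose (q + 1) := Nat.choose_pos (by omega)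
  have htd := Arith.t_sub_d q q S2.card le_rfl (by omega)
  have hst : S2.card.choose q ≤ S2.card.choose (q + 1) := Arith.choose_le_of (by omega) (by omega)
  have he1 : (1 : ℤ) ≤ (if p = 0 then (S1.card : ℤ) else 1) := by
    split_ifs
    · exact_mod_cast (by omega : 1 ≤ S1.card)
    · exact le_rfl
  have col : (∀ u ∈ A, u.2 = L) ∨ ∀ u ∈ A, ∀ E ∈ S2.powersetCard q, (u.1, E) ∈ A := by
    by_cases h : ∀ u ∈ A, u.2 = L
    · exact Or.inl h
    · right
      push Not at h
      obtain ⟨y, hy, hne⟩ := h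
      have hA' : ∀ x ∈ A.image Prod.swap, x.1 ∈ S2.powersetCard q := by
        intro x hx
        obtain ⟨w, hw, rfl⟩ := mem_image.1 hx
        exact (mem_om.1 (hA hw)).2
      have := b2.full hA' (mem_image_of_mem Prod.swap hx) (mem_image_of_mem Prod.swap hy)
        (Ne.symm hne) (by
          intro e
          have e1 : y.2.card = q := (mem_powersetCard.1 (mem_om.1 (hA hy)).2).2
          have e2 : y.2 = S2 \ L := e
          rw [e2, card_sdiff_of_subset (mem_powersetCard.1 hL).1,
            (mem_powersetCard.1 hL).2] at e1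
          omega)
      intro u hu E hE
      have h3 := this _ (mem_image_of_mem Prod.swap hu) E hE
      obtain ⟨w, hw, e⟩ := mem_image.1 h3
      have : w = (u.1, E) := by
        have := congrArg Prod.swap e
        simpa using this
      exact this ▸ hw
  have n11 := cnt hB hc (nb_sub S1 K p) (nb_sub S2 L (q + 1))
    (fun E1 a E2 b => ⟨_, hx, nb_disj a, nb_disj b⟩)
  rw [cK, cL] at n11
  have n1c : (∀ u ∈ A, ∀ E ∈ S2.powersetCard q, (u.1, E) ∈ A) →
      B.card + (S1.card - p - 1).choose p * S2.card.choose (q + 1) ≤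
        S1.card.choose p * S2.card.choose (q + 1) := by
    intro hcol
    have := cnt hB hc (nb_sub S1 K p) (Subset.refl _) (fun E1 a E2 b => by
      obtain ⟨L', hL', hd⟩ := ex_disj (b := q) b (by omega)
      exact ⟨_, hcol _ hx L' hL', nb_disj a, hd⟩)
    rwa [cK, card_powersetCard] at this
  have aL : (∀ u ∈ A, u.2 = L) → A.card ≤ S1.card.choose (p + 1) := by
    intro h
    have := card_le_prod (A := A) (D := S1.powersetCard (p + 1)) (E := {L})
      (fun x hx => ⟨(mem_om.1 (hA hx)).1, mem_singleton.2 (h x hx)⟩)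
    simpa [card_powersetCard] using this
  rcases Nat.eq_zero_or_pos p with rfl | hp
  · refine le_max_of_le_left ?_
    rcases col with col | col
    · have := aL col
      simp only [bigW, if_true]
      simp only [Nat.choose_zero_right, zero_add, Nat.choose_one_right] at this n11 ⊢
      zify at this n11
      push_cast
      linarith
    · have := n1c col
      simp only [Nat.choose_zero_right] at this
      omega
  by_cases hrow : ∀ u ∈ A, u.1 = K ∨ u.1 = S1 \ K
  · refine le_max_of_le_left ?_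
    unfold bigW
    by_cases hone : ∀ u ∈ A, u.1 = K
    · rcases col with col | col
      · have := card_le_prod (A := A) (D := {K}) (E := {L})
          (fun x hx => ⟨mem_singleton.2 (hone x hx), mem_singleton.2 (col x hx)⟩)
        simp only [card_singleton] at this
        zify at this n11
        linarith
      · have := card_le_prod (A := A) (D := {K}) (E := S2.powersetCard q)
          (fun x hx => ⟨mem_singleton.2 (hone x hx), (mem_om.1 (hA hx)).2⟩)
        simp only [card_singleton, card_powersetCard] at this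
        have n := n1c col
        zify at this n htd hc1 hst hd2
        nlinarith
    · push Not at hone
      obtain ⟨y, hy, hne⟩ := hone
      have hy1 : y.1 = S1 \ K := (hrow y hy).resolve_left hne
      have hK' : y.1 ∈ S1.powersetCard (p + 1) := (mem_om.1 (hA hy)).1
      have cK' := card_nb p hK'
      rw [← Nat.sub_sub] at cK'
      have hdd : Disjoint ((S1 \ K).powersetCard p) ((S1 \ y.1).powersetCard p) := by
        refine disjoint_left.2 fun E a b => ?_
        obtain ⟨z, hz⟩ : E.Nonempty := card_pos.1 (by rw [(mem_powersetCard.1 a).2]; exact hp)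
        have h3 := (mem_powersetCard.1 a).1 hz
        rw [← hy1] at h3
        exact (mem_sdiff.1 ((mem_powersetCard.1 b).1 hz)).2 h3
      have cN := card_union_of_disjoint hdd
      rw [cK, cK'] at cN
      have sN : (S1 \ K).powersetCard p ∪ (S1 \ y.1).powersetCard p ⊆ S1.powersetCard p :=
        union_subset (nb_sub _ _ _) (nb_sub _ _ _)
      have c2 : ({K, S1 \ K} : Finset (Finset ℕ)).card ≤ 2 := card_le_two
      rcases col with col | col
      · have := card_le_prod (A := A) (D := {K, S1 \ K}) (E := {L})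
          (fun x hx => ⟨by simpa using hrow x hx, mem_singleton.2 (col x hx)⟩)
        simp only [card_singleton] at this
        have n := cnt hB hc sN (nb_sub S2 L (q + 1)) (fun E1 a E2 b => by
          rcases mem_union.1 a with a | a
          · exact ⟨_, hx, nb_disj a, nb_disj b⟩
          · exact ⟨_, hy, nb_disj a, by rw [col y hy]; exact nb_disj b⟩)
        rw [cN, cL] at n
        zify at this n hc1 hd2 c2
        nlinarith
      · have := card_le_prod (A := A) (D := {K, S1 \ K}) (E := S2.powersetCard q)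
          (fun x hx => ⟨by simpa using hrow x hx, (mem_om.1 (hA hx)).2⟩)
        have h4 := this.trans (Nat.mul_le_mul_right _ c2)
        rw [card_powersetCard] at h4
        have n := cnt hB hc sN (Subset.refl _) (fun E1 a E2 b => by
          obtain ⟨L', hL', hd⟩ := ex_disj (b := q) b (by omega)
          rcases mem_union.1 a with a | a
          · exact ⟨_, col _ hx L' hL', nb_disj a, hd⟩
          · exact ⟨_, col _ hy L' hL', nb_disj a, hd⟩)
        rw [cN, card_powersetCard] at n
        zify at h4 n htd hc1 hst hd2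
        nlinarith
  · push Not at hrow
    obtain ⟨y, hy, hne, hne'⟩ := hrow
    have row := b1.full (fun x hx => (mem_om.1 (hA hx)).1) hx hy (Ne.symm hne) hne'
    rcases col with col | col
    · have a := aL col
      have n := cnt hB hc (Subset.refl _) (nb_sub S2 L (q + 1)) (fun E1 a E2 b => by
        obtain ⟨K', hK', hd⟩ := ex_disj (b := p + 1) a (by omega)
        exact ⟨_, row _ hx K' hK', hd, nb_disj b⟩)
      rw [card_powersetCard, cL] at n
      rcases Nat.eq_zero_or_pos q with rfl | hq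
      · simp only [Nat.sub_zero] at n
        omega
      · have := Arith.row hp hq h1 h2
        zify at a n
        linarith
    · exfalso
      obtain ⟨u, hu⟩ := hBn
      obtain ⟨K', hK', hd⟩ := ex_disj (b := p + 1) (mem_om.1 (hB hu)).1 (by omega)
      obtain ⟨L', hL', hd'⟩ := ex_disj (b := q) (mem_om.1 (hB hu)).2 (by omega)
      exact hc u hu _ (col _ (row _ hx K' hK') L' hL') ⟨hd, hd'⟩

lemma sw1 {S1 S2 : Finset ℕ} {a b a' b' : ℕ} {A : Finset (Finset ℕ × Finset ℕ)}
    {adj : Finset ℕ × Finset ℕ → Finset ℕ × Finset ℕ → Prop}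
    (hadj : ∀ u v, adj u v ↔ (Disjoint u.1 v.1 ∧ Disjoint u.2 v.2))
    (h : Blk (Om S1 a S2 b) (Om S1 a' S2 b') adj A) : SwBlk S1 A := by
  intro c hc d hd x hx hx'
  have inj : Function.Injective (fun x : Finset ℕ × Finset ℕ =>
      (x.1.image (Equiv.swap c d), x.2)) := by
    intro u v e
    simp only [Prod.mk.injEq] at e
    exact Prod.ext (image_injective (Equiv.swap c d).injective e.1) e.2
  refine h _ _ ⟨inj, inj, ?_, ?_, ?_⟩ x hx hx'
  · intro u hu
    exact mem_om.2 ⟨swap_mem_pc hc hd (mem_om.1 hu).1, (mem_om.1 hu).2⟩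
  · intro u hu
    exact mem_om.2 ⟨swap_mem_pc hc hd (mem_om.1 hu).1, (mem_om.1 hu).2⟩
  · intro u v e
    rw [hadj] at e ⊢
    exact ⟨disj_of_swap e.1, e.2⟩

lemma sw2 {S1 S2 : Finset ℕ} {a b a' b' : ℕ} {A : Finset (Finset ℕ × Finset ℕ)}
    {adj : Finset ℕ × Finset ℕ → Finset ℕ × Finset ℕ → Prop}
    (hadj : ∀ u v, adj u v ↔ (Disjoint u.1 v.1 ∧ Disjoint u.2 v.2))
    (h : Blk (Om S1 a S2 b) (Om S1 a' S2 b') adj A) : SwBlk S2 (A.image Prod.swap) := by
  intro c hc d hd x hx hx'
  have inj : Function.Injective (fun x : Finset ℕ × Finset ℕ =>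
      (x.1, x.2.image (Equiv.swap c d))) := by
    intro u v e
    simp only [Prod.mk.injEq] at e
    exact Prod.ext e.1 (image_injective (Equiv.swap c d).injective e.2)
  have mem : ∀ z : Finset ℕ × Finset ℕ, z ∈ A.image Prod.swap ↔ z.swap ∈ A := by
    intro z
    constructor
    · intro hz
      obtain ⟨w, hw, rfl⟩ := mem_image.1 hz
      simpa using hw
    · intro hz
      exact mem_image.2 ⟨_, hz, by simp⟩
  have := h _ _ ⟨inj, inj, ?_, ?_, ?_⟩ x.swap ((mem _).1 hx) ((mem _).1 hx')
  · intro y hy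
    exact (mem _).2 (this y.swap ((mem _).1 hy))
  · intro u hu
    exact mem_om.2 ⟨(mem_om.1 hu).1, swap_mem_pc hc hd (mem_om.1 hu).2⟩
  · intro u hu
    exact mem_om.2 ⟨(mem_om.1 hu).1, swap_mem_pc hc hd (mem_om.1 hu).2⟩
  · intro u v e
    rw [hadj] at e ⊢
    exact ⟨e.1, disj_of_swap e.2⟩

lemma card_swap (A : Finset (Finset ℕ × Finset ℕ)) : (A.image Prod.swap).card = A.card :=
  card_image_of_injective _ Prod.swap_injective

lemma swap_sub {S1 S2 : Finset ℕ} {a b : ℕ} {A : Finset (Finset ℕ × Finset ℕ)}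
    (h : A ⊆ Om S1 a S2 b) : A.image Prod.swap ⊆ Om S2 b S1 a := by
  intro x hx
  obtain ⟨w, hw, rfl⟩ := mem_image.1 hx
  exact mem_om.2 ⟨(mem_om.1 (h hw)).2, (mem_om.1 (h hw)).1⟩

end Prd

open Prd in
theorem prod : PROD := by
  intro S1 S2 p q h1 h2 U R hU hR hUn hRn hc
  refine atom_bound (SX := Om S1 p S2 (q + 1)) (SY := Om S1 (p + 1) S2 q)
    (adj := fun u v => Disjoint u.1 v.1 ∧ Disjoint u.2 v.2) _ ?_ ?_ U R ⟨hU, hR, hUn, hRn, hc⟩
  · intro A B ⟨hA, hB, hAn, hBn, hc⟩ hb
    have b1 := sw1 (fun _ _ => Iff.rfl) hb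
    have b2 := sw2 (fun _ _ => Iff.rfl) hb
    have := side h2 h1 (swap_sub hA) (swap_sub hB) (hAn.image _) (hBn.image _) (by
      intro u hu v hv hh
      obtain ⟨u', hu', rfl⟩ := mem_image.1 hu
      obtain ⟨v', hv', rfl⟩ := mem_image.1 hv
      exact hc v' hv' u' hu' ⟨hh.2.symm, hh.1.symm⟩) b2 (by
        rw [image_image]
        simpa using b1)
    rwa [card_swap, card_swap, max_comm] at this
  · intro A B ⟨hA, hB, hAn, hBn, hc⟩ hb
    have e : ∀ u v : Finset ℕ × Finset ℕ, (Disjoint v.1 u.1 ∧ Disjoint v.2 u.2) ↔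
        (Disjoint u.1 v.1 ∧ Disjoint u.2 v.2) := fun u v => by
      rw [disjoint_comm, disjoint_comm (a := v.2)]
    have := side h1 h2 hB hA hBn hAn hc (sw1 e hb) (sw2 e hb)
    linarith

end Pool.Agent.P.MP_4c0b8d_co
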