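import Pool.Agent.P.MP_4c0b8d_co.Prod

namespace Pool.Agent.P.MP_4c0b8d_co

open Finset

namespace Upp

open Prd

/-- Replace `j` by `i` in the first part. -/
def mv (i j : ℕ) (x : Finset ℕ × Finset ℕ) : Finset ℕ × Finset ℕ := (insert i (x.1.erase j), x.2)

/-- The member `x` is moved by the shift. -/
def Mvd (i j : ℕ) (F : Finset (Finset ℕ × Finset ℕ)) (x : Finset ℕ × Finset ℕ) : Prop :=
  j ∈ x.1 ∧ i ∉ x.1 ∧ mv i j x ∉ F

instance (i j : ℕ) (F : Finset (Finset ℕ × Finset ℕ)) (x : Finset ℕ × Finset ℕ) :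
    Decidable (Mvd i j F x) := by unfold Mvd; infer_instance

/-- The shift of one member. -/
def sf (i j : ℕ) (F : Finset (Finset ℕ × Finset ℕ)) (x : Finset ℕ × Finset ℕ) :
    Finset ℕ × Finset ℕ := if Mvd i j F x then mv i j x else x

variable {i j : ℕ} {F : Finset (Finset ℕ × Finset ℕ)}

lemma sf_snd (x : Finset ℕ × Finset ℕ) : (sf i j F x).2 = x.2 := by
  unfold sf; split_ifs <;> rfl

lemma sf_inj : Set.InjOn (sf i j F) F := by
  intro x hx y hy e
  unfold sf at e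
  split_ifs at e with h1 h2 h2
  · have back : ∀ z, Mvd i j F z → z.1 = insert j ((mv i j z).1.erase i) := by
      intro z hz
      simp only [mv]
      rw [erase_insert (fun hh => hz.2.1 (mem_of_mem_erase hh)), insert_erase hz.1]
    refine Prod.ext ?_ (congrArg Prod.snd e :)
    rw [back x h1, back y h2, e]
  · exact absurd (e ▸ hy) h1.2.2
  · exact absurd (e ▸ hx) h2.2.2
  · exact e

lemma mv_mem {S1 S2 : Finset ℕ} {k l : ℕ} {x : Finset ℕ × Finset ℕ} (hx : x ∈ Om S1 k S2 l)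
    (hi : i ∈ S1) (h1 : j ∈ x.1) (h2 : i ∉ x.1) : mv i j x ∈ Om S1 k S2 l := by
  obtain ⟨a, b⟩ := mem_om.1 hx
  obtain ⟨a1, a2⟩ := mem_powersetCard.1 a
  refine mem_om.2 ⟨mem_powersetCard.2 ⟨insert_subset hi ((erase_subset _ _).trans a1), ?_⟩, b⟩
  have := card_pos.2 ⟨j, h1⟩
  simp only [mv]
  rw [card_insert_of_notMem (fun hh => h2 (mem_of_mem_erase hh)), card_erase_of_mem h1]
  omega

lemma sh_sub {S1 S2 : Finset ℕ} {k l : ℕ} (hF : F ⊆ Om S1 k S2 l) (hi : i ∈ S1) :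
    F.image (sf i j F) ⊆ Om S1 k S2 l := by
  intro z hz
  obtain ⟨x, hx, rfl⟩ := mem_image.1 hz
  unfold sf
  split_ifs with h
  · exact mv_mem (hF hx) hi h.1 h.2.1
  · exact hF hx

lemma half (hI : Int2 F) {x y : Finset ℕ × Finset ℕ} (hx : x ∈ F) (hy : y ∈ F)
    (h1 : Mvd i j F x) (h2 : ¬ Mvd i j F y) :
    ¬ (Disjoint (mv i j x).1 y.1 ∧ Disjoint x.2 y.2) := by
  rintro ⟨a, b⟩
  have hi : i ∉ y.1 := disjoint_left.1 a (mem_insert_self _ _)
  have only : ∀ z ∈ x.1, z ∈ y.1 → z = j := by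
    intro z hz hz'
    by_contra hne
    exact disjoint_left.1 a (mem_insert_of_mem (mem_erase.2 ⟨hne, hz⟩)) hz'
  have hj : j ∈ y.1 := by
    by_contra hj
    exact hI x hx y hy ⟨disjoint_left.2 fun z hz hz' => hj (only z hz hz' ▸ hz'), b⟩
  have hm : mv i j y ∈ F := by
    by_contra hm
    exact h2 ⟨hj, hi, hm⟩
  refine hI x hx _ hm ⟨disjoint_left.2 fun z hz hz' => ?_, b⟩
  rcases mem_insert.1 hz' with rfl | hz'
  · exact h1.2.1 hz
  · exact (mem_erase.1 hz').1 (only z hz (mem_of_mem_erase hz'))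

lemma sh_int (hI : Int2 F) : Int2 (F.image (sf i j F)) := by
  intro u hu v hv
  obtain ⟨x, hx, rfl⟩ := mem_image.1 hu
  obtain ⟨y, hy, rfl⟩ := mem_image.1 hv
  unfold sf
  split_ifs with h1 h2 h2
  · exact fun h => disjoint_left.1 h.1 (mem_insert_self _ _) (mem_insert_self _ _)
  · exact half hI hx hy h1 h2
  · exact fun h => half hI hy hx h2 h1 ⟨h.1.symm, h.2.symm⟩
  · exact hI x hx y hy

lemma sh_two (h : Two2 F) : Two2 (F.image (sf i j F)) := by
  obtain ⟨x, hx, y, hy, e⟩ := h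
  exact ⟨_, mem_image_of_mem _ hx, _, mem_image_of_mem _ hy, by rwa [sf_snd, sf_snd]⟩

/-- The potential. -/
def pot (K : Finset ℕ) (F : Finset (Finset ℕ × Finset ℕ)) : ℕ := ∑ x ∈ F, (x.1 \ K).card

lemma mv_pot {K : Finset ℕ} (hi : i ∈ K) (hj : j ∉ K) {x : Finset ℕ × Finset ℕ} (h : j ∈ x.1) :
    ((mv i j x).1 \ K).card < (x.1 \ K).card := by
  refine card_lt_card ⟨fun z hz => ?_, fun hh => ?_⟩
  · obtain ⟨a, b⟩ := mem_sdiff.1 hz
    rcases mem_insert.1 a with rfl | a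
    · exact absurd hi b
    · exact mem_sdiff.2 ⟨mem_of_mem_erase a, b⟩
  · rcases mem_insert.1 (mem_sdiff.1 (hh (mem_sdiff.2 ⟨h, hj⟩))).1 with e | e
    · exact hj (e ▸ hi)
    · exact notMem_erase _ _ e

lemma sh_pot {K : Finset ℕ} (hi : i ∈ K) (hj : j ∉ K) {x : Finset ℕ × Finset ℕ} (hx : x ∈ F)
    (h : Mvd i j F x) : pot K (F.image (sf i j F)) < pot K F := by
  unfold pot
  rw [sum_image sf_inj]
  refine sum_lt_sum (fun y _ => ?_) ⟨x, hx, ?_⟩
  · unfold sf
    split_ifs with h'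
    · exact (mv_pot hi hj h'.1).le
    · exact le_rfl
  · unfold sf
    rw [if_pos h]
    exact mv_pot hi hj h.1

lemma stable {S1 S2 K : Finset ℕ} {k l : ℕ} (hF : F ⊆ Om S1 k S2 l) (hK : K ∈ S1.powersetCard k)
    (h : ∀ i ∈ K, ∀ j, j ∉ K → ∀ x ∈ F, ¬ Mvd i j F x) : ∀ x ∈ F, (K, x.2) ∈ F := by
  intro x hx
  induction' hn : (x.1 \ K).card using Nat.strong_induction_on with n ih generalizing x
  have c1 := (mem_powersetCard.1 (mem_om.1 (hF hx)).1).2
  have c2 := (mem_powersetCard.1 hK).2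
  by_cases hs : x.1 ⊆ K
  · rw [← eq_of_subset_of_card_le hs (by omega)]; exact hx
  · obtain ⟨j, hj, hjK⟩ := not_subset.1 hs
    have : ¬ K ⊆ x.1 := fun hh => hs (eq_of_subset_of_card_le hh (by omega)).ge
    obtain ⟨i, hi, hix⟩ := not_subset.1 this
    have hm : mv i j x ∈ F := by
      by_contra hm
      exact h i hi j hjK x hx ⟨hj, hix, hm⟩
    exact ih _ (hn ▸ mv_pot hi hjK hj) (mv i j x) hm rfl

lemma card_thru {S : Finset ℕ} {k : ℕ} (hi : i ∈ S) (hij : i ≠ j) (hj : j ∈ S) :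
    ((S.powersetCard (k + 1)).filter (fun E => j ∈ E ∧ i ∉ E)).card ≤ (S.card - 2).choose k := by
  have e : S.card - 2 = ((S.erase i).erase j).card := by
    rw [card_erase_of_mem (mem_erase.2 ⟨hij.symm, hj⟩), card_erase_of_mem hi]; omega
  rw [e, ← card_powersetCard]
  refine card_le_card_of_injOn (fun E => E.erase j) ?_ ?_
  · intro E hE
    obtain ⟨a, b, c⟩ := mem_filter.1 hE
    obtain ⟨a1, a2⟩ := mem_powersetCard.1 a
    refine mem_coe.2 (mem_powersetCard.2 ⟨erase_subset_erase _ fun z hz =>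
      mem_erase.2 ⟨fun e => c (e ▸ hz), a1 hz⟩, ?_⟩)
    rw [card_erase_of_mem b, a2]; rfl
  · intro E hE E' hE' e
    rw [← insert_erase (mem_filter.1 hE).2.1, ← insert_erase (mem_filter.1 hE').2.1]
    exact congrArg _ e

lemma arith {n k : ℕ} (hk : 2 ≤ k) (h : 2 * k ≤ n) :
    (n - 1).choose (k - 1) + (n - 2).choose (k - 1) + (n - k).choose k ≤ n.choose k := by
  have h1 : (n - k).choose k ≤ (n - 2).choose k := Nat.choose_le_choose k (by omega)
  obtain ⟨n, rfl⟩ : ∃ m, n = m + 2 := ⟨n - 2, by omega⟩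
  obtain ⟨k, rfl⟩ : ∃ m, k = m + 1 := ⟨k - 1, by omega⟩
  have a := Nat.choose_succ_succ' (n + 1) k
  have b := Nat.choose_succ_succ' n k
  simp only [Nat.add_sub_cancel, show n + 2 - 1 = n + 1 from rfl] at h1 ⊢
  have c : (n + 2).choose (k + 1) = (n + 1 + 1).choose (k + 1) := rfl
  omega

lemma swap_int (h : Int2 F) : Int2 (F.image Prod.swap) := by
  intro u hu v hv hh
  obtain ⟨x, hx, rfl⟩ := mem_image.1 hu
  obtain ⟨y, hy, rfl⟩ := mem_image.1 hv
  exact h x hx y hy ⟨hh.2, hh.1⟩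

lemma swap_two1 (h : Two2 F) : Two1 (F.image Prod.swap) := by
  obtain ⟨x, hx, y, hy, e⟩ := h
  exact ⟨_, mem_image_of_mem _ hx, _, mem_image_of_mem _ hy, e⟩

lemma swap_two2 (h : Two1 F) : Two2 (F.image Prod.swap) := by
  obtain ⟨x, hx, y, hy, e⟩ := h
  exact ⟨_, mem_image_of_mem _ hx, _, mem_image_of_mem _ hy, e⟩

theorem main (hE : EKR) (hA : CASEA) (hB : CASEB) {S1 S2 : Finset ℕ} {k l : ℕ} (hk : 2 ≤ k)
    (hl : 1 ≤ l) (h1 : 2 * k ≤ S1.card) (h2 : 2 * l ≤ S2.card)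
    (F : Finset (Finset ℕ × Finset ℕ)) (hF : F ⊆ Om S1 k S2 l) (hI : Int2 F) (t1 : Two1 F)
    (t2 : Two2 F) :
    (F.card : ℤ) ≤ max (bigM S2.card l S1.card k) (bigM S1.card k S2.card l) := by
  obtain ⟨K, hK⟩ : (S1.powersetCard k).Nonempty := powersetCard_nonempty.2 (by omega)
  induction' hn : pot K F using Nat.strong_induction_on with n ih generalizing F
  by_cases c2 : (F.image Prod.snd).card ≤ (S2.card - 1).choose (l - 1)
  · exact le_max_of_le_right (hA S1 S2 k l (by omega) hl h1 h2 F hF hI t2 c2)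
  by_cases c1 : (F.image Prod.fst).card ≤ (S1.card - 1).choose (k - 1)
  · have := hA S2 S1 l k hl (by omega) h2 h1 _ (swap_sub hF) (swap_int hI) (swap_two2 t1)
      (by rw [image_image]; exact c1)
    rw [card_swap] at this
    exact le_max_of_le_left this
  by_cases c3 : ∃ K : Finset ℕ, (S2.card - 1).choose (l - 1) < (F.filter (fun x => x.1 = K)).card
  · exact hB S1 S2 k l (by omega) hl h1 h2 F hF hI (by omega) c3
  push Not at c3
  have ex : ∃ i ∈ K, ∃ j, j ∉ K ∧ ∃ x ∈ F, Mvd i j F x := by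
    by_contra hh
    push Not at hh
    have st := stable hF hK hh
    have : F.image Prod.snd ⊆ (F.filter (fun x => x.1 = K)).image Prod.snd := by
      intro L hL
      obtain ⟨x, hx, rfl⟩ := mem_image.1 hL
      exact mem_image.2 ⟨(K, x.2), mem_filter.2 ⟨st x hx, rfl⟩, rfl⟩
    have := ((card_le_card this).trans card_image_le).trans (c3 K)
    exact c2 this
  obtain ⟨i, hi, j, hj, x, hx, hm⟩ := ex
  have hiS : i ∈ S1 := (mem_powersetCard.1 hK).1 hi
  have hjS : j ∈ S1 := (mem_powersetCard.1 (mem_om.1 (hF hx)).1).1 hm.1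
  have hG := sh_sub (j := j) hF hiS
  have cG : (F.image (sf i j F)).card = F.card := card_image_of_injOn sf_inj
  by_cases tt : Two1 (F.image (sf i j F))
  · rw [← cG]
    exact ih _ (hn ▸ sh_pot hi hj hx hm) _ hG (sh_int hI) tt (sh_two t2) rfl
  refine le_max_of_le_right ?_
  have e1 := hE S1 k (by omega) h1 ((F.image (sf i j F)).image Prod.fst) (by
    intro E hE
    obtain ⟨z, hz, rfl⟩ := mem_image.1 hE
    exact (mem_om.1 (hG hz)).1) (by
    intro a ha b hb hd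
    obtain ⟨z, hz, rfl⟩ := mem_image.1 ha
    obtain ⟨w, hw, rfl⟩ := mem_image.1 hb
    exact tt ⟨z, hz, w, hw, hd⟩)
  have e2 := card_thru (k := k - 1) (j := j) hiS (fun e => hj (e ▸ hi)) hjS
  rw [show k - 1 + 1 = k by omega] at e2
  have e3 : F.image Prod.fst ⊆ (F.image (sf i j F)).image Prod.fst ∪
      (S1.powersetCard k).filter (fun E => j ∈ E ∧ i ∉ E) := by
    intro E hE
    obtain ⟨z, hz, rfl⟩ := mem_image.1 hE
    by_cases hz' : Mvd i j F z
    · exact mem_union_right _ (mem_filter.2 ⟨(mem_om.1 (hF hz)).1, hz'.1, hz'.2.1⟩)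
    · refine mem_union_left _ (mem_image_of_mem _ (mem_image.2 ⟨z, hz, ?_⟩))
      unfold sf
      rw [if_neg hz']
  have e4 := (card_le_card e3).trans (card_union_le _ _)
  have e5 : F.card ≤ (S2.card - 1).choose (l - 1) * (F.image Prod.fst).card :=
    card_le_mul_card_image _ _ fun a _ => c3 a
  have e6 := arith hk h1
  have e7 : (S2.card - l - 1).choose (l - 1) ≤ (S2.card - 1).choose (l - 1) :=
    Nat.choose_le_choose _ (by omega)
  have he : (0 : ℤ) ≤ (if l = 1 then (S2.card : ℤ) - 1 else 1) := by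
    split_ifs <;> omega
  have e8 : (F.image Prod.fst).card + (S1.card - k).choose k ≤ S1.card.choose k := by omega
  unfold bigM
  zify at e5 e7 e8
  have a1 := mul_le_mul_of_nonneg_left e8
    (by positivity : (0 : ℤ) ≤ ((S2.card - 1).choose (l - 1) : ℕ))
  have a2 := mul_le_mul_of_nonneg_left e7
    (by positivity : (0 : ℤ) ≤ ((S1.card - k).choose k : ℕ))
  linarith

end Upp

open Prd Upp in
theorem upper (hE : EKR) (hA : CASEA) (hB : CASEB) : UPPER := by
  intro S1 S2 k l hk hl hkl h1 h2 F hF hI t1 t2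
  by_cases h : 2 ≤ k
  · exact main hE hA hB h hl h1 h2 F hF hI t1 t2
  · have := main hE hA hB (by omega : 2 ≤ l) hk h2 h1 _ (swap_sub hF) (swap_int hI)
      (swap_two1 t2) (swap_two2 t1)
    rwa [card_swap, max_comm] at this

end Pool.Agent.P.MP_4c0b8d_co
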