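import Pool.Agent.P.MP_4c0b8d_co.Cor

namespace Pool.Agent.P.MP_4c0b8d_co

open Finset

/-- Two members which are disjoint inside `X` force `2 k ≤ |X|`. -/
theorem two_le {X A B : Finset ℕ} {k : ℕ} (hA : (A ∩ X).card = k) (hB : (B ∩ X).card = k)
    (h : A ∩ B ∩ X = ∅) : 2 * k ≤ X.card := by
  have hd : Disjoint (A ∩ X) (B ∩ X) := by
    rw [disjoint_iff_inter_eq_empty, ← inter_inter_distrib_right]; exact h
  have := card_le_card (union_subset (inter_subset_right (s₁ := A) (s₂ := X))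
    (inter_subset_right (s₁ := B) (s₂ := X)))
  rw [card_union_of_disjoint hd] at this
  omega

/-- There is no two-sided intersecting family for `k = l = 1`. -/
theorem void_one {X1 X2 : Finset ℕ} {F : Finset (Finset ℕ)}
    (hF : ∀ A ∈ F, A ⊆ X1 ∪ X2 ∧ (A ∩ X1).card = 1 ∧ (A ∩ X2).card = 1)
    (hI : ∀ A ∈ F, ∀ B ∈ F, A ∩ B ≠ ∅) (t1 : ∃ A ∈ F, ∃ B ∈ F, A ∩ B ∩ X1 = ∅)
    (t2 : ∃ A ∈ F, ∃ B ∈ F, A ∩ B ∩ X2 = ∅) : False := by
  have key : ∀ A ∈ F, ∀ B ∈ F, A ∩ X1 = B ∩ X1 ∨ A ∩ X2 = B ∩ X2 := by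
    intro A hA B hB
    obtain ⟨z, hz⟩ := nonempty_iff_ne_empty.2 (hI A hA B hB)
    obtain ⟨a, b⟩ := mem_inter.1 hz
    have one : ∀ {S T : Finset ℕ}, S.card = 1 → T.card = 1 → z ∈ S → z ∈ T → S = T := by
      intro S T hS hT zS zT
      obtain ⟨s, rfl⟩ := card_eq_one.1 hS
      obtain ⟨t, rfl⟩ := card_eq_one.1 hT
      rw [← mem_singleton.1 zS, ← mem_singleton.1 zT]
    rcases mem_union.1 ((hF A hA).1 a) with h | h
    · exact Or.inl (one (hF A hA).2.1 (hF B hB).2.1 (mem_inter.2 ⟨a, h⟩) (mem_inter.2 ⟨b, h⟩))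
    · exact Or.inr (one (hF A hA).2.2 (hF B hB).2.2 (mem_inter.2 ⟨a, h⟩) (mem_inter.2 ⟨b, h⟩))
  have ne : ∀ {A B X : Finset ℕ}, (A ∩ X).card = 1 → A ∩ B ∩ X = ∅ → A ∩ X ≠ B ∩ X := by
    intro A B X h1 h2 e
    rw [inter_inter_distrib_right, ← e, inter_self] at h2
    rw [h2] at h1
    exact absurd h1 (by simp)
  obtain ⟨A, hA, B, hB, e1⟩ := t1
  obtain ⟨C, hC, D, hD, e2⟩ := t2
  have n1 := ne (hF A hA).2.1 e1
  have n2 := ne (hF C hC).2.2 e2
  have a1 := (key A hA B hB).resolve_left n1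
  have a2 := (key C hC D hD).resolve_right n2
  have k1 := key A hA C hC
  have k2 := key B hB C hC
  have k3 := key A hA D hD
  have k4 := key B hB D hD
  rw [← a1] at k2 k4
  rw [← a2] at k3 k4
  rcases k1 with h | h
  · have h2 := k2.resolve_left fun e => n1 (h.trans e.symm)
    have h4 := k4.resolve_left fun e => n1 (h.trans e.symm)
    exact n2 (h2.symm.trans h4)
  · have h3 := k3.resolve_right fun e => n2 (h.symm.trans e)
    have h4 := k4.resolve_right fun e => n2 (h.symm.trans e)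
    exact n1 (h3.trans h4.symm)

end Pool.Agent.P.MP_4c0b8d_co
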